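import Pool.Agent.Lib.MP_50bb2e_nt.ND.Iface
import Pool.Agent.Lib.MP_50bb2e_nt.PP.MainA

/-!
MP_50bb2e_nt, board ND, row GOOD: the group property and the design property for large central
values, for an abstract relation `CV e l` (`l` is the central value of the series of `e`) which is
linear and unique; instance for PP.
-/

open IsDedekindDomain NumberField Filter Topology

namespace Pool.Agent.Lib.MP_50bb2e_nt.ND

open Pool.Agent.Lib.MP_50bb2e_nt.PP

/-- the product of the `w`-values of the central values is larger than `b` -/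
def LgCV {F : Type} [Field F] [NumberField F] (CV : (Ideal (𝓞 F) → ℂ) → ℂ → Prop) {ι : Type}
    [Fintype ι] (c : ι → Ideal (𝓞 F) → ℂ) (w : AbsoluteValue ℂ ℝ) (b : ℝ) (χ : QChar F) : Prop :=
  ∃ l : ι → ℂ, (∀ i, CV (fun a => c i a * (χ.chi a : ℂ)) (l i)) ∧ b < ∏ i, w (l i)

open Classical in
/-- the hypotheses on the relation and the forms -/
structure CVSet {F : Type} [Field F] [NumberField F] (CV : (Ideal (𝓞 F) → ℂ) → ℂ → Prop)
    {ι : Type} [Fintype ι] (c : ι → Ideal (𝓞 F) → ℂ) (w : AbsoluteValue ℂ ℝ) (B : ι → ℝ)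
    (P : Set (Pr F)) : Prop where
  na : ∀ x y : ℂ, w (x + y) ≤ max (w x) (w y)
  two : w 2 < 1
  uniq : ∀ (e : Ideal (𝓞 F) → ℂ) (l l' : ℂ), CV e l → CV e l' → l = l'
  lin : ∀ (T : Type) (s : Finset T) (e : T → Ideal (𝓞 F) → ℂ) (l k : T → ℂ),
    (∀ t ∈ s, CV (e t) (l t)) → CV (fun I => ∑ t ∈ s, k t * e t I) (∑ t ∈ s, k t * l t)
  int : ∀ (i : ι) (T : Finset (Pr F)), (T : Set (Pr F)) ⊆ P → ∀ E : Set (Ideal (𝓞 F)),
    IsRayUnion T E → ∃ l : ℂ, CV (fun a => if a ∈ E then c i a else 0) l ∧ w l ≤ B i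
  lm : ∀ (i : ι) (χ : QChar F), (χ.T : Set (Pr F)) ⊆ P → ∀ T : Finset (Pr F), χ.T ⊆ T →
    (T : Set (Pr F)) ⊆ P →
    ∃ z : ℂ, CV (fun a => c i a * (χ.chi a : ℂ)) z ∧
      ∀ d : ℂ, CV (fun a => if Cop T a then c i a * (χ.chi a : ℂ) else 0) d → w d = w z

section

variable {F : Type} [Field F] [NumberField F] {CV : (Ideal (𝓞 F) → ℂ) → ℂ → Prop}
  {ι : Type} [Fintype ι] {c : ι → Ideal (𝓞 F) → ℂ} {w : AbsoluteValue ℂ ℝ} {B : ι → ℝ}
  {P : Set (Pr F)}

open Classical in
theorem rayU (hray : RayStatement) {X : Type} (ρ : X → QChar F) (T : Finset (Pr F))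
    (hT : ∀ x, (ρ x).T ⊆ T) (g : X → ℤ) :
    IsRayUnion T {a | a ≠ ⊥ ∧ Cop T a ∧ ∀ x, g x = (ρ x).chi a} := by
  refine ⟨fun a ha => ⟨ha.1, ha.2.1⟩, ?_⟩
  rintro a ⟨ha, haT, hag⟩ b α β hα hβ hαβ heq
  have hαs : Ideal.span {α} ≠ ⊥ := by simpa using hα
  have hβT : ∀ v ∈ T, β ∉ v.asIdeal := by
    intro v hv hβv
    apply (hαβ v hv).1
    have := v.asIdeal.add_mem (hαβ v hv).2 hβv
    simpa using this
  have hb : b ≠ ⊥ := by
    rintro rfl
    rw [Ideal.mul_bot] at heq
    exact mul_ne_zero (M₀ := Ideal (𝓞 F)) hαs ha heq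
  have hbT : Cop T b := by
    intro v hv hbv
    have h1 : Ideal.span {α} * a ≤ v.asIdeal := by
      rw [heq]; exact Ideal.mul_le_right.trans hbv
    rcases (v.isPrime.mul_le).1 h1 with h | h
    · exact (hαβ v hv).1 (h (Ideal.mem_span_singleton_self α))
    · exact haT v hv h
  refine ⟨hb, hbT, fun x => ?_⟩
  rw [hag x]
  have h1 : (ρ x).chi (Ideal.span {α}) = (ρ x).chi (Ideal.span {β}) :=
    hray F (ρ x) α β hα hβ (fun v hv => hαβ v (hT x hv))
  have h2 : (ρ x).chi (Ideal.span {β}) ≠ 0 := by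
    have := (ρ x).val (Ideal.span {β}) (by simpa using hβ) (by
      intro v hv hle
      exact hβT v (hT x hv) (hle (Ideal.mem_span_singleton_self β)))
    rcases this with h | h <;> rw [h] <;> norm_num
  have h3 := congrArg (ρ x).chi heq
  rw [(ρ x).mul, (ρ x).mul, h1] at h3
  exact mul_left_cancel₀ h2 h3

theorem cop_mul' {T : Finset (Pr F)} {a b : Ideal (𝓞 F)} (ha : Cop T a) (hb : Cop T b) :
    Cop T (a * b) := by
  intro v hv h
  rcases (v.isPrime.mul_le).1 h with h1 | h1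
  · exact ha v hv h1
  · exact hb v hv h1

open Classical in
/-- the values of a finite family of characters as functions on a finite set -/
theorem key (hray : RayStatement) (hS : CVSet CV c w B P) [Nonempty ι] {X : Type} [Fintype X]
    (ρ : X → QChar F) (hρP : ∀ x, ((ρ x).T : Set (Pr F)) ⊆ P) :
    ∃ (G : Type) (_ : Fintype G) (θ : G → ℂ) (ev : X → G → ℤ),
      (∀ i, 0 ≤ B i) ∧ (∀ g, w (θ g) ≤ ∏ i, B i) ∧
      (∀ g, ∃ a : Ideal (𝓞 F), a ≠ ⊥ ∧ (∀ x, Cop (ρ x).T a) ∧ ∀ x, ev x g = (ρ x).chi a) ∧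
      (∀ a : Ideal (𝓞 F), a ≠ ⊥ → (∀ x, Cop (ρ x).T a) → ∃ g, ∀ x, ev x g = (ρ x).chi a) ∧
      ∀ (x : X) (l : ι → ℂ), (∀ i, CV (fun a => c i a * ((ρ x).chi a : ℂ)) (l i)) →
        w (∑ g, θ g * (ev x g : ℂ)) = ∏ i, w (l i) := by
  obtain ⟨i0⟩ : Nonempty ι := inferInstance
  set T : Finset (Pr F) := Finset.univ.biUnion (fun x => (ρ x).T) with hT
  have hTρ : ∀ x, (ρ x).T ⊆ T :=
    fun x => Finset.subset_biUnion_of_mem (fun x => (ρ x).T) (Finset.mem_univ x)
  have hTP : (T : Set (Pr F)) ⊆ P := by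
    intro v hv
    obtain ⟨x, -, hv⟩ := Finset.mem_biUnion.1 (Finset.mem_coe.1 hv)
    exact hρP x hv
  have hcop : ∀ a : Ideal (𝓞 F), (∀ x, Cop (ρ x).T a) ↔ Cop T a := by
    intro a
    constructor
    · intro h v hv
      obtain ⟨x, -, hv⟩ := Finset.mem_biUnion.1 hv
      exact h x v hv
    · intro h x v hv
      exact h v (hTρ x hv)
  set Gs : Set (X → ℤ) := {g | ∃ a : Ideal (𝓞 F), a ≠ ⊥ ∧ Cop T a ∧ ∀ x, g x = (ρ x).chi a}
    with hGs
  have hGpm : ∀ g ∈ Gs, ∀ x, g x = 1 ∨ g x = -1 := by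
    rintro g ⟨a, ha, haT, hg⟩ x
    rw [hg x]
    exact (ρ x).val a ha ((hcop a).2 haT x)
  have hGfin : Gs.Finite := by
    apply Set.Finite.subset (Set.Finite.pi (fun _ : X => (Set.toFinite ({1, -1} : Set ℤ))))
    intro g hg
    rw [Set.mem_univ_pi]
    intro x
    rcases hGpm g hg x with h | h <;> simp [h]
  obtain ⟨hGft⟩ : Nonempty (Fintype ↥Gs) := ⟨hGfin.fintype⟩
  set E : ↥Gs → Set (Ideal (𝓞 F)) := fun g => {a | a ≠ ⊥ ∧ Cop T a ∧ ∀ x, g.1 x = (ρ x).chi a}
    with hE
  have hEray : ∀ g, IsRayUnion T (E g) := fun g => rayU hray ρ T hTρ g.1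
  choose Z hZc hZB using fun i g => hS.int i T hTP (E g) (hEray g)
  have hG0 : (fun x => (ρ x).chi ⊤) ∈ Gs := by
    refine ⟨⊤, top_ne_bot, ?_, fun _ => rfl⟩
    intro v _ h
    exact v.isPrime.ne_top (top_le_iff.1 h)
  have hB : ∀ i, 0 ≤ B i := fun i => (w.nonneg _).trans (hZB i ⟨_, hG0⟩)
  set D : ι → X → ℂ := fun i x => ∑ g : ↥Gs, ((g.1 x : ℤ) : ℂ) * Z i g with hD
  have hDcv : ∀ i x, CV (fun a => if Cop T a then c i a * ((ρ x).chi a : ℂ) else 0) (D i x) := by
    intro i x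
    have h1 := hS.lin ↥Gs Finset.univ _ (Z i)
      (fun g => ((g.1 x : ℤ) : ℂ)) (fun g _ => hZc i g)
    convert h1 using 1
    funext a
    by_cases ha : a = ⊥
    · subst ha
      have h3 : ∀ g : ↥Gs, (⊥ : Ideal (𝓞 F)) ∉ E g := fun g h => h.1 rfl
      rw [Finset.sum_eq_zero (fun g _ => by rw [if_neg (h3 g), mul_zero]), (ρ x).bot]
      simp
    by_cases haT : Cop T a
    · rw [if_pos haT]
      have hmem : (fun x => (ρ x).chi a) ∈ Gs := ⟨a, ha, haT, fun _ => rfl⟩
      rw [Finset.sum_eq_single (⟨_, hmem⟩ : ↥Gs)]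
      · rw [if_pos (show a ∈ E ⟨_, hmem⟩ from ⟨ha, haT, fun _ => rfl⟩)]
        ring
      · intro g _ hg
        rw [if_neg, mul_zero]
        rintro ⟨_, _, h⟩
        apply hg
        apply Subtype.ext
        funext x
        exact h x
      · intro h
        exact absurd (Finset.mem_univ _) h
    · rw [if_neg haT]
      symm
      apply Finset.sum_eq_zero
      intro g _
      rw [if_neg, mul_zero]
      rintro ⟨_, h, _⟩
      exact haT h
  set θ : (ι → ↥Gs) → ℂ := fun g => ∏ i, Z i (g i) with hθ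
  set ev : X → (ι → ↥Gs) → ℤ := fun x g => ∏ i, (g i).1 x with hev
  refine ⟨ι → ↥Gs, inferInstance, θ, ev, hB, ?_, ?_, ?_, ?_⟩
  · intro g
    simp only [hθ, map_prod]
    exact Finset.prod_le_prod (fun i _ => w.nonneg _) (fun i _ => hZB i (g i))
  · intro g
    choose a ha haT hag using fun i => (g i).2
    refine ⟨∏ i, a i, ?_, ?_, ?_⟩
    · exact Finset.prod_ne_zero_iff.2 (fun i _ => ha i)
    · rw [hcop]
      have : ∀ s : Finset ι, Cop T (∏ i ∈ s, a i) := by
        intro s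
        induction s using Finset.induction_on with
        | empty =>
          intro v _ h
          rw [Finset.prod_empty, Ideal.one_eq_top] at h
          exact v.isPrime.ne_top (top_le_iff.1 h)
        | insert i s hi ih =>
          rw [Finset.prod_insert hi]
          exact cop_mul' (haT i) ih
      exact this _
    · intro x
      have : ∀ s : Finset ι, (ρ x).chi (∏ i ∈ s, a i) = ∏ i ∈ s, (ρ x).chi (a i) := by
        intro s
        induction s using Finset.induction_on with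
        | empty => rw [Finset.prod_empty, Finset.prod_empty, Ideal.one_eq_top, (ρ x).top]
        | insert i s hi ih => rw [Finset.prod_insert hi, Finset.prod_insert hi, (ρ x).mul, ih]
      rw [this]
      simp only [hev]
      exact Finset.prod_congr rfl (fun i _ => hag i x)
  · intro a ha haT
    rw [hcop] at haT
    have hmem : (fun x => (ρ x).chi a) ∈ Gs := ⟨a, ha, haT, fun _ => rfl⟩
    refine ⟨fun i => if i = i0 then ⟨_, hmem⟩ else ⟨_, hG0⟩, fun x => ?_⟩
    simp only [hev]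
    rw [Finset.prod_eq_single i0]
    · rw [if_pos rfl]
    · intro i _ hi
      rw [if_neg hi]
      exact (ρ x).top
    · intro h
      exact absurd (Finset.mem_univ _) h
  · intro x l hl
    have h1 : ∑ g, θ g * ((ev x g : ℤ) : ℂ) = ∏ i, D i x := by
      simp only [hD, hθ, hev]
      rw [Finset.prod_univ_sum, Fintype.piFinset_univ]
      apply Finset.sum_congr rfl
      intro g _
      rw [Int.cast_prod, ← Finset.prod_mul_distrib]
      exact Finset.prod_congr rfl (fun i _ => mul_comm _ _)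
    rw [h1, map_prod]
    apply Finset.prod_congr rfl
    intro i _
    obtain ⟨z, hz, hw⟩ := hS.lm i (ρ x) (hρP x) T (hTρ x) hTP
    rw [hw _ (hDcv i x), hS.uniq _ _ _ hz (hl i)]

theorem w_sum' (hna : ∀ x y : ℂ, w (x + y) ≤ max (w x) (w y))
    {G : Type} {C : ℝ} (hC : 0 ≤ C) (s : Finset G) (f : G → ℂ) (hf : ∀ g ∈ s, w (f g) ≤ C) :
    w (∑ g ∈ s, f g) ≤ C := by
  classical
  induction s using Finset.induction_on with
  | empty => simpa using hC
  | insert a s ha ih =>
    rw [Finset.sum_insert ha]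
    exact (hna _ _).trans (max_le (hf _ (Finset.mem_insert_self _ _))
      (ih (fun g hg => hf g (Finset.mem_insert_of_mem hg))))

theorem w_int' (hna : ∀ x y : ℂ, w (x + y) ≤ max (w x) (w y)) (n : ℤ) : w (n : ℂ) ≤ 1 := by
  have hnat : ∀ m : ℕ, w (m : ℂ) ≤ 1 := by
    intro m
    induction m with
    | zero => simp
    | succ m ih =>
      rw [Nat.cast_succ]
      exact (hna _ _).trans (max_le ih (by simp))
  obtain ⟨m, rfl | rfl⟩ := n.eq_nat_or_neg
  · exact_mod_cast hnat m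
  · push_cast
    rw [map_neg_eq_map]
    exact hnat m

open Classical in
/-- large central values have the group property and the design property -/
theorem good (hray : RayStatement) (hinj : InjStatement) (hS : CVSet CV c w B P) [Nonempty ι]
    (j : ℕ) (hbase : LgCV CV c w ((w 2) ^ (j + 1) * ∏ i, B i) (trivQ F)) :
    Good P j (LgCV CV c w ((w 2) ^ (j + 1) * ∏ i, B i)) := by
  have hw2 : 0 < w 2 := by
    rw [AbsoluteValue.pos_iff]; norm_num
  constructor
  · intro V hVne hVP hVcl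
    obtain ⟨G, hG, θ, ev, hB, hθB, hev1, hev2, hev3⟩ := key hray hS
      (X := Option ↥V) (fun o => o.elim (trivQ F) Subtype.val) (by
        rintro (_ | χ)
        · simp [trivQ]
        · exact hVP χ.1 χ.2)
    have hLg : ∀ χ : ↥V, (w 2) ^ (j + 1) * ∏ i, B i < w (∑ g, θ g * (ev (some χ) g : ℂ)) →
        LgCV CV c w ((w 2) ^ (j + 1) * ∏ i, B i) χ.1 := by
      intro χ h
      choose l hl _ using fun i => hS.lm i χ.1 (hVP χ.1 χ.2) χ.1.T (Finset.Subset.refl _)
        (hVP χ.1 χ.2)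
      refine ⟨l, hl, ?_⟩
      rw [← hev3 (some χ) l hl]
      exact h
    have hreal : ∀ g, ∃ a : Ideal (𝓞 F), a ≠ ⊥ ∧ (∀ χ : ↥V, Cop χ.1.T a) ∧
        (∀ χ : ↥V, ev (some χ) g = χ.1.chi a) ∧ ev none g = 1 := by
      intro g
      obtain ⟨a, ha, haT, hag⟩ := hev1 g
      refine ⟨a, ha, fun χ => haT (some χ), fun χ => hag (some χ), ?_⟩
      rw [hag none]
      simp [trivQ, ha]
    have hpm : ∀ (χ : ↥V) g, ev (some χ) g = 1 ∨ ev (some χ) g = -1 := by
      intro χ g
      obtain ⟨a, ha, haT, hag, _⟩ := hreal g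
      rw [hag χ]
      exact χ.1.val a ha (haT χ)
    have hinj' : Function.Injective (fun χ : ↥V => ev (some χ)) := by
      intro χ ψ h
      apply Subtype.ext
      apply hinj F χ.1 ψ.1 (V.biUnion (fun χ => χ.T))
      intro a ha haT _ _
      obtain ⟨g, hg⟩ := hev2 a ha (by
        rintro (_ | χ)
        · intro v hv
          simp [trivQ] at hv
        · intro v hv
          exact haT v (Finset.mem_biUnion.2 ⟨χ.1, χ.2, hv⟩))
      have h1 := hg (some χ)
      have h2 := hg (some ψ)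
      simp only [Option.elim_some] at h1 h2
      rw [← h1, ← h2]
      exact congrFun h g
    set V' : Finset (G → ℤ) := Finset.univ.image (fun χ : ↥V => ev (some χ)) with hV'
    have hcardV' : V'.card = V.card := by
      rw [hV', Finset.card_image_of_injective _ hinj', Finset.card_univ, Fintype.card_coe]
    have key2 := rm G w hS.na hS.two (∏ i, B i) j θ hθB V' (by
        intro x hx g
        obtain ⟨χ, _, rfl⟩ := Finset.mem_image.1 hx
        exact hpm χ g) (by
        intro x hx y hy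
        obtain ⟨χ, _, rfl⟩ := Finset.mem_image.1 hx
        obtain ⟨ψ, _, rfl⟩ := Finset.mem_image.1 hy
        obtain ⟨ρ, hρ, hρe⟩ := hVcl χ.1 χ.2 ψ.1 ψ.2
        apply Finset.mem_image.2
        refine ⟨⟨ρ, hρ⟩, Finset.mem_univ _, ?_⟩
        funext g
        obtain ⟨a, ha, haT, hag, _⟩ := hreal g
        have nz : ∀ χ : ↥V, χ.1.chi a ≠ 0 := by
          intro χ
          rcases χ.1.val a ha (haT χ) with h | h <;> rw [h] <;> norm_num
        simp only [Pi.mul_apply]
        rw [hag, hag, hag]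
        exact hρe a (nz χ) (nz ψ)) (by
        obtain ⟨χ, hχ⟩ := hVne
        obtain ⟨ρ, hρ, hρχ⟩ := hVcl χ hχ χ hχ
        refine ⟨ev (some ⟨ρ, hρ⟩), Finset.mem_image.2 ⟨⟨ρ, hρ⟩, Finset.mem_univ _, rfl⟩, ?_⟩
        have h1 : ev (some ⟨ρ, hρ⟩) = ev none := by
          funext g
          obtain ⟨a, ha, haT, hag, h0⟩ := hreal g
          rw [hag ⟨ρ, hρ⟩, h0]
          have h2 := χ.val a ha (haT ⟨χ, hχ⟩)
          have h3 : χ.chi a ≠ 0 := by rcases h2 with h | h <;> rw [h] <;> norm_num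
          show ρ.chi a = 1
          rw [hρχ a h3 h3]
          rcases h2 with h | h <;> rw [h] <;> norm_num
        obtain ⟨l, hl, hlb⟩ := hbase
        rw [h1, hev3 none l hl]
        exact hlb)
    rw [hcardV'] at key2
    refine key2.trans (Nat.mul_le_mul_left _ ?_)
    have h8 : (V'.filter (fun x => (w 2) ^ (j + 1) * (∏ i, B i) < w (∑ g, θ g * (x g : ℂ)))) ⊆
        (Finset.univ.filter (fun χ : ↥V =>
          LgCV CV c w ((w 2) ^ (j + 1) * ∏ i, B i) χ.1)).image (fun χ : ↥V => ev (some χ)) := by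
      intro x hx
      rw [Finset.mem_filter] at hx
      obtain ⟨χ, _, rfl⟩ := Finset.mem_image.1 hx.1
      apply Finset.mem_image.2
      exact ⟨χ, Finset.mem_filter.2 ⟨Finset.mem_univ _, hLg χ hx.2⟩, rfl⟩
    refine (Finset.card_le_card h8).trans (Finset.card_image_le.trans ?_)
    apply Finset.card_le_card_of_injOn (fun χ : ↥V => χ.1)
    · intro χ hχ
      have := Finset.mem_filter.1 (Finset.mem_coe.1 hχ)
      exact Finset.mem_coe.2 (Finset.mem_filter.2 ⟨χ.2, this.2⟩)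
    · intro a _ b _ h
      exact Subtype.ext h
  · intro X _ x0 ρ hρP hdiv hx0
    obtain ⟨G, hG, θ, ev, hB, hθB, hev1, hev2, hev3⟩ := key hray hS ρ hρP
    have hBB : 0 ≤ ∏ i, B i := Finset.prod_nonneg (fun i _ => hB i)
    by_contra hcon
    push Not at hcon
    have hsmall : ∀ x, x ≠ x0 →
        w (∑ g, θ g * (ev x g : ℂ)) ≤ (w 2) ^ (j + 1) * ∏ i, B i := by
      intro x hx
      choose l hl _ using fun i => hS.lm i (ρ x) (hρP x) (ρ x).T (Finset.Subset.refl _) (hρP x)
      by_contra h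
      push Not at h
      apply hcon x hx
      refine ⟨l, hl, ?_⟩
      rw [← hev3 x l hl]
      exact h
    have hsum : w (∑ x, ∑ g, θ g * (ev x g : ℂ)) ≤ (w 2) ^ (j + 1) * ∏ i, B i := by
      rw [Finset.sum_comm]
      apply w_sum' hS.na (mul_nonneg (pow_nonneg hw2.le _) hBB)
      intro g _
      obtain ⟨a, ha, haT, hag⟩ := hev1 g
      obtain ⟨m, hm⟩ := hdiv a (by
        intro x
        rcases (ρ x).val a ha (haT x) with h | h <;> rw [h] <;> norm_num)
      have h1 : ∑ x, θ g * (ev x g : ℂ) = (2 : ℂ) ^ (j + 1) * ((m : ℂ) * θ g) := by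
        rw [← Finset.mul_sum]
        have h2 : (∑ x, ((ev x g : ℤ) : ℂ)) = (2 : ℂ) ^ (j + 1) * m := by
          rw [Finset.sum_congr rfl (fun x _ => by rw [hag x])]
          have := congrArg (fun z : ℤ => (z : ℂ)) hm
          simp only [Int.cast_sum, Int.cast_mul, Int.cast_pow, Int.cast_ofNat] at this
          exact this
        rw [h2]; ring
      rw [h1, map_mul, map_pow]
      apply mul_le_mul_of_nonneg_left _ (pow_nonneg hw2.le _)
      rw [map_mul]
      calc w (m : ℂ) * w (θ g) ≤ 1 * ∏ i, B i :=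
            mul_le_mul (w_int' hS.na m) (hθB g) (w.nonneg _) zero_le_one
        _ = ∏ i, B i := one_mul _
    have h3 : w (∑ g, θ g * (ev x0 g : ℂ)) ≤ (w 2) ^ (j + 1) * ∏ i, B i := by
      have h4 : ∑ g, θ g * (ev x0 g : ℂ) = (∑ x, ∑ g, θ g * (ev x g : ℂ)) +
          (- ∑ x ∈ Finset.univ.erase x0, ∑ g, θ g * (ev x g : ℂ)) := by
        rw [← Finset.add_sum_erase _ _ (Finset.mem_univ x0)]; ring
      rw [h4]
      refine (hS.na _ _).trans (max_le hsum ?_)
      rw [map_neg_eq_map]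
      apply w_sum' hS.na (mul_nonneg (pow_nonneg hw2.le _) hBB)
      intro x hx
      exact hsmall x (Finset.ne_of_mem_erase hx)
    obtain ⟨l, hl, hlb⟩ := hx0
    rw [hev3 x0 l hl] at h3
    linarith

end

end Pool.Agent.Lib.MP_50bb2e_nt.ND
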