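import Pool.Agent.Lib.MP_50bb2e_nt.ND.Iface

/-!
MP_50bb2e_nt, board ND, row CHR: multiplication by characters of prime conductor.
-/

open IsDedekindDomain NumberField Filter Topology

namespace Pool.Agent.Lib.MP_50bb2e_nt.ND

open Pool.Agent.Lib.MP_50bb2e_nt.PP

namespace Chr

variable {F : Type} [Field F] [NumberField F]

theorem prod_pm {ι : Type} (R : Finset ι) (f : ι → ℤ) (h : ∀ v ∈ R, f v = 1 ∨ f v = -1) :
    ∏ v ∈ R, f v = 1 ∨ ∏ v ∈ R, f v = -1 := by
  classical
  induction R using Finset.induction_on with
  | empty => simp
  | insert v s hv ih =>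
    rw [Finset.prod_insert hv]
    have h2 := ih (fun u hu => h u (Finset.mem_insert_of_mem hu))
    rcases h v (Finset.mem_insert_self v s) with h3 | h3 <;> rcases h2 with h4 | h4 <;>
      simp [h3, h4]

theorem one_nmem (v : Pr F) : (1 : 𝓞 F) ∉ v.asIdeal := by
  intro h
  exact v.isPrime.ne_top ((Ideal.eq_top_iff_one _).2 h)

/-- an element congruent to an element prime to `v` is prime to `v` -/
theorem nmem_of_sub {v : Pr F} {α β : 𝓞 F} (hα : α ∉ v.asIdeal) (h : β - α ∈ v.asIdeal) :
    β ∉ v.asIdeal := by
  intro hb
  apply hα
  have := v.asIdeal.sub_mem hb h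
  simpa using this

end Chr

open Chr in
theorem chr (hcrt : CrtStatement) (hray : RayStatement) : ChrStatement := by
  classical
  intro F _ _ P S χ ch R hχ hch hR
  have hT : ∀ v ∈ R, (ch v).T = {v} := fun v hv => (hch v hv).2
  have hdisj : Disjoint χ.T R := by
    rw [Finset.disjoint_left]
    intro v hv hv'
    exact hR v hv' hv
  let ρ : QChar F :=
    { T := χ.T ∪ R
      chi := fun a => χ.chi a * ∏ v ∈ R, (ch v).chi a
      bot := by rw [χ.bot, zero_mul]
      top := by
        rw [χ.top, one_mul]
        exact Finset.prod_eq_one (fun v _ => (ch v).top)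
      mul := by
        intro a b
        rw [χ.mul, mul_mul_mul_comm, ← Finset.prod_mul_distrib]
        congr 1
        exact Finset.prod_congr rfl (fun v _ => (ch v).mul a b)
      val := by
        intro a ha hc
        have h1 : χ.chi a = 1 ∨ χ.chi a = -1 :=
          χ.val a ha (fun v hv => hc v (Finset.mem_union_left _ hv))
        have h2 := prod_pm R (fun v => (ch v).chi a) (by
          intro v hv
          apply (ch v).val a ha
          intro u hu
          rw [hT v hv, Finset.mem_singleton] at hu
          subst hu
          exact hc u (Finset.mem_union_right _ hv))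
        rcases h1 with h1 | h1 <;> rcases h2 with h2 | h2 <;> simp [h1, h2]
      zero := by
        intro a hc
        unfold Cop at hc
        push Not at hc
        obtain ⟨v, hv, hav⟩ := hc
        rcases Finset.mem_union.1 hv with hv | hv
        · rw [χ.zero a (fun h => h v hv hav), zero_mul]
        · rw [Finset.prod_eq_zero hv, mul_zero]
          apply (ch v).zero
          intro h
          exact h v (by rw [hT v hv]; exact Finset.mem_singleton_self v) hav
      ray := by
        intro α hα h
        rw [χ.ray α hα (fun v hv => h v (Finset.mem_union_left _ hv)), one_mul]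
        apply Finset.prod_eq_one
        intro v hv
        apply (ch v).ray α hα
        intro u hu
        rw [hT v hv, Finset.mem_singleton] at hu
        subst hu
        exact h u (Finset.mem_union_right _ hv)
      ram := by
        intro v hv
        -- the local element
        have key : ∀ α : 𝓞 F, α ∉ v.asIdeal → ∃ β : 𝓞 F, β ≠ 0 ∧ β ∉ v.asIdeal ∧
            β - α ∈ v.asIdeal ∧ ∀ u ∈ χ.T ∪ R, u ≠ v → β - 1 ∈ u.asIdeal := by
          intro α hα
          obtain ⟨β, hβ0, hβ⟩ := hcrt F (χ.T ∪ R) (fun u => if u = v then α else 1)
          have hβv : β - α ∈ v.asIdeal := by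
            have := hβ v hv
            rwa [if_pos rfl] at this
          refine ⟨β, hβ0, nmem_of_sub hα hβv, hβv, ?_⟩
          intro u hu huv
          have := hβ u hu
          rwa [if_neg huv] at this
        rcases Finset.mem_union.1 hv with hv1 | hv1
        · obtain ⟨α, hα, hα', hα1⟩ := χ.ram v hv1
          obtain ⟨β, hβ0, hβnv, hβv, hβ⟩ := key α hα
          have hα0 : α ≠ 0 := by
            rintro rfl
            exact hα (Ideal.zero_mem _)
          refine ⟨β, hβnv, hβ, ?_⟩
          have h1 : χ.chi (Ideal.span {β}) = -1 := by
            rw [hray F χ β α hβ0 hα0 (by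
              intro u hu
              by_cases huv : u = v
              · subst huv
                exact ⟨hβnv, hβv⟩
              · have e1 := hβ u (Finset.mem_union_left _ hu) huv
                have e2 := hα' u hu huv
                refine ⟨nmem_of_sub (one_nmem u) e1, ?_⟩
                have := u.asIdeal.sub_mem e1 e2
                have e : β - 1 - (α - 1) = β - α := by ring
                rwa [e] at this)]
            exact hα1
          have h2 : ∏ u ∈ R, (ch u).chi (Ideal.span {β}) = 1 := by
            apply Finset.prod_eq_one
            intro u hu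
            apply (ch u).ray β hβ0
            intro u' hu'
            rw [hT u hu, Finset.mem_singleton] at hu'
            subst hu'
            refine hβ u' (Finset.mem_union_right _ hu) ?_
            rintro rfl
            exact hR _ hu hv1
          rw [h1, h2, mul_one]
        · obtain ⟨α, hα, -, hα1⟩ :=
            (ch v).ram v (by rw [hT v hv1]; exact Finset.mem_singleton_self v)
          obtain ⟨β, hβ0, hβnv, hβv, hβ⟩ := key α hα
          have hα0 : α ≠ 0 := by
            rintro rfl
            exact hα (Ideal.zero_mem _)
          refine ⟨β, hβnv, hβ, ?_⟩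
          have h0 : χ.chi (Ideal.span {β}) = 1 := by
            apply χ.ray β hβ0
            intro u hu
            refine hβ u (Finset.mem_union_left _ hu) ?_
            rintro rfl
            exact hR _ hv1 hu
          have h1 : (ch v).chi (Ideal.span {β}) = -1 := by
            rw [hray F (ch v) β α hβ0 hα0 (by
              intro u hu
              rw [hT v hv1, Finset.mem_singleton] at hu
              subst hu
              exact ⟨hβnv, hβv⟩)]
            exact hα1
          have h2 : ∏ u ∈ R.erase v, (ch u).chi (Ideal.span {β}) = 1 := by
            apply Finset.prod_eq_one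
            intro u hu
            rw [Finset.mem_erase] at hu
            apply (ch u).ray β hβ0
            intro u' hu'
            rw [hT u hu.2, Finset.mem_singleton] at hu'
            subst hu'
            exact hβ u' (Finset.mem_union_right _ hu.2) hu.1
          rw [h0, one_mul, ← Finset.mul_prod_erase R _ hv1, h1, h2, mul_one] }
  have hρT : ρ.T = χ.T ∪ R := rfl
  have hρchi : ∀ a, ρ.chi a = χ.chi a * ∏ v ∈ R, (ch v).chi a := fun a => rfl
  refine ⟨ρ, ⟨?_, ?_⟩, ?_, ?_, hρchi⟩
  · intro v hv
    rw [hρT, Finset.mem_coe, Finset.mem_union] at hv
    rcases hv with hv | hv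
    · exact hχ.1 (Finset.mem_coe.2 hv)
    · refine (hch v hv).1.1 ?_
      rw [hT v hv]
      simp
  · intro v hv
    rw [hρchi, hχ.2 v hv, one_mul]
    apply Finset.prod_eq_one
    intro u hu
    exact (hch u hu).1.2 v hv
  · intro v
    rw [hρT, Finset.mem_union]
  · unfold QChar.cond
    rw [hρT, Finset.prod_union hdisj]

end Pool.Agent.Lib.MP_50bb2e_nt.ND
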