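import Pool.Agent.Lib.MP_50bb2e_nt.ND.Iface

/-!
# Row CNT: counting
-/

namespace Pool.Agent.Lib.MP_50bb2e_nt.ND.Cnt

open Finset

open scoped Classical in
/-- The good functions over `h`. -/
noncomputable def Gs {H : Type} [Fintype H] (m : ℕ → ℕ) (G : (H → ℕ) → (H → ℕ) → Prop)
    (h : H → ℕ) : Finset (H → ℕ) :=
  (Fintype.piFinset fun M => range (m (h M))).filter (fun g => G h g)

open scoped Classical in
theorem mem_Gs {H : Type} [Fintype H] {m : ℕ → ℕ} {G : (H → ℕ) → (H → ℕ) → Prop}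
    {h g : H → ℕ} : g ∈ Gs m G h ↔ (∀ M, g M < m (h M)) ∧ G h g := by
  unfold Gs
  rw [mem_filter, Fintype.mem_piFinset]
  simp

open scoped Classical in
theorem step {Q Ω : Type} [Fintype Q] [Fintype Ω] {A : Ω → Q → Prop} {m : ℕ → ℕ}
    {Gd : (x : Ω) → ({M : Q // A x M} → ℕ) → ({M : Q // A x M} → ℕ) → Prop} {u : Q → ℕ}
    (hpos : ∀ M, 0 < m (u M))
    (hG : ∀ f : Q → ℕ, (∀ M, f M < m (u M)) →
      ∃ x, Gd x (fun M => u M.1) (fun M => f M.1)) :
    (1 : ℝ) ≤ ∑ x : Ω, ((Gs m (Gd x) (fun M => u M.1)).card : ℝ) /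
      ((∏ M : {M : Q // A x M}, m (u M.1) : ℕ) : ℝ) := by
  have h1 : (Fintype.piFinset fun M => range (m (u M))) ⊆
      Finset.univ.biUnion (fun x : Ω => (Fintype.piFinset fun M => range (m (u M))).filter
        (fun f => Gd x (fun M => u M.1) (fun M => f M.1))) := by
    intro f hf
    obtain ⟨x, hx⟩ := hG f (fun M => by simpa using (Fintype.mem_piFinset.1 hf) M)
    simp only [mem_biUnion, mem_univ, true_and, mem_filter]
    exact ⟨x, hf, hx⟩
  have h2 := (card_le_card h1).trans card_biUnion_le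
  have h3 : ∀ x : Ω, ((Fintype.piFinset fun M => range (m (u M))).filter
        (fun f => Gd x (fun M => u M.1) (fun M => f M.1))).card ≤
      (Gs m (Gd x) (fun M => u M.1)).card * ∏ M : {M : Q // ¬ A x M}, m (u M.1) := by
    intro x
    have h4 : ((Gs m (Gd x) (fun M => u M.1)) ×ˢ
        (Fintype.piFinset fun M : {M : Q // ¬ A x M} => range (m (u M.1)))).card =
        (Gs m (Gd x) (fun M => u M.1)).card * ∏ M : {M : Q // ¬ A x M}, m (u M.1) := by
      rw [card_product, Fintype.card_piFinset]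
      simp
    rw [← h4]
    refine card_le_card_of_injOn
      (fun f => ((fun M => f M.1), (fun M => f M.1))) ?_ ?_
    · intro f hf
      have hf' := mem_filter.1 (mem_coe.1 hf)
      have h5 := fun M => mem_range.1 (Fintype.mem_piFinset.1 hf'.1 M)
      refine mem_coe.2 (mem_product.2 ⟨?_, ?_⟩)
      · exact mem_Gs.2 ⟨fun M => h5 M.1, hf'.2⟩
      · exact Fintype.mem_piFinset.2 fun M => mem_range.2 (h5 M.1)
    · intro f _ g _ hfg
      simp only [Prod.mk.injEq] at hfg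
      funext M
      by_cases hM : A x M
      · exact congrFun hfg.1 ⟨M, hM⟩
      · exact congrFun hfg.2 ⟨M, hM⟩
  rw [Fintype.card_piFinset] at h2
  simp only [card_range] at h2
  have hP : (0 : ℝ) < ((∏ M, m (u M) : ℕ) : ℝ) := by
    exact_mod_cast Finset.prod_pos fun M _ => hpos M
  have h6 : ((∏ M, m (u M) : ℕ) : ℝ) ≤ ∑ x : Ω, ((Gs m (Gd x) (fun M => u M.1)).card : ℝ) *
      ((∏ M : {M : Q // ¬ A x M}, m (u M.1) : ℕ) : ℝ) := by
    have h7 := h2.trans (Finset.sum_le_sum fun x _ => h3 x)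
    exact_mod_cast h7
  have h8 : (∑ x : Ω, ((Gs m (Gd x) (fun M => u M.1)).card : ℝ) *
      ((∏ M : {M : Q // ¬ A x M}, m (u M.1) : ℕ) : ℝ)) =
      ((∏ M, m (u M) : ℕ) : ℝ) * ∑ x : Ω, ((Gs m (Gd x) (fun M => u M.1)).card : ℝ) /
      ((∏ M : {M : Q // A x M}, m (u M.1) : ℕ) : ℝ) := by
    rw [Finset.mul_sum]
    refine Finset.sum_congr rfl fun x _ => ?_
    have h9 : (∏ M : {M : Q // A x M}, m (u M.1)) * ∏ M : {M : Q // ¬ A x M}, m (u M.1) =
        ∏ M, m (u M) := Fintype.prod_subtype_mul_prod_subtype (A x) (fun M => m (u M))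
    have h10 : (0 : ℝ) < ((∏ M : {M : Q // A x M}, m (u M.1) : ℕ) : ℝ) := by
      exact_mod_cast Finset.prod_pos fun (M : {M : Q // A x M}) _ => hpos M.1
    rw [← h9]
    push_cast at h10 ⊢
    field_simp
  rw [h8] at h6
  have h11 : ((∏ M, m (u M) : ℕ) : ℝ) * 1 ≤ ((∏ M, m (u M) : ℕ) : ℝ) *
      ∑ x : Ω, ((Gs m (Gd x) (fun M => u M.1)).card : ℝ) /
      ((∏ M : {M : Q // A x M}, m (u M.1) : ℕ) : ℝ) := by
    rw [mul_one]
    exact h6
  exact le_of_mul_le_mul_left h11 hP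

open scoped Classical in
theorem cnt (hL : LatStatement) : CntStatement := by
  intro Q Ω _ _ A k hk hΩ hI a u1 ha
  obtain ⟨C, hC⟩ := hL Q Ω A k hk hΩ hI
  have hn : 0 < Fintype.card Ω := Fintype.card_pos
  refine ⟨(a / 2) ^ k / ((C + 1) * Fintype.card Ω), 2 * u1 + 2, by positivity, ?_⟩
  intro m hm Gd u0 hu0 hG
  obtain ⟨U, hU, hU1, hU2, hU3⟩ := hC u0 (by omega)
  have hu0' : (0 : ℝ) < u0 := by
    have : 0 < u0 := by omega
    exact_mod_cast this
  have hcard : ∀ x, Fintype.card {M : Q // A x M} = k := fun x => by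
    rw [← Nat.card_eq_fintype_card]
    exact hI.card x
  have hmpos : ∀ u ∈ U, ∀ M, (0 : ℝ) < a * 2 ^ (u M) / (u M) ∧
      a * 2 ^ (u M) / (u M) ≤ (m (u M) : ℝ) := by
    intro u hu M
    have h1 := hU2 u hu M
    have h2 : u1 ≤ u M := by omega
    have h3 : (0 : ℝ) < u M := by
      have : 0 < u M := by omega
      exact_mod_cast this
    exact ⟨by positivity, hm _ h2⟩
  -- the restrictions
  obtain ⟨R, hR⟩ : ∃ R : (x : Ω) → (Q → ℕ) → ({M : Q // A x M} → ℕ),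
    R = fun x u M => u M.1 := ⟨_, rfl⟩
  have hRa : ∀ x u M, R x u M = u M.1 := fun x u M => by rw [hR]
  have h1 : ∀ u ∈ U, (1 : ℝ) ≤ ∑ x : Ω, ((Gs m (Gd x) (R x u)).card : ℝ) /
      ((∏ M : {M : Q // A x M}, m (R x u M) : ℕ) : ℝ) := by
    intro u hu
    rw [hR]
    refine step (fun M => ?_) (fun f hf => hG u f (hU2 u hu) hf)
    have := hmpos u hu M
    exact_mod_cast this.1.trans_le this.2
  have h2 : (U.card : ℝ) ≤ ∑ x : Ω, ∑ u ∈ U, ((Gs m (Gd x) (R x u)).card : ℝ) /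
      ((∏ M : {M : Q // A x M}, m (R x u M) : ℕ) : ℝ) := by
    rw [Finset.sum_comm]
    calc (U.card : ℝ) = ∑ u ∈ U, (1 : ℝ) := by simp
      _ ≤ _ := Finset.sum_le_sum h1
  -- sums of the restrictions
  have hsum : ∀ u ∈ U, ∀ x, ∑ M : {M : Q // A x M}, R x u M = k * u0 := by
    intro u hu x
    rw [← hU1 u hu x, ← Finset.sum_filter]
    simp only [hRa]
    exact (Finset.sum_subtype (Finset.univ.filter (A x)) (by simp) u).symm
  have hD : ∀ u ∈ U, ∀ x, (a / (2 * u0)) ^ k * 2 ^ (k * u0) ≤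
      ((∏ M : {M : Q // A x M}, m (R x u M) : ℕ) : ℝ) := by
    intro u hu x
    rw [← hsum u hu x, ← Finset.prod_pow_eq_pow_sum, ← hcard x, ← Finset.card_univ,
      ← Finset.prod_const, ← Finset.prod_mul_distrib]
    push_cast
    refine Finset.prod_le_prod (fun M _ => by positivity) fun M _ => ?_
    rw [hRa]
    have h3 := hmpos u hu M.1
    refine le_trans ?_ h3.2
    have h4 := hU2 u hu M.1
    have h5 : (0 : ℝ) < u M.1 := by
      have : 0 < u M.1 := by omega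
      exact_mod_cast this
    have h6 : ((u M.1 : ℕ) : ℝ) ≤ 2 * u0 := by exact_mod_cast h4.2
    rw [div_mul_eq_mul_div]
    gcongr
  -- fibres
  have hfib : ∀ x, ∀ h : {M : Q // A x M} → ℕ,
      ((U.filter (fun u => R x u = h)).card : ℝ) * (u0 : ℝ) ^ (k - 1) ≤ C * U.card := by
    intro x h
    have h3 := hU3 x (fun M => if hM : A x M then h ⟨M, hM⟩ else 0)
    have h4 : (U.filter (fun u => R x u = h)) ⊆
        (U.filter (fun u => ∀ M, A x M → u M =
          (fun M => if hM : A x M then h ⟨M, hM⟩ else 0) M)) := by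
      intro u hu
      have hu' := mem_filter.1 hu
      refine mem_filter.2 ⟨hu'.1, fun M hM => ?_⟩
      have h5 := congrFun hu'.2 ⟨M, hM⟩
      rw [hRa] at h5
      simp only [dif_pos hM]
      exact h5
    have h5 := Nat.mul_le_mul_right (u0 ^ (k - 1)) (card_le_card h4)
    exact_mod_cast h5.trans h3
  obtain ⟨E, hE⟩ : ∃ E : ℝ, E = (a / (2 * u0)) ^ k * 2 ^ (k * u0) := ⟨_, rfl⟩
  have hE0 : 0 < E := by rw [hE]; positivity
  have hUc : (0 : ℝ) < U.card := by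
    exact_mod_cast card_pos.2 hU
  have h3 : (U.card : ℝ) ≤ (C * U.card / (u0 : ℝ) ^ (k - 1)) / E *
      ∑ x : Ω, ∑ h ∈ U.image (R x), ((Gs m (Gd x) h).card : ℝ) := by
    refine h2.trans ?_
    rw [Finset.mul_sum]
    refine Finset.sum_le_sum fun x _ => ?_
    rw [Finset.sum_comp (f := fun h : {M : Q // A x M} → ℕ => ((Gs m (Gd x) h).card : ℝ) /
      ((∏ M : {M : Q // A x M}, m (h M) : ℕ) : ℝ)) (g := R x), Finset.mul_sum]
    refine Finset.sum_le_sum fun h hh => ?_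
    obtain ⟨u, hu, rfl⟩ := mem_image.1 hh
    rw [nsmul_eq_mul]
    have h4 : ((Gs m (Gd x) (R x u)).card : ℝ) /
        ((∏ M : {M : Q // A x M}, m (R x u M) : ℕ) : ℝ) ≤
        ((Gs m (Gd x) (R x u)).card : ℝ) / E := by
      have := hD u hu x
      rw [← hE] at this
      gcongr
    have h5 : ((U.filter (fun u' => R x u' = R x u)).card : ℝ) ≤
        C * U.card / (u0 : ℝ) ^ (k - 1) := by
      rw [le_div_iff₀ (by positivity)]
      exact hfib x (R x u)
    calc _ ≤ (C * U.card / (u0 : ℝ) ^ (k - 1)) * (((Gs m (Gd x) (R x u)).card : ℝ) / E) := by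
          gcongr
      _ = _ := by ring
  have h4 : (C + 1) * (∑ x : Ω, ∑ h ∈ U.image (R x), ((Gs m (Gd x) h).card : ℝ)) ≥
      (a / 2) ^ k * 2 ^ (k * u0) / u0 := by
    have hS0 : 0 ≤ ∑ x : Ω, ∑ h ∈ U.image (R x), ((Gs m (Gd x) h).card : ℝ) := by positivity
    obtain ⟨S, hS⟩ : ∃ S : ℝ, S = ∑ x : Ω, ∑ h ∈ U.image (R x), ((Gs m (Gd x) h).card : ℝ) :=
      ⟨_, rfl⟩
    rw [← hS] at h3 hS0 ⊢
    have h5 : (1 : ℝ) ≤ C / (u0 : ℝ) ^ (k - 1) / E * S := by
      have h6 : (U.card : ℝ) * 1 ≤ U.card * (C / (u0 : ℝ) ^ (k - 1) / E * S) := by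
        rw [mul_one]
        refine h3.trans (le_of_eq ?_)
        ring
      exact le_of_mul_le_mul_left h6 hUc
    have h6 : (u0 : ℝ) ^ (k - 1) * E ≤ C * S := by
      rw [div_div, div_mul_eq_mul_div, le_div_iff₀ (by positivity), one_mul] at h5
      exact h5
    have h7 : (u0 : ℝ) ^ (k - 1) * E = (a / 2) ^ k * 2 ^ (k * u0) / u0 := by
      rw [hE]
      have h8 : (u0 : ℝ) ^ k = (u0 : ℝ) ^ (k - 1) * u0 := by
        rw [← pow_succ]
        congr 1
        omega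
      rw [show a / (2 * (u0 : ℝ)) = a / 2 / u0 by field_simp, div_pow (a / 2), h8]
      field_simp
    rw [← h7]
    refine h6.trans ?_
    nlinarith
  -- the best x
  have h5 : ∃ x : Ω, (a / 2) ^ k / ((C + 1) * Fintype.card Ω) * 2 ^ (k * u0) / u0 ≤
      ∑ h ∈ U.image (R x), ((Gs m (Gd x) h).card : ℝ) := by
    by_contra hcon
    push Not at hcon
    have h6 : ∑ x : Ω, ∑ h ∈ U.image (R x), ((Gs m (Gd x) h).card : ℝ) <
        ∑ x : Ω, (a / 2) ^ k / ((C + 1) * Fintype.card Ω) * 2 ^ (k * u0) / u0 :=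
      Finset.sum_lt_sum_of_nonempty Finset.univ_nonempty fun x _ => hcon x
    rw [Finset.sum_const, Finset.card_univ, nsmul_eq_mul] at h6
    have hn' : (0 : ℝ) < Fintype.card Ω := by exact_mod_cast hn
    have h7 : (Fintype.card Ω : ℝ) * ((a / 2) ^ k / ((C + 1) * Fintype.card Ω) *
        2 ^ (k * u0) / u0) = (a / 2) ^ k * 2 ^ (k * u0) / u0 / (C + 1) := by
      field_simp
    rw [h7, lt_div_iff₀ (by positivity)] at h6
    linarith
  obtain ⟨x, hx⟩ := h5
  refine ⟨x, hx.trans ?_⟩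
  -- the set
  have hfin : Set.Finite {p : ({M : Q // A x M} → ℕ) × ({M : Q // A x M} → ℕ) |
        (∀ M, u0 ≤ 2 * p.1 M) ∧ (∑ᶠ M, p.1 M) = k * u0 ∧ (∀ M, p.2 M < m (p.1 M)) ∧
        Gd x p.1 p.2} := by
    refine Set.Finite.subset (Finset.finite_toSet
      (((Fintype.piFinset fun _ : {M : Q // A x M} => range (k * u0 + 1)).sigma
        (fun h => Fintype.piFinset fun M => range (m (h M)))).image
        (fun s => (s.1, s.2)))) ?_
    rintro ⟨h, g⟩ ⟨-, hs, hg, -⟩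
    simp only at hs hg
    rw [finsum_eq_sum_of_fintype] at hs
    refine mem_coe.2 (mem_image.2 ⟨⟨h, g⟩, mem_sigma.2 ⟨?_, ?_⟩, rfl⟩)
    · refine Fintype.mem_piFinset.2 fun M => mem_range.2 ?_
      have : h M ≤ ∑ M, h M := Finset.single_le_sum (fun _ _ => Nat.zero_le _) (mem_univ M)
      simp only
      omega
    · exact Fintype.mem_piFinset.2 fun M => mem_range.2 (hg M)
  have hinj : Set.InjOn (fun s : (_ : {M : Q // A x M} → ℕ) × ({M : Q // A x M} → ℕ) =>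
      (s.1, s.2)) ((U.image (R x)).sigma (fun h => Gs m (Gd x) h)) := by
    rintro ⟨h, g⟩ _ ⟨h', g'⟩ _ heq
    simp only [Prod.mk.injEq] at heq
    obtain ⟨rfl, rfl⟩ := heq
    rfl
  have h6 : (((U.image (R x)).sigma (fun h => Gs m (Gd x) h)).image
      (fun s : (_ : {M : Q // A x M} → ℕ) × ({M : Q // A x M} → ℕ) => (s.1, s.2))).card =
      ∑ h ∈ U.image (R x), (Gs m (Gd x) h).card := by
    rw [card_image_of_injOn hinj, card_sigma]
  rw [← Nat.cast_sum, ← h6, ← Set.ncard_coe_finset]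
  refine Nat.cast_le.2 (Set.ncard_le_ncard ?_ hfin)
  rintro ⟨h, g⟩ hp
  obtain ⟨⟨h', g'⟩, hs, heq⟩ := mem_image.1 (mem_coe.1 hp)
  simp only [Prod.mk.injEq] at heq
  obtain ⟨rfl, rfl⟩ := heq
  obtain ⟨hs1, hs2⟩ := mem_sigma.1 hs
  simp only at hs1 hs2
  obtain ⟨u, hu, rfl⟩ := mem_image.1 hs1
  obtain ⟨hs3, hs4⟩ := mem_Gs.1 hs2
  refine ⟨fun M => ?_, ?_, hs3, hs4⟩
  · simp only [hRa]
    exact (hU2 u hu M.1).1
  · rw [finsum_eq_sum_of_fintype]
    exact hsum u hu x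

end Pool.Agent.Lib.MP_50bb2e_nt.ND.Cnt
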