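import Pool.Agent.Lib.MP_50bb2e_nt.ND.Iface

/-!
MP_50bb2e_nt, board ND, row DSG: one step of the quadratic design.
-/

open IsDedekindDomain NumberField Filter Topology

namespace Pool.Agent.Lib.MP_50bb2e_nt.ND

open Pool.Agent.Lib.MP_50bb2e_nt.PP

namespace Dsg

theorem qf_zero_left {t : ℕ} (x : Fin t → ZMod 2) : qf (0 : Fin t → Fin t → ZMod 2) x = 0 := by
  simp [qf]

theorem qf_zero_right {t : ℕ} (M : Fin t → Fin t → ZMod 2) : qf M 0 = 0 := by
  simp [qf]

theorem qf_add {t : ℕ} (M N : Fin t → Fin t → ZMod 2) (x : Fin t → ZMod 2) :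
    qf (M + N) x = qf M x + qf N x := by
  simp [qf, add_mul, Finset.sum_add_distrib]

theorem zm2 (z : ZMod 2) : z = 0 ∨ z = 1 := by
  revert z
  decide

/-- the product of signs is the sign of the quadratic form of the sum of the matrices with
sign `-1` -/
theorem prod_sign {t : ℕ} (s : (Fin t → Fin t → ZMod 2) → ℤ)
    (hs : ∀ M, (∃ x : Fin t → ZMod 2, qf M x = 1) → s M = 1 ∨ s M = -1)
    (A : Finset (Fin t → Fin t → ZMod 2)) (x : Fin t → ZMod 2) :
    ∏ M ∈ A, (if qf M x = 1 then s M else 1) =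
      if qf (∑ M ∈ A, if s M = -1 then M else 0) x = 1 then -1 else 1 := by
  classical
  induction A using Finset.induction_on with
  | empty =>
    rw [Finset.prod_empty, Finset.sum_empty, qf_zero_left, if_neg (by decide)]
  | insert M A hM ih =>
    rw [Finset.prod_insert hM, ih, Finset.sum_insert hM, qf_add]
    set y := qf (∑ M ∈ A, if s M = -1 then M else 0) x
    by_cases h1 : qf M x = 1
    · rw [if_pos h1]
      rcases hs M ⟨x, h1⟩ with h2 | h2
      · have h4 : ¬ ((1 : ℤ) = -1) := by decide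
        rw [h2, if_neg h4, qf_zero_left, zero_add, one_mul]
      · rw [h2, if_pos rfl, h1]
        rcases zm2 y with h3 | h3
        · rw [h3]; decide
        · rw [h3]; decide
    · rw [if_neg h1, one_mul]
      have h3 : qf (if s M = -1 then M else 0) x = 0 := by
        split_ifs
        · exact (zm2 _).resolve_right h1
        · exact qf_zero_left x
      rw [h3, zero_add]

end Dsg

open Classical in
theorem dsg (h1 : QeStatement) (h2 : ChrStatement) : DsgStatement := by
  intro F _ _ P S j Lg hG χ ch hχ hLg p hp hch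
  set R : (Fin (2 * j + 2) → ZMod 2) → Finset (Pr F) :=
    fun x => (Finset.univ.filter (fun M => qf M x = 1)).image p with hR
  have hRmem : ∀ x v, v ∈ R x ↔ ∃ M, qf M x = 1 ∧ v = p M := by
    intro x v
    rw [hR]
    simp only [Finset.mem_image, Finset.mem_filter, Finset.mem_univ, true_and]
    constructor
    · rintro ⟨M, hM, rfl⟩; exact ⟨M, hM, rfl⟩
    · rintro ⟨M, hM, rfl⟩; exact ⟨M, hM, rfl⟩
  have hex : ∀ x, ∃ ρ ∈ Fam P S, (∀ v, v ∈ ρ.T ↔ v ∈ χ.T ∨ v ∈ R x) ∧
      ρ.cond = χ.cond * ∏ v ∈ R x, nm v ∧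
      ∀ a, ρ.chi a = χ.chi a * ∏ v ∈ R x, (ch v).chi a := by
    intro x
    refine h2 F P S χ ch (R x) hχ ?_ ?_
    · intro v hv
      obtain ⟨M, -, rfl⟩ := (hRmem x v).1 hv
      exact ⟨(hch M).1, (hch M).2.1⟩
    · intro v hv
      obtain ⟨M, -, rfl⟩ := (hRmem x v).1 hv
      exact (hch M).2.2
  choose ρ hρF hρT hρc hρ using hex
  have hRprod : ∀ {α : Type} [CommMonoid α] (x) (f : Pr F → α), ∏ v ∈ R x, f v =
      ∏ M ∈ Finset.univ.filter (fun M => qf M x = 1), f (p M) := by
    intro α _ x f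
    rw [hR]
    exact Finset.prod_image (fun M _ N _ h => hp h)
  have hfin : ∀ {α : Type} [CommMonoid α] (x) (f : (Fin (2 * j + 2) → Fin (2 * j + 2) → ZMod 2) → α),
      ∏ᶠ M ∈ {M | qf M x = 1}, f M = ∏ M ∈ Finset.univ.filter (fun M => qf M x = 1), f M := by
    intro α _ x f
    rw [← finprod_mem_coe_finset]
    congr 1
    ext M
    simp
  have h0 : ρ 0 = χ := by
    have hR0 : R 0 = ∅ := by
      ext v
      rw [hRmem]
      constructor
      · rintro ⟨M, hM, -⟩
        rw [Dsg.qf_zero_right] at hM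
        exact absurd hM (by decide)
      · intro h
        exact absurd h (Finset.notMem_empty v)
    apply QChar.ext
    · ext v
      rw [hρT 0 v, hR0]
      simp
    · funext a
      rw [hρ 0 a, hR0, Finset.prod_empty, mul_one]
  obtain ⟨x, hx, hxL⟩ := hG.des (Fin (2 * j + 2) → ZMod 2) 0 ρ (fun x => (hρF x).1) (by
    intro a ha
    set s : (Fin (2 * j + 2) → Fin (2 * j + 2) → ZMod 2) → ℤ := fun M => (ch (p M)).chi a with hs
    have hspm : ∀ M, (∃ x : Fin (2 * j + 2) → ZMod 2, qf M x = 1) → s M = 1 ∨ s M = -1 := by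
      rintro M ⟨x, hx⟩
      have h3 := ha x
      rw [hρ x a] at h3
      have h4 := right_ne_zero_of_mul h3
      rw [Finset.prod_ne_zero_iff] at h4
      have h5 := h4 (p M) ((hRmem x _).2 ⟨M, hx, rfl⟩)
      have hab : a ≠ ⊥ := by
        rintro rfl
        exact h5 (ch (p M)).bot
      by_cases hc : Cop (ch (p M)).T a
      · exact (ch (p M)).val a hab hc
      · exact absurd ((ch (p M)).zero a hc) h5
    have hsum : ∀ x, (ρ x).chi a = χ.chi a *
        (if qf (∑ M, if s M = -1 then M else 0) x = 1 then -1 else 1) := by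
      intro x
      rw [hρ x a, hRprod x, ← Dsg.prod_sign s hspm Finset.univ x, Finset.prod_filter]
    rw [Finset.sum_congr rfl (fun x _ => hsum x), ← Finset.mul_sum]
    exact Dvd.dvd.mul_left (h1 j _) _) (by rw [h0]; exact hLg)
  refine ⟨⟨x, hx⟩, ρ x, hρF x, hxL, ?_, ?_, ?_⟩
  · intro v
    rw [hρT x v, hRmem]
  · rw [hρc x, hRprod x, hfin x]
  · intro a
    rw [hρ x a, hRprod x, hfin x]

end Pool.Agent.Lib.MP_50bb2e_nt.ND
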