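import Pool.Agent.Lib.MP_50bb2e_nt.ND.Good

/-!
MP_50bb2e_nt, board ND, row GOOD: the instance for PP.
-/

open IsDedekindDomain NumberField Filter Topology

namespace Pool.Agent.Lib.MP_50bb2e_nt.ND

open Pool.Agent.Lib.MP_50bb2e_nt.PP

/-- the central value of an absolutely convergent series with entire continuation -/
def CVP {F : Type} [Field F] [NumberField F] (e : Ideal (𝓞 F) → ℂ) (l : ℂ) : Prop :=
  (∀ σ : ℝ, 3 / 2 < σ →
    Summable (fun a : Ideal (𝓞 F) => ‖e a‖ * (Ideal.absNorm a : ℝ) ^ (-σ))) ∧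
  ∃ Z : ℂ → ℂ, Cont e Z ∧ Z 1 = l

section

variable {F : Type} [Field F] [NumberField F]

theorem summ_abs {c e : Ideal (𝓞 F) → ℂ}
    (hc : ∀ σ : ℝ, 3 / 2 < σ →
      Summable (fun a : Ideal (𝓞 F) => ‖c a‖ * (Ideal.absNorm a : ℝ) ^ (-σ)))
    (he : ∀ a, ‖e a‖ ≤ ‖c a‖) : ∀ σ : ℝ, 3 / 2 < σ →
      Summable (fun a : Ideal (𝓞 F) => ‖e a‖ * (Ideal.absNorm a : ℝ) ^ (-σ)) := by
  intro σ hσ
  apply Summable.of_nonneg_of_le _ _ (hc σ hσ)
  · intro a
    exact mul_nonneg (norm_nonneg _) (Real.rpow_nonneg (Nat.cast_nonneg _) _)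
  · intro a
    exact mul_le_mul_of_nonneg_right (he a) (Real.rpow_nonneg (Nat.cast_nonneg _) _)

theorem chi_norm (χ : QChar F) (a : Ideal (𝓞 F)) : ‖((χ.chi a : ℤ) : ℂ)‖ ≤ 1 := by
  by_cases h : χ.chi a = 0
  · rw [h]; simp
  · have ha : a ≠ ⊥ := by
      rintro rfl
      exact h χ.bot
    have hc : Cop χ.T a := by
      by_contra hc
      exact h (χ.zero a hc)
    rcases χ.val a ha hc with h | h <;> rw [h] <;> simp

theorem cvp_lin (T : Type) (s : Finset T) (e : T → Ideal (𝓞 F) → ℂ) (l k : T → ℂ)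
    (h : ∀ t ∈ s, CVP (e t) (l t)) :
    CVP (fun I => ∑ t ∈ s, k t * e t I) (∑ t ∈ s, k t * l t) := by
  classical
  induction s using Finset.induction_on with
  | empty =>
    refine ⟨fun σ _ => ?_, fun _ => 0, ⟨differentiable_const 0, fun s _ => ?_⟩, by simp⟩
    · simp only [Finset.sum_empty, norm_zero, zero_mul]
      exact summable_zero
    · simp
  | insert t s ht ih =>
    obtain ⟨h1, Z1, hZ1, hl1⟩ := h t (Finset.mem_insert_self t s)
    obtain ⟨h2, Z2, hZ2, hl2⟩ := ih (fun u hu => h u (Finset.mem_insert_of_mem hu))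
    refine ⟨fun σ hσ => ?_, fun z => k t * Z1 z + Z2 z,
      ⟨(hZ1.1.const_mul _).add hZ2.1, fun z hz => ?_⟩, ?_⟩
    · have h3 : Summable (fun a : Ideal (𝓞 F) =>
          ‖k t‖ * (‖e t a‖ * (Ideal.absNorm a : ℝ) ^ (-σ)) +
            ‖∑ u ∈ s, k u * e u a‖ * (Ideal.absNorm a : ℝ) ^ (-σ)) :=
        ((h1 σ hσ).mul_left _).add (h2 σ hσ)
      apply Summable.of_nonneg_of_le _ _ h3
      · intro a
        exact mul_nonneg (norm_nonneg _) (Real.rpow_nonneg (Nat.cast_nonneg _) _)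
      · intro a
        simp only [Finset.sum_insert ht]
        rw [← mul_assoc, ← add_mul, ← norm_mul]
        exact mul_le_mul_of_nonneg_right (norm_add_le _ _)
          (Real.rpow_nonneg (Nat.cast_nonneg _) _)
    · simp only [Finset.sum_insert ht]
      have e1 := hZ1.2 z hz
      have e2 := hZ2.2 z hz
      have s1 : Summable (fun a : Ideal (𝓞 F) => e t a * (Ideal.absNorm a : ℂ) ^ (-z)) :=
        summ_of_le h1 (fun a => le_rfl) z hz
      have s2 : Summable (fun a : Ideal (𝓞 F) =>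
          (∑ u ∈ s, k u * e u a) * (Ideal.absNorm a : ℂ) ^ (-z)) :=
        summ_of_le h2 (fun a => le_rfl) z hz
      rw [e1, e2, ← tsum_mul_left, ← (s1.mul_left (k t)).tsum_add s2]
      apply tsum_congr
      intro a
      ring
    · rw [Finset.sum_insert ht, ← hl1, ← hl2]

open Classical in
theorem cvset_pp (hlm : LmainStatement) {ι : Type} [Fintype ι] [Nonempty ι]
    {c : ι → Ideal (𝓞 F) → ℂ} {w : AbsoluteValue ℂ ℝ} {B : ι → ℝ} {P : Set (Pr F)}
    {η : ι → Pr F → ℂ} (hS : ∀ i, Setting (c i) w (B i) P (η i)) : CVSet CVP c w B P := by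
  obtain ⟨i0⟩ : Nonempty ι := inferInstance
  refine ⟨(hS i0).na, (hS i0).two, ?_, fun T s e l k h => cvp_lin T s e l k h, ?_, ?_⟩
  · rintro e l l' ⟨_, Z, hZ, rfl⟩ ⟨_, Z', hZ', rfl⟩
    have := uniq Z Z' hZ.1 hZ'.1 (fun s hs => by rw [hZ.2 s hs, hZ'.2 s hs])
    rw [this]
  · intro i T hT E hE
    obtain ⟨Z, hZ, hw⟩ := (hS i).int T hT E hE
    refine ⟨Z 1, ⟨?_, Z, hZ, rfl⟩, hw⟩
    apply summ_abs (hS i).conv
    intro a
    split_ifs
    · exact le_rfl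
    · simp
  · intro i χ hχ T hT hTP
    obtain ⟨Z, hZ, hw⟩ := hlm F (c i) w (B i) P (η i) (hS i) χ hχ T hT hTP
    refine ⟨Z 1, ⟨?_, Z, hZ, rfl⟩, ?_⟩
    · apply summ_abs (hS i).conv
      intro a
      rw [norm_mul]
      exact mul_le_of_le_one_right (norm_nonneg _) (chi_norm χ a)
    · rintro d ⟨_, D, hD, rfl⟩
      exact hw D hD

end

open Classical in
/-- row GOOD for PP -/
theorem good_pp (hray : RayStatement) (hinj : InjStatement) (hlm : LmainStatement)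
    (F : Type) [Field F] [NumberField F] (ι : Type) [Fintype ι] [Nonempty ι]
    (c : ι → Ideal (𝓞 F) → ℂ) (w : AbsoluteValue ℂ ℝ) (B : ι → ℝ)
    (P : Set (Pr F)) (η : ι → Pr F → ℂ) (j : ℕ) (L : ι → ℂ → ℂ)
    (hS : ∀ i, Setting (c i) w (B i) P (η i)) (hL : ∀ i, Cont (c i) (L i))
    (hbig : (w 2) ^ (j + 1) * ∏ i, B i < ∏ i, w (L i 1)) :
    Good P j (LgCV CVP c w ((w 2) ^ (j + 1) * ∏ i, B i)) ∧
      ∀ χ : QChar F, LgCV CVP c w ((w 2) ^ (j + 1) * ∏ i, B i) χ → ∀ i, NonVan (c i) χ := by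
  obtain ⟨i0⟩ : Nonempty ι := inferInstance
  have hw2 : 0 < w 2 := by
    rw [AbsoluteValue.pos_iff]; norm_num
  have hcv := cvset_pp hlm hS
  have hB : ∀ i, 0 ≤ B i := by
    intro i
    obtain ⟨l, _, hl⟩ := hcv.int i ∅ (by simp) ∅ ⟨by simp, by simp⟩
    exact (w.nonneg _).trans hl
  have hb : 0 ≤ (w 2) ^ (j + 1) * ∏ i, B i :=
    mul_nonneg (pow_nonneg hw2.le _) (Finset.prod_nonneg (fun i _ => hB i))
  refine ⟨good hray hinj hcv j ⟨fun i => L i 1, fun i => ⟨?_, L i, ?_, rfl⟩, hbig⟩, ?_⟩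
  · apply summ_abs (hS i).conv
    intro a
    rw [norm_mul]
    exact mul_le_of_le_one_right (norm_nonneg _) (chi_norm _ a)
  · apply cont_congr (hL i)
    intro a ha
    simp [trivQ, ha]
  · rintro χ ⟨l, hl, hlb⟩ i
    obtain ⟨_, Z, hZ, hZl⟩ := hl i
    refine ⟨Z, hZ, ?_⟩
    intro h0
    rw [h0] at hZl
    have h2 : ∏ i, w (l i) = 0 := Finset.prod_eq_zero (Finset.mem_univ i) (by
      rw [← hZl, map_zero])
    rw [h2] at hlb
    linarith

end Pool.Agent.Lib.MP_50bb2e_nt.ND
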