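import Pool.Agent.Lib.MP_50bb2e_nt.ND.Iface

/-!
MP_50bb2e_nt, board ND, row LAT: many integral points with prescribed sums and small fibres.
-/

namespace Pool.Agent.Lib.MP_50bb2e_nt.ND.Lat

open Classical

variable {Q Ω : Type} [Fintype Q] [Fintype Ω] {A : Ω → Q → Prop} {k : ℕ}

/-- the kernel lattice -/
def Lam (A : Ω → Q → Prop) : Submodule ℤ (Q → ℤ) where
  carrier := {v | ∀ y, ∑ M, (if A y M then v M else 0) = 0}
  add_mem' := by
    intro a b ha hb y
    have h1 := ha y
    have h2 := hb y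
    have : ∑ M, (if A y M then (a + b) M else 0)
        = ∑ M, (if A y M then a M else 0) + ∑ M, (if A y M then b M else 0) := by
      rw [← Finset.sum_add_distrib]
      refine Finset.sum_congr rfl fun M _ => ?_
      split_ifs <;> simp
    rw [this, h1, h2, add_zero]
  zero_mem' := by
    intro y
    simp
  smul_mem' := by
    intro c a ha y
    have h1 := ha y
    have : ∑ M, (if A y M then (c • a) M else 0) = c * ∑ M, (if A y M then a M else 0) := by
      rw [Finset.mul_sum]
      refine Finset.sum_congr rfl fun M _ => ?_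
      split_ifs <;> simp
    rw [this, h1, mul_zero]

omit [Fintype Ω] in
theorem mem_Lam {v : Q → ℤ} : v ∈ Lam A ↔ ∀ y, ∑ M, (if A y M then v M else 0) = 0 := Iff.rfl

omit [Fintype Ω] in
theorem finsum_ite {R : Type} [AddCommMonoid R] (y : Ω) (l : Q → R) :
    (∑ᶠ M ∈ {M | A y M}, l M) = ∑ M, (if A y M then l M else 0) := by
  rw [finsum_eq_sum_of_fintype]
  refine Finset.sum_congr rfl fun M _ => ?_
  by_cases h : A y M
  · rw [if_pos h]
    have : M ∈ {M | A y M} := h
    exact finsum_eq_single (fun _ : M ∈ {M | A y M} => l M) this (fun b hb => (hb rfl).elim)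
  · rw [if_neg h]
    have : IsEmpty (M ∈ {M | A y M}) := ⟨fun hM => h hM⟩
    exact finsum_of_isEmpty _

theorem exists_den (w : Q → ℚ) : ∃ (D : ℕ) (p : Q → ℤ), 1 ≤ D ∧ ∀ M, (p M : ℚ) = D * w M := by
  refine ⟨∏ M, (w M).den, fun M => ((∏ M' ∈ Finset.univ.erase M, (w M').den : ℕ) : ℤ) * (w M).num,
    ?_, ?_⟩
  · exact Nat.one_le_iff_ne_zero.2 (Finset.prod_ne_zero_iff.2 fun M _ => (w M).den_nz)
  · intro M
    rw [← Finset.mul_prod_erase Finset.univ (fun M => (w M).den) (Finset.mem_univ M)]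
    have h := Rat.mul_den_eq_num (w M)
    push_cast
    rw [← h]
    ring

theorem exists_p (h : Inc Q Ω A k) (x : Ω) (v0 : Q → ℤ)
    (hv : ∑ M, (if A x M then v0 M else 0) = 0) :
    ∃ (D : ℕ) (p : Q → ℤ), 1 ≤ D ∧ p ∈ Lam A ∧ ∀ M, A x M → p M = D * v0 M := by
  have hl : ∀ z : Ω, ∃ l : Q → ℚ, z ≠ x → ((∀ M, A x M → l M = 0) ∧
      ∀ y, (∑ M, (if A y M then l M else 0)) = if z = y then 1 else 0) := by
    intro z
    by_cases hz : z ≠ x
    · obtain ⟨l, h1, h2⟩ := h.sep x z hz
      refine ⟨l, fun _ => ⟨h1, fun y => ?_⟩⟩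
      rw [← finsum_ite]
      convert h2 y
    · exact ⟨0, fun h' => (hz h').elim⟩
  choose l hl using hl
  set s : Ω → ℚ := fun z => ∑ M, (if A z M then (v0 M : ℚ) else 0) with hs
  have hsx : s x = 0 := by
    have h1 : ((∑ M, (if A x M then v0 M else 0) : ℤ) : ℚ) = 0 := by rw [hv]; simp
    rw [← h1, hs]
    push_cast
    refine Finset.sum_congr rfl fun M _ => ?_
    split_ifs <;> simp
  set w : Q → ℚ := fun M => v0 M - ∑ z ∈ Finset.univ.erase x, s z * l z M with hw
  obtain ⟨D, p, hD, hp⟩ := exists_den w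
  have hwsum : ∀ y, ∑ M, (if A y M then w M else 0) = 0 := by
    intro y
    have h1 : ∑ M, (if A y M then w M else 0)
        = s y - ∑ z ∈ Finset.univ.erase x, s z * ∑ M, (if A y M then l z M else 0) := by
      have h2 : ∀ M, (if A y M then w M else 0) = (if A y M then (v0 M : ℚ) else 0)
          - ∑ z ∈ Finset.univ.erase x, s z * (if A y M then l z M else 0) := by
        intro M
        split_ifs with hA
        · rfl
        · simp
      rw [Finset.sum_congr rfl fun M _ => h2 M, Finset.sum_sub_distrib, Finset.sum_comm]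
      congr 1
      refine Finset.sum_congr rfl fun z _ => ?_
      rw [Finset.mul_sum]
    rw [h1]
    have h3 : ∀ z ∈ Finset.univ.erase x, s z * ∑ M, (if A y M then l z M else 0)
        = if z = y then s z else 0 := by
      intro z hz
      rw [(hl z (Finset.ne_of_mem_erase hz)).2 y]
      split_ifs <;> simp
    rw [Finset.sum_congr rfl h3, Finset.sum_ite_eq']
    by_cases hy : y = x
    · subst hy
      simp [hsx]
    · rw [if_pos (Finset.mem_erase.2 ⟨hy, Finset.mem_univ _⟩), sub_self]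
  refine ⟨D, p, hD, ?_, ?_⟩
  · rw [mem_Lam]
    intro y
    have h4 : ((∑ M, (if A y M then p M else 0) : ℤ) : ℚ) = D * ∑ M, (if A y M then w M else 0) := by
      push_cast
      rw [Finset.mul_sum]
      refine Finset.sum_congr rfl fun M _ => ?_
      split_ifs
      · exact hp M
      · simp
    rw [hwsum y, mul_zero] at h4
    exact_mod_cast h4
  · intro M hM
    have h5 : w M = v0 M := by
      rw [hw]
      have : ∑ z ∈ Finset.univ.erase x, s z * l z M = 0 := by
        refine Finset.sum_eq_zero fun z hz => ?_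
        rw [(hl z (Finset.ne_of_mem_erase hz)).1 M hM, mul_zero]
      simp only [this, sub_zero]
    have h6 := hp M
    rw [h5] at h6
    exact_mod_cast h6


/-- counting a box -/
theorem card_box (d N a : ℕ) :
    (Fintype.piFinset fun _ : Fin d => Finset.Icc (-((a * N : ℕ) : ℤ)) (((1 + a) * N : ℕ) : ℤ)).card
      = ((1 + 2 * a) * N + 1) ^ d := by
  rw [Fintype.card_piFinset]
  simp only [Int.card_Icc, Finset.prod_const, Finset.card_univ, Fintype.card_fin]
  congr 1
  have : (((1 + a) * N : ℕ) : ℤ) + 1 - (-((a * N : ℕ) : ℤ)) = (((1 + 2 * a) * N + 1 : ℕ) : ℤ) := by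
    push_cast
    ring
  rw [this, Int.toNat_natCast]

/-- the point with coordinates `c` -/
noncomputable def V (b : Module.Basis (Fin (Module.finrank ℤ (Lam A))) ℤ (Lam A))
    (c : Fin (Module.finrank ℤ (Lam A)) → ℤ) : Lam A := ∑ i, c i • b i


omit [Fintype Ω] in
theorem V_apply (b : Module.Basis (Fin (Module.finrank ℤ (Lam A))) ℤ (Lam A))
    (c : Fin (Module.finrank ℤ (Lam A)) → ℤ) (M : Q) :
    (V b c : Q → ℤ) M = ∑ i, c i * (b i : Q → ℤ) M := by
  unfold V
  rw [Submodule.coe_sum, Finset.sum_apply]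
  refine Finset.sum_congr rfl fun i _ => ?_
  simp

omit [Fintype Ω] in
theorem V_inj (b : Module.Basis (Fin (Module.finrank ℤ (Lam A))) ℤ (Lam A))
    {c e : Fin (Module.finrank ℤ (Lam A)) → ℤ} (h : V b c = V b e) : c = e := by
  have h1 : b.equivFun.symm c = b.equivFun.symm e := by
    rw [Module.Basis.equivFun_symm_apply, Module.Basis.equivFun_symm_apply]
    exact h
  exact b.equivFun.symm.injective h1

omit [Fintype Ω] in
theorem V_add (b : Module.Basis (Fin (Module.finrank ℤ (Lam A))) ℤ (Lam A))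
    (c e : Fin (Module.finrank ℤ (Lam A)) → ℤ) : V b (c + e) = V b c + V b e := by
  unfold V
  rw [← Finset.sum_add_distrib]
  refine Finset.sum_congr rfl fun i _ => ?_
  rw [Pi.add_apply, add_smul]

omit [Fintype Ω] in
theorem V_repr (b : Module.Basis (Fin (Module.finrank ℤ (Lam A))) ℤ (Lam A)) (p : Lam A) :
    V b (fun i => b.repr p i) = p := b.sum_repr p

/-- the point of the box -/
noncomputable def pt (b : Module.Basis (Fin (Module.finrank ℤ (Lam A))) ℤ (Lam A)) (u0 : ℕ)
    (c : Fin (Module.finrank ℤ (Lam A)) → ℕ) : Q → ℕ :=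
  fun M => ((u0 : ℤ) + (V b (fun i => (c i : ℤ)) : Q → ℤ) M).toNat

/-- The main counting statement for one point `x`. -/
theorem fibre (h : Inc Q Ω A k) (hk : 1 ≤ k) (x : Ω)
    (b : Module.Basis (Fin (Module.finrank ℤ (Lam A))) ℤ (Lam A)) :
    ∃ a : ℕ, ∀ (N : ℕ) (g : Q → ℤ),
      ((Fintype.piFinset fun _ : Fin (Module.finrank ℤ (Lam A)) => Finset.range (N + 1)).filter
        (fun c => ∀ M, A x M → (V b (fun i => (c i : ℤ)) : Q → ℤ) M = g M)).card
        * (N + 1) ^ (k - 1) ≤ ((1 + 2 * a) * N + 1) ^ Module.finrank ℤ (Lam A) := by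
  have hcard := h.card x
  have hne : Nonempty {M : Q // A x M} := by
    by_contra hcon
    rw [not_nonempty_iff] at hcon
    rw [Nat.card_eq_zero.2 (Or.inl hcon)] at hcard
    omega
  obtain ⟨⟨M0, hM0⟩⟩ := hne
  set J := {M : Q // A x M ∧ M ≠ M0} with hJ
  have hJcard : Fintype.card J = k - 1 := by
    have h1 : Fintype.card {M : Q // A x M} = k := by
      rw [← hcard, Nat.card_eq_fintype_card]
    have h2 : (Finset.univ.filter fun M => A x M ∧ M ≠ M0) = (Finset.univ.filter fun M => A x M).erase M0 := by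
      ext M
      simp only [Finset.mem_filter, Finset.mem_univ, true_and, Finset.mem_erase]
      tauto
    rw [Fintype.card_subtype, h2, Finset.card_erase_of_mem (by simp [hM0]), ← Fintype.card_subtype,
      h1]
  have hp : ∀ M : J, ∃ (D : ℕ) (p : Lam A), 1 ≤ D ∧ ∀ M', A x M' → (p : Q → ℤ) M' =
      D * ((if M' = M.1 then 1 else 0) - (if M' = M0 then 1 else 0)) := by
    intro M
    obtain ⟨D, p, h1, h2, h3⟩ := exists_p h x
      (fun M' => (if M' = M.1 then 1 else 0) - (if M' = M0 then 1 else 0)) (by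
        have h4 : ∀ M' : Q, (if A x M' then (((if M' = M.1 then 1 else 0) : ℤ)
            - (if M' = M0 then 1 else 0)) else 0)
            = (if M' = M.1 then 1 else 0) - (if M' = M0 then 1 else 0) := by
          intro M'
          by_cases hA : A x M'
          · rw [if_pos hA]
          · rw [if_neg hA]
            have e1 : M' ≠ M.1 := by
              rintro rfl
              exact hA M.2.1
            have e2 : M' ≠ M0 := by
              rintro rfl
              exact hA hM0
            rw [if_neg e1, if_neg e2, sub_zero]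
        rw [Finset.sum_congr rfl fun M' _ => h4 M', Finset.sum_sub_distrib]
        simp)
    exact ⟨D, ⟨p, h2⟩, h1, h3⟩
  choose D p hD hp using hp
  set a : ℕ := ∑ M : J, ∑ i, (b.repr (p M) i).natAbs with ha
  refine ⟨a, fun N g => ?_⟩
  set Fc := (Fintype.piFinset fun _ : Fin (Module.finrank ℤ (Lam A)) => Finset.range (N + 1)).filter
        (fun c => ∀ M, A x M → (V b (fun i => (c i : ℤ)) : Q → ℤ) M = g M) with hFc
  set PP := Fintype.piFinset fun _ : J => Finset.range (N + 1) with hPP
  have hPPc : PP.card = (N + 1) ^ (k - 1) := by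
    rw [hPP, Fintype.card_piFinset]
    simp only [Finset.card_range, Finset.prod_const, Finset.card_univ, hJcard]
  set Ψ : (Fin (Module.finrank ℤ (Lam A)) → ℕ) × (J → ℕ) → (Fin (Module.finrank ℤ (Lam A)) → ℤ) :=
    fun q i => (q.1 i : ℤ) + ∑ M : J, (q.2 M : ℤ) * b.repr (p M) i with hΨ
  rw [← hPPc, ← Finset.card_product, ← card_box _ N a]
  refine Finset.card_le_card_of_injOn Ψ ?_ ?_
  · rintro ⟨c, c'⟩ hq
    rw [Finset.mem_coe, Finset.mem_product] at hq
    obtain ⟨hq1, hq2⟩ := hq
    rw [hFc, Finset.mem_filter, Fintype.mem_piFinset] at hq1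
    rw [hPP, Fintype.mem_piFinset] at hq2
    rw [Finset.mem_coe, Fintype.mem_piFinset]
    intro i
    have e1 : c i ≤ N := Nat.lt_succ_iff.1 (Finset.mem_range.1 (hq1.1 i))
    have e2 : |∑ M : J, (c' M : ℤ) * b.repr (p M) i| ≤ ((a * N : ℕ) : ℤ) := by
      calc |∑ M : J, (c' M : ℤ) * b.repr (p M) i|
          ≤ ∑ M : J, |(c' M : ℤ) * b.repr (p M) i| := Finset.abs_sum_le_sum_abs _ _
        _ ≤ ∑ M : J, (N : ℤ) * ((∑ i, (b.repr (p M) i).natAbs : ℕ) : ℤ) := by
            refine Finset.sum_le_sum fun M _ => ?_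
            rw [abs_mul]
            have e3 : |(c' M : ℤ)| ≤ N := by
              rw [abs_of_nonneg (by positivity)]
              exact_mod_cast Nat.lt_succ_iff.1 (Finset.mem_range.1 (hq2 M))
            have e4 : |b.repr (p M) i| ≤ ((∑ i, (b.repr (p M) i).natAbs : ℕ) : ℤ) := by
              rw [Int.abs_eq_natAbs]
              exact_mod_cast Finset.single_le_sum (f := fun i => (b.repr (p M) i).natAbs)
                (fun _ _ => Nat.zero_le _) (Finset.mem_univ i)
            exact mul_le_mul e3 e4 (abs_nonneg _) (by positivity)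
        _ = ((a * N : ℕ) : ℤ) := by
            rw [ha, ← Finset.mul_sum]
            push_cast
            ring
    rw [abs_le] at e2
    rw [Finset.mem_Icc]
    simp only [hΨ]
    constructor
    · have : (0 : ℤ) ≤ c i := by positivity
      linarith [e2.1]
    · have : ((((1 + a) * N : ℕ)) : ℤ) = N + ((a * N : ℕ) : ℤ) := by
        push_cast
        ring
      rw [this]
      have e5 : (c i : ℤ) ≤ N := by exact_mod_cast e1
      linarith [e2.2]
  · rintro ⟨c, c'⟩ hq ⟨e, e'⟩ hr hqr
    rw [Finset.mem_coe, Finset.mem_product] at hq hr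
    obtain ⟨hq1, hq2⟩ := hq
    obtain ⟨hr1, hr2⟩ := hr
    rw [hFc, Finset.mem_filter] at hq1 hr1
    have key : ∀ q : (Fin (Module.finrank ℤ (Lam A)) → ℕ) × (J → ℕ), ∀ M,
        (V b (Ψ q) : Q → ℤ) M = (V b (fun i => (q.1 i : ℤ)) : Q → ℤ) M
          + ∑ M' : J, (q.2 M' : ℤ) * (p M' : Q → ℤ) M := by
      intro q M
      have e0 : ∀ M' : J, (p M' : Q → ℤ) M = ∑ i, b.repr (p M') i * (b i : Q → ℤ) M := by
        intro M'
        rw [← V_apply b (fun i => b.repr (p M') i) M, V_repr]
      have e9 : ∑ M' : J, (q.2 M' : ℤ) * (p M' : Q → ℤ) M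
          = ∑ i, (∑ M' : J, (q.2 M' : ℤ) * b.repr (p M') i) * (b i : Q → ℤ) M := by
        calc ∑ M' : J, (q.2 M' : ℤ) * (p M' : Q → ℤ) M
            = ∑ M' : J, ∑ i, (q.2 M' : ℤ) * (b.repr (p M') i * (b i : Q → ℤ) M) := by
              refine Finset.sum_congr rfl fun M' _ => ?_
              rw [e0 M', Finset.mul_sum]
          _ = ∑ i, ∑ M' : J, (q.2 M' : ℤ) * (b.repr (p M') i * (b i : Q → ℤ) M) :=
              Finset.sum_comm
          _ = _ := by
              refine Finset.sum_congr rfl fun i _ => ?_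
              rw [Finset.sum_mul]
              refine Finset.sum_congr rfl fun M' _ => ?_
              rw [mul_assoc]
      rw [e9, V_apply, V_apply, ← Finset.sum_add_distrib]
      refine Finset.sum_congr rfl fun i _ => ?_
      simp only [hΨ]
      rw [add_mul]
    have hc' : c' = e' := by
      funext M1
      have e1 := key (c, c') M1.1
      have e2 := key (e, e') M1.1
      rw [hqr] at e1
      rw [e1] at e2
      simp only at e2
      rw [hq1.2 M1.1 M1.2.1, hr1.2 M1.1 M1.2.1] at e2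
      have e3 : ∀ (f : J → ℕ), ∑ M' : J, (f M' : ℤ) * (p M' : Q → ℤ) M1.1 = f M1 * D M1 := by
        intro f
        rw [Finset.sum_eq_single M1]
        · rw [hp M1 M1.1 M1.2.1, if_pos rfl, if_neg M1.2.2]
          ring
        · intro M' _ hne
          rw [hp M' M1.1 M1.2.1, if_neg (fun h => hne (Subtype.ext h.symm)), if_neg M1.2.2]
          ring
        · intro h
          exact (h (Finset.mem_univ _)).elim
      rw [e3, e3] at e2
      have e4 : (c' M1 : ℤ) * D M1 = e' M1 * D M1 := by linarith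
      have e5 : (D M1 : ℤ) ≠ 0 := by
        have := hD M1
        positivity
      exact_mod_cast mul_right_cancel₀ e5 e4
    subst hc'
    have hc : c = e := by
      funext i
      have e1 := congrFun hqr i
      simp only [hΨ] at e1
      exact_mod_cast add_right_cancel e1
    rw [hc]

omit [Fintype Ω] in
theorem abs_V_le (b : Module.Basis (Fin (Module.finrank ℤ (Lam A))) ℤ (Lam A)) (N : ℕ)
    (c : Fin (Module.finrank ℤ (Lam A)) → ℕ) (hc : ∀ i, c i ≤ N) (M : Q) :
    |(V b (fun i => (c i : ℤ)) : Q → ℤ) M|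
      ≤ ((N * ∑ i, ∑ M, ((b i : Q → ℤ) M).natAbs : ℕ) : ℤ) := by
  rw [V_apply]
  calc |∑ i, (c i : ℤ) * (b i : Q → ℤ) M| ≤ ∑ i, |(c i : ℤ) * (b i : Q → ℤ) M| :=
        Finset.abs_sum_le_sum_abs _ _
    _ ≤ ∑ i, (N : ℤ) * ((∑ M, ((b i : Q → ℤ) M).natAbs : ℕ) : ℤ) := by
        refine Finset.sum_le_sum fun i _ => ?_
        rw [abs_mul]
        have e3 : |(c i : ℤ)| ≤ N := by
          rw [abs_of_nonneg (by positivity)]
          exact_mod_cast hc i
        have e4 : |(b i : Q → ℤ) M| ≤ ((∑ M, ((b i : Q → ℤ) M).natAbs : ℕ) : ℤ) := by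
          rw [Int.abs_eq_natAbs]
          exact_mod_cast Finset.single_le_sum (f := fun M => ((b i : Q → ℤ) M).natAbs)
            (fun _ _ => Nat.zero_le _) (Finset.mem_univ M)
        exact mul_le_mul e3 e4 (abs_nonneg _) (by positivity)
    _ = _ := by
        rw [← Finset.mul_sum]
        push_cast
        ring

end Pool.Agent.Lib.MP_50bb2e_nt.ND.Lat

namespace Pool.Agent.Lib.MP_50bb2e_nt.ND

open Classical Pool.Agent.Lib.MP_50bb2e_nt.ND.Lat

/-- **Row LAT.** -/
theorem lat : LatStatement := by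
  intro Q Ω _ _ A k hk hΩ h
  set b := Module.finBasis ℤ (Lam A) with hb
  set d := Module.finrank ℤ (Lam A) with hd
  set B : ℕ := (∑ i, ∑ M, ((b i : Q → ℤ) M).natAbs) + 1 with hB
  have hf := fun x => Lat.fibre h hk x b
  choose a ha using hf
  set a' : ℕ := ∑ x, a x with ha'
  refine ⟨(2 * B) ^ (k - 1) * (1 + 2 * a') ^ d, fun u0 hu0 => ?_⟩
  set N : ℕ := u0 / (2 * B) with hN
  set box := Fintype.piFinset fun _ : Fin d => Finset.range (N + 1) with hbox
  have hBpos : 0 < 2 * B := by omega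
  have hNB : N * (2 * B) ≤ u0 := Nat.div_mul_le_self u0 (2 * B)
  have hle : ∀ c ∈ box, ∀ i, c i ≤ N := by
    intro c hc i
    rw [hbox, Fintype.mem_piFinset] at hc
    exact Nat.lt_succ_iff.1 (Finset.mem_range.1 (hc i))
  have hval : ∀ c ∈ box, ∀ M, 2 * |(V b (fun i => (c i : ℤ)) : Q → ℤ) M| ≤ u0 := by
    intro c hc M
    have h1 := abs_V_le b N c (hle c hc) M
    have h2 : N * (∑ i, ∑ M, ((b i : Q → ℤ) M).natAbs) ≤ N * B := Nat.mul_le_mul_left _ (by omega)
    have h3 : ((N * (∑ i, ∑ M, ((b i : Q → ℤ) M).natAbs) : ℕ) : ℤ) ≤ ((N * B : ℕ) : ℤ) := by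
      exact_mod_cast h2
    have h4 : ((N * (2 * B) : ℕ) : ℤ) ≤ u0 := by exact_mod_cast hNB
    push_cast at h3 h4 h1
    linarith
  have hpt : ∀ c ∈ box, ∀ M, (pt b u0 c M : ℤ) = u0 + (V b (fun i => (c i : ℤ)) : Q → ℤ) M := by
    intro c hc M
    unfold pt
    rw [Int.toNat_of_nonneg]
    have h1 := hval c hc M
    have h2 := neg_abs_le ((V b (fun i => (c i : ℤ)) : Q → ℤ) M)
    have h3 : (0 : ℤ) ≤ u0 := by positivity
    linarith
  have hinj : Set.InjOn (pt b u0) (box : Set (Fin d → ℕ)) := by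
    intro c hc e he hce
    have h1 : V b (fun i => (c i : ℤ)) = V b (fun i => (e i : ℤ)) := by
      apply Subtype.ext
      funext M
      have h2 := hpt c hc M
      have h3 := hpt e he M
      rw [hce, h3] at h2
      linarith
    have h2 := V_inj b h1
    funext i
    have h3 : (c i : ℤ) = e i := congrFun h2 i
    exact_mod_cast h3
  have hcardbox : box.card = (N + 1) ^ d := by
    rw [hbox, Fintype.card_piFinset]
    simp only [Finset.card_range, Finset.prod_const, Finset.card_univ, Fintype.card_fin]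
  have hcard : (box.image (pt b u0)).card = (N + 1) ^ d := by
    rw [Finset.card_image_of_injOn hinj, hcardbox]
  refine ⟨box.image (pt b u0), ?_, ?_, ?_, ?_⟩
  · rw [← Finset.card_pos, hcard]
    positivity
  · intro u hu y
    obtain ⟨c, hc, rfl⟩ := Finset.mem_image.1 hu
    have h1 : ((∑ M : Q, (if A y M then pt b u0 c M else 0) : ℕ) : ℤ)
        = ∑ M : Q, (if A y M then (u0 : ℤ) else 0)
          + ∑ M : Q, (if A y M then (V b (fun i => (c i : ℤ)) : Q → ℤ) M else 0) := by
      rw [← Finset.sum_add_distrib]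
      push_cast
      refine Finset.sum_congr rfl fun M _ => ?_
      split_ifs
      · exact hpt c hc M
      · simp
    have h2 : ∑ M : Q, (if A y M then (V b (fun i => (c i : ℤ)) : Q → ℤ) M else 0) = 0 :=
      mem_Lam.1 (V b (fun i => (c i : ℤ))).2 y
    have h3 : ∑ M : Q, (if A y M then (u0 : ℤ) else 0) = k * u0 := by
      rw [← Finset.sum_filter, Finset.sum_const, nsmul_eq_mul]
      congr 2
      rw [← h.card y, Nat.card_eq_fintype_card, Fintype.card_subtype]
    rw [h2, h3, add_zero] at h1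
    exact_mod_cast h1
  · intro u hu M
    obtain ⟨c, hc, rfl⟩ := Finset.mem_image.1 hu
    have h1 := hpt c hc M
    have h2 := hval c hc M
    have h3 := neg_abs_le ((V b (fun i => (c i : ℤ)) : Q → ℤ) M)
    have h4 := le_abs_self ((V b (fun i => (c i : ℤ)) : Q → ℤ) M)
    constructor
    · have : (u0 : ℤ) ≤ 2 * (pt b u0 c M : ℤ) := by linarith
      exact_mod_cast this
    · have : (pt b u0 c M : ℤ) ≤ 2 * u0 := by linarith
      exact_mod_cast this
  · intro x g
    have h1 : ((box.image (pt b u0)).filter (fun u => ∀ M, A x M → u M = g M)).card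
        ≤ (box.filter (fun c => ∀ M, A x M →
          (V b (fun i => (c i : ℤ)) : Q → ℤ) M = (g M : ℤ) - u0)).card := by
      rw [Finset.filter_image]
      refine Finset.card_image_le.trans (Finset.card_le_card ?_)
      intro c hc
      rw [Finset.mem_filter] at hc ⊢
      refine ⟨hc.1, fun M hM => ?_⟩
      have h2 := hpt c hc.1 M
      rw [hc.2 M hM] at h2
      linarith
    have h2 := ha x N (fun M => (g M : ℤ) - u0)
    have h3 : u0 ≤ 2 * B * (N + 1) := (Nat.lt_mul_div_succ u0 hBpos).le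
    have h4 : u0 ^ (k - 1) ≤ (2 * B) ^ (k - 1) * (N + 1) ^ (k - 1) := by
      rw [← mul_pow]
      exact Nat.pow_le_pow_left h3 _
    have h5 : a x ≤ a' := Finset.single_le_sum (f := a) (fun _ _ => Nat.zero_le _) (Finset.mem_univ x)
    have h6 : ((1 + 2 * a x) * N + 1) ^ d ≤ (1 + 2 * a') ^ d * (N + 1) ^ d := by
      rw [← mul_pow]
      refine Nat.pow_le_pow_left ?_ _
      nlinarith
    rw [hcard]
    calc ((box.image (pt b u0)).filter (fun u => ∀ M, A x M → u M = g M)).card * u0 ^ (k - 1)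
        ≤ (box.filter (fun c => ∀ M, A x M →
          (V b (fun i => (c i : ℤ)) : Q → ℤ) M = (g M : ℤ) - u0)).card
            * ((2 * B) ^ (k - 1) * (N + 1) ^ (k - 1)) := Nat.mul_le_mul h1 h4
      _ = (2 * B) ^ (k - 1) * ((box.filter (fun c => ∀ M, A x M →
          (V b (fun i => (c i : ℤ)) : Q → ℤ) M = (g M : ℤ) - u0)).card * (N + 1) ^ (k - 1)) := by
          ring
      _ ≤ (2 * B) ^ (k - 1) * ((1 + 2 * a x) * N + 1) ^ d := Nat.mul_le_mul_left _ h2
      _ ≤ (2 * B) ^ (k - 1) * ((1 + 2 * a') ^ d * (N + 1) ^ d) := Nat.mul_le_mul_left _ h6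
      _ = _ := by ring

end Pool.Agent.Lib.MP_50bb2e_nt.ND
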