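import Pool.Agent.Lib.MP_50bb2e_nt.ND.Iface
import Pool.Agent.Lib.MP_50bb2e_nt.PP.Asm

/-!
MP_50bb2e_nt, board ND, row LD: lower bound for the large characters with small conductor.
-/

set_option autoImplicit false

open IsDedekindDomain NumberField

namespace Pool.Agent.Lib.MP_50bb2e_nt.ND

open Pool.Agent.Lib.MP_50bb2e_nt.PP

open Classical in
/-- The trivial character is large. -/
theorem large_triv {F : Type} [Field F] [NumberField F] {P : Set (Pr F)} {j : ℕ}
    {Lg : QChar F → Prop} (hG : Good P j Lg) : Lg (trivQ F) := by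
  have h1 := hG.grp {trivQ F} ⟨trivQ F, Finset.mem_singleton_self _⟩ (by
    intro χ hχ
    rw [Finset.mem_singleton.1 hχ]
    simp [trivQ]) (by
    intro χ hχ ψ hψ
    rw [Finset.coe_singleton, Set.mem_singleton_iff] at hχ hψ
    refine ⟨trivQ F, by simp, ?_⟩
    intro a ha _
    rw [hχ] at ha ⊢
    rw [hψ]
    rcases eq_or_ne a ⊥ with h | h
    · exact absurd (by rw [h]; exact (trivQ F).bot) ha
    · have : (trivQ F).chi a = 1 := by simp [trivQ, h]
      rw [this, mul_one])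
  rw [Finset.card_singleton] at h1
  by_contra h
  rw [Finset.filter_singleton, if_neg h, Finset.card_empty, mul_zero] at h1
  exact absurd h1 (by norm_num)

theorem cond_triv (F : Type) [Field F] [NumberField F] : (trivQ F).cond = 1 := by
  unfold QChar.cond
  simp [trivQ]

open Classical in
theorem ld (h1 : LdaStatement) (h2 : LdbStatement) (h3 : LdcStatement) (h4 : MerStatement)
    (h5 : NtStatement) : LdStatement := by
  intro F _ _ P S j Lg hG hodd hS
  obtain ⟨c1, hc1, hA⟩ := h1 F P S hodd hS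
  set δ : ℝ := c1 / (2 * 2 ^ j) with hδ
  have hδ0 : 0 < δ := by rw [hδ]; positivity
  obtain ⟨K, hK, hC⟩ := h3 F δ hδ0
  have hK0 : 0 < K := by linarith
  obtain ⟨C, hC0, hM⟩ := h4 F (1 / K) (by positivity)
  obtain ⟨hfin, -⟩ := h5 F
  set B : Finset (Pr F) := (hfin ((2 : ℝ) ^ K)).toFinset with hB
  set D : ℝ := ∏ v ∈ B, (1 + 1 / (nm v : ℝ)) with hD
  have hone : ∀ v : Pr F, (1 : ℝ) ≤ 1 + 1 / (nm v : ℝ) := by
    intro v
    have : (0 : ℝ) ≤ 1 / (nm v : ℝ) := by positivity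
    linarith
  have hD1 : 0 < D := by
    rw [hD]
    exact Finset.prod_pos fun v _ => by linarith [hone v]
  refine ⟨min (δ / C) (1 / D), lt_min (by positivity) (by positivity), ?_⟩
  intro Y hY A hAP
  have hprod0 : ∀ E : Finset (Pr F), 0 < ∏ v ∈ E, (1 + 1 / (nm v : ℝ)) := fun E =>
    Finset.prod_pos fun v _ => by linarith [hone v]
  by_cases hYK : Y < (2 : ℝ) ^ K
  · refine ⟨{trivQ F}, ?_, ?_⟩
    · intro χ hχ
      rw [Finset.mem_singleton.1 hχ, cond_triv]
      exact ⟨triv_mem P S, large_triv hG, by simpa using hY⟩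
    · rw [Finset.sum_singleton, cond_triv, Nat.cast_one, div_one]
      have h6 : ∏ v ∈ A, (1 + 1 / (nm v : ℝ)) ≤ D := by
        rw [hD]
        have hsub : A ⊆ B := by
          intro v hv
          rw [hB, Set.Finite.mem_toFinset]
          exact (hAP v hv).2.trans hYK.le
        rw [← Finset.prod_sdiff hsub]
        have h7 : (1 : ℝ) ≤ ∏ v ∈ B \ A, (1 + 1 / (nm v : ℝ)) := by
          calc (1 : ℝ) = ∏ _v ∈ B \ A, (1 : ℝ) := by rw [Finset.prod_const_one]
            _ ≤ _ := Finset.prod_le_prod (fun _ _ => zero_le_one) (fun v _ => hone v)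
        exact le_mul_of_one_le_left (hprod0 A).le h7
      calc min (δ / C) (1 / D) * ∏ v ∈ A, (1 + 1 / (nm v : ℝ)) ≤ (1 / D) * D :=
            mul_le_mul (min_le_right _ _) h6 (hprod0 A).le (by positivity)
        _ = 1 := by field_simp
  · rw [not_lt] at hYK
    have hY2 : 2 ≤ Y := by
      calc (2 : ℝ) = (2 : ℝ) ^ (1 : ℝ) := (Real.rpow_one 2).symm
        _ ≤ (2 : ℝ) ^ K := Real.rpow_le_rpow_of_exponent_le (by norm_num) hK
        _ ≤ Y := hYK
    set z : ℝ := Y ^ (1 / K) with hz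
    have hzK : z ^ K = Y := by
      rw [hz, ← Real.rpow_mul (by linarith), one_div, inv_mul_cancel₀ hK0.ne', Real.rpow_one]
    have hz2 : 2 ≤ z := by
      calc (2 : ℝ) = ((2 : ℝ) ^ K) ^ (1 / K) := by
            rw [← Real.rpow_mul (by norm_num), one_div, mul_inv_cancel₀ hK0.ne', Real.rpow_one]
        _ ≤ z := Real.rpow_le_rpow (by positivity) hYK (by positivity)
    set Az := A.filter (fun v => (nm v : ℝ) ≤ z) with hAz
    obtain ⟨Φ0, hΦ0, hs0⟩ := hA Az (by
      intro v hv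
      rw [hAz, Finset.mem_coe, Finset.mem_filter] at hv
      exact (hAP v hv.1).1)
    obtain ⟨Φ1, hΦ1, hs1⟩ := h2 F P S j Lg hG Az Φ0 hΦ0
    have hs2 := hC z hz2 Az (by
      intro v hv
      rw [hAz, Finset.mem_filter] at hv
      exact hv.2) (Φ1.filter fun χ => z ^ K < (χ.cond : ℝ)) (by
      intro χ hχ
      rw [Finset.mem_filter] at hχ
      exact ⟨(hΦ1 χ hχ.1).2.2, hχ.2⟩)
    refine ⟨Φ1.filter fun χ => ¬ z ^ K < (χ.cond : ℝ), ?_, ?_⟩
    · intro χ hχ
      rw [Finset.mem_filter, not_lt, hzK] at hχ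
      exact ⟨(hΦ1 χ hχ.1).1, (hΦ1 χ hχ.1).2.1, hχ.2⟩
    · have e1 := Finset.sum_filter_add_sum_filter_not Φ1 (fun χ => z ^ K < (χ.cond : ℝ))
        (fun χ => 1 / (χ.cond : ℝ))
      have h7 : δ * ∏ v ∈ Az, (1 + 1 / (nm v : ℝ)) ≤
          ∑ χ ∈ Φ1.filter (fun χ => ¬ z ^ K < (χ.cond : ℝ)), 1 / (χ.cond : ℝ) := by
        have h8 : 2 * δ * ∏ v ∈ Az, (1 + 1 / (nm v : ℝ)) ≤ ∑ χ ∈ Φ1, 1 / (χ.cond : ℝ) := by
          have h9 := hs0.trans hs1
          have e2 : 2 * δ = c1 / 2 ^ j := by rw [hδ]; field_simp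
          rw [e2, div_mul_eq_mul_div, div_le_iff₀ (by positivity)]
          linarith
        linarith
      have h10 : ∏ v ∈ A, (1 + 1 / (nm v : ℝ)) ≤ (∏ v ∈ Az, (1 + 1 / (nm v : ℝ))) * C := by
        rw [← Finset.prod_filter_mul_prod_filter_not A (fun v => (nm v : ℝ) ≤ z)]
        refine mul_le_mul_of_nonneg_left ?_ (hprod0 Az).le
        refine hM Y hY2 _ ?_
        intro v hv
        rw [Finset.mem_filter, not_le] at hv
        exact ⟨hv.2, (hAP v hv.1).2⟩
      calc min (δ / C) (1 / D) * ∏ v ∈ A, (1 + 1 / (nm v : ℝ))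
          ≤ (δ / C) * ((∏ v ∈ Az, (1 + 1 / (nm v : ℝ))) * C) :=
            mul_le_mul (min_le_left _ _) h10 (hprod0 A).le (by positivity)
        _ = δ * ∏ v ∈ Az, (1 + 1 / (nm v : ℝ)) := by field_simp
        _ ≤ _ := h7

end Pool.Agent.Lib.MP_50bb2e_nt.ND
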