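import Pool.Agent.Lib.MP_50bb2e_nt.ND.Iface

/-!
Board ND, row LDA: lower bound for the log-sum of the whole family (Selmer group).
-/

open IsDedekindDomain NumberField Filter Topology

namespace Pool.Agent.Lib.MP_50bb2e_nt.ND

open Pool.Agent.Lib.MP_50bb2e_nt.PP

namespace LdaRow

/-- orthogonality: the subsets `T` of `A'` with `prod_(v in T) q v a = 1` for all `a` in `A0` -/
theorem key {V K : Type} [DecidableEq V] [DecidableEq K] (A' : Finset V) (A0 : Finset K)
    (q : V → K → ℤ) (hq : ∀ v a, q v a = 1 ∨ q v a = -1) (x : V → ℝ)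
    (hx : ∀ v ∈ A', 0 ≤ x v ∧ x v ≤ 1) :
    (1 / 2 : ℝ) ^ A0.card * ∏ v ∈ A', (1 + x v) ≤
      ∑ T ∈ A'.powerset.filter (fun T => ∀ a ∈ A0, ∏ v ∈ T, q v a = 1), ∏ v ∈ T, x v := by
  have hpm : ∀ (T : Finset V) (a : K), ∏ v ∈ T, q v a = 1 ∨ ∏ v ∈ T, q v a = -1 := by
    intro T a
    induction T using Finset.induction_on with
    | empty => exact Or.inl rfl
    | insert v T hv ih =>
      rw [Finset.prod_insert hv]
      rcases hq v a with h | h <;> rcases ih with h' | h' <;> rw [h, h'] <;> norm_num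
  have hpm' : ∀ (D : Finset K) (v : V), ∏ a ∈ D, q v a = 1 ∨ ∏ a ∈ D, q v a = -1 := by
    intro D v
    induction D using Finset.induction_on with
    | empty => exact Or.inl rfl
    | insert a D ha ih =>
      rw [Finset.prod_insert ha]
      rcases hq v a with h | h <;> rcases ih with h' | h' <;> rw [h, h'] <;> norm_num
  have hind : ∀ T : Finset V, (if ∀ a ∈ A0, ∏ v ∈ T, q v a = 1 then (1 : ℝ) else 0) =
      (1 / 2 : ℝ) ^ A0.card * ∏ a ∈ A0, (1 + ((∏ v ∈ T, q v a : ℤ) : ℝ)) := by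
    intro T
    have h1 : (1 / 2 : ℝ) ^ A0.card * ∏ a ∈ A0, (1 + ((∏ v ∈ T, q v a : ℤ) : ℝ)) =
        ∏ a ∈ A0, ((1 / 2) * (1 + ((∏ v ∈ T, q v a : ℤ) : ℝ))) := by
      rw [Finset.prod_mul_distrib, Finset.prod_const]
    rw [h1]
    split_ifs with h
    · symm
      apply Finset.prod_eq_one
      intro a ha
      rw [h a ha]
      norm_num
    · push Not at h
      obtain ⟨a, ha, hne⟩ := h
      symm
      apply Finset.prod_eq_zero ha
      rcases hpm T a with h2 | h2
      · exact absurd h2 hne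
      · rw [h2]
        norm_num
  have hR : ∑ T ∈ A'.powerset.filter (fun T => ∀ a ∈ A0, ∏ v ∈ T, q v a = 1), ∏ v ∈ T, x v =
      (1 / 2 : ℝ) ^ A0.card * ∑ D ∈ A0.powerset, ∏ v ∈ A',
        (1 + x v * ((∏ a ∈ D, q v a : ℤ) : ℝ)) := by
    rw [Finset.sum_filter]
    have h2 : ∀ T ∈ A'.powerset, (if ∀ a ∈ A0, ∏ v ∈ T, q v a = 1 then ∏ v ∈ T, x v else 0) =
        ∑ D ∈ A0.powerset, (1 / 2 : ℝ) ^ A0.card *
          ∏ v ∈ T, (x v * ((∏ a ∈ D, q v a : ℤ) : ℝ)) := by
      intro T _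
      have h3 : (if ∀ a ∈ A0, ∏ v ∈ T, q v a = 1 then ∏ v ∈ T, x v else 0) =
          (if ∀ a ∈ A0, ∏ v ∈ T, q v a = 1 then (1 : ℝ) else 0) * ∏ v ∈ T, x v := by
        split_ifs <;> simp
      rw [h3, hind T, Finset.prod_one_add, ← Finset.mul_sum, mul_assoc, Finset.sum_mul]
      congr 1
      apply Finset.sum_congr rfl
      intro D _
      rw [Finset.prod_mul_distrib, mul_comm]
      congr 1
      push_cast
      rw [Finset.prod_comm]
    rw [Finset.sum_congr rfl h2, Finset.sum_comm, Finset.mul_sum]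
    apply Finset.sum_congr rfl
    intro D _
    rw [← Finset.mul_sum, Finset.prod_one_add]
  rw [hR]
  apply mul_le_mul_of_nonneg_left _ (by positivity)
  have h4 : ∏ v ∈ A', (1 + x v) = ∏ v ∈ A', (1 + x v * ((∏ a ∈ (∅ : Finset K), q v a : ℤ) : ℝ)) := by
    simp
  rw [h4]
  refine Finset.single_le_sum (f := fun D : Finset K => ∏ v ∈ A',
    (1 + x v * ((∏ a ∈ D, q v a : ℤ) : ℝ))) ?_ (Finset.empty_mem_powerset A0)
  intro D _
  apply Finset.prod_nonneg
  intro v hv
  obtain ⟨h5, h6⟩ := hx v hv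
  rcases hpm' D v with h7 | h7 <;> rw [h7] <;> push_cast <;> linarith

theorem finite_mem {F : Type} [Field F] [NumberField F] {a : 𝓞 F} (ha : a ≠ 0) :
    {v : Pr F | a ∈ v.asIdeal}.Finite := by
  have h1 : Ideal.span {a} ≠ 0 := by
    rw [Ideal.zero_eq_bot, Ne, Ideal.span_singleton_eq_bot]
    exact ha
  refine (Ideal.finite_factors h1).subset fun v hv => ?_
  show v.asIdeal ∣ Ideal.span {a}
  rw [Ideal.dvd_span_singleton]
  exact hv

theorem qs_cases {F : Type} [Field F] [NumberField F] (v : Pr F) (a : 𝓞 F) :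
    qs v a = 1 ∨ qs v a = -1 := by
  unfold qs
  split_ifs
  · exact Or.inl rfl
  · exact Or.inr rfl

end LdaRow

open LdaRow in
/-- row LDA -/
theorem lda (h1 : SelStatement) (h2 : QsStatement) (h3 : ExtStatement) : LdaStatement := by
  classical
  intro F _ _ P S hodd hS
  obtain ⟨A0, hA0, hA⟩ := h1 F hS.toFinset
  have hfin : ({v : Pr F | ∃ a ∈ A0, a ∈ v.asIdeal}).Finite := by
    have h4 : {v : Pr F | ∃ a ∈ A0, a ∈ v.asIdeal} = ⋃ a ∈ A0, {v : Pr F | a ∈ v.asIdeal} := by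
      ext v
      simp
    rw [h4]
    exact Set.Finite.biUnion A0.finite_toSet fun a ha => finite_mem (hA0 a ha)
  let E0 : Finset (Pr F) := hS.toFinset ∪ hfin.toFinset
  refine ⟨(1 / 2) ^ A0.card * (1 / 2) ^ E0.card, by positivity, ?_⟩
  intro A hAP
  let A' := A \ E0
  have hA'P : ∀ v ∈ A', v ∈ P := fun v hv => hAP (Finset.mem_sdiff.1 hv).1
  have hA'S : ∀ v ∈ A', v ∉ hS.toFinset := fun v hv h =>
    (Finset.mem_sdiff.1 hv).2 (Finset.mem_union_left _ h)
  have hA'A : ∀ v ∈ A', ∀ a ∈ A0, a ∉ v.asIdeal := fun v hv a ha h =>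
    (Finset.mem_sdiff.1 hv).2 (Finset.mem_union_right _ (hfin.mem_toFinset.2 ⟨a, ha, h⟩))
  let G := A'.powerset.filter (fun T => ∀ a ∈ A0, ∏ v ∈ T, qs v a = 1)
  have hex : ∀ T : Finset (Pr F), ∃ χ : QChar F, T ∈ G →
      χ.T = T ∧ ∀ s ∈ hS.toFinset, χ.chi s.asIdeal = 1 := by
    intro T
    by_cases hT : T ∈ G
    · obtain ⟨hT1, hT2⟩ := Finset.mem_filter.1 hT
      have hT1 := Finset.mem_powerset.1 hT1
      have h5 : ∃ χ : QChar F, χ.T = T ∧ ∀ s ∈ hS.toFinset, χ.chi s.asIdeal = 1 := by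
        refine h3 F hS.toFinset T ?_ (fun v hv => hodd v (hA'P v (hT1 hv))) ?_
        · rw [Finset.disjoint_left]
          intro v hv1 hv2
          exact hA'S v (hT1 hv2) hv1
        · intro α b E hα hE hb hcop
          obtain ⟨α', hα', β, γ, hβ, hγ, heq⟩ := hA α b E hα hE hb
          rw [← hT2 α' hα']
          apply Finset.prod_congr rfl
          intro v hv
          refine (h2 F v).2.2.2 α α' β γ ?_ (hA'A v (hT1 hv) α' hα') hβ hγ heq
          intro h
          exact hcop v hv ((Ideal.span_singleton_le_iff_mem _).2 h)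
      obtain ⟨χ, hχ⟩ := h5
      exact ⟨χ, fun _ => hχ⟩
    · by_cases hne : Nonempty (QChar F)
      · exact ⟨hne.some, fun h => absurd h hT⟩
      · exfalso
        -- the empty set is always good
        have h6 : ∃ χ : QChar F, χ.T = ∅ ∧ ∀ s ∈ hS.toFinset, χ.chi s.asIdeal = 1 := by
          refine h3 F hS.toFinset ∅ (Finset.disjoint_empty_right _) (fun v hv => by simp at hv) ?_
          intros
          simp
        exact hne ⟨h6.choose⟩
  choose f hf using hex
  refine ⟨G.image f, ?_, ?_⟩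
  · intro χ hχ
    obtain ⟨T, hT, rfl⟩ := Finset.mem_image.1 hχ
    have hT1 := Finset.mem_powerset.1 (Finset.mem_filter.1 hT).1
    obtain ⟨h5, h6⟩ := hf T hT
    refine ⟨⟨?_, ?_⟩, ?_⟩
    · intro v hv
      rw [h5] at hv
      exact hA'P v (hT1 hv)
    · intro s hs
      exact h6 s (hS.mem_toFinset.2 hs)
    · rw [h5]
      exact hT1.trans Finset.sdiff_subset
  · have hinj : Set.InjOn f G := by
      intro T hT T' hT' h
      rw [← (hf T hT).1, ← (hf T' hT').1, h]
    rw [Finset.sum_image hinj]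
    have hterm : ∀ T ∈ G, (1 : ℝ) / ((f T).cond : ℝ) = ∏ v ∈ T, (1 / (nm v : ℝ)) := by
      intro T hT
      unfold QChar.cond
      rw [(hf T hT).1]
      push_cast
      rw [Finset.prod_div_distrib, Finset.prod_const_one]
    rw [Finset.sum_congr rfl hterm]
    have hx : ∀ v ∈ A', 0 ≤ 1 / (nm v : ℝ) ∧ 1 / (nm v : ℝ) ≤ 1 := by
      intro v hv
      have h7 : 1 ≤ nm v := (hodd v (hA'P v hv)).pos
      have h8 : (1 : ℝ) ≤ (nm v : ℝ) := by exact_mod_cast h7
      refine ⟨by positivity, ?_⟩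
      rw [div_le_one (by linarith)]
      exact h8
    refine le_trans ?_ (key A' A0 qs qs_cases (fun v => 1 / (nm v : ℝ)) hx)
    rw [mul_assoc]
    apply mul_le_mul_of_nonneg_left _ (by positivity)
    have h9 : ∏ v ∈ A, (1 + 1 / (nm v : ℝ)) =
        (∏ v ∈ A', (1 + 1 / (nm v : ℝ))) * ∏ v ∈ A ∩ E0, (1 + 1 / (nm v : ℝ)) := by
      rw [← Finset.prod_union]
      · congr 1
        ext v
        simp only [A', Finset.mem_union, Finset.mem_sdiff, Finset.mem_inter]
        tauto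
      · rw [Finset.disjoint_left]
        intro v hv1 hv2
        exact (Finset.mem_sdiff.1 hv1).2 (Finset.mem_inter.1 hv2).2
    have h10 : ∏ v ∈ A ∩ E0, (1 + 1 / (nm v : ℝ)) ≤ 2 ^ E0.card := by
      calc ∏ v ∈ A ∩ E0, (1 + 1 / (nm v : ℝ)) ≤ ∏ v ∈ A ∩ E0, (2 : ℝ) := by
            apply Finset.prod_le_prod
            · intro v _
              positivity
            · intro v hv
              have h7 : 1 ≤ nm v := (hodd v (hAP (Finset.mem_inter.1 hv).1)).pos
              have h8 : (1 : ℝ) ≤ (nm v : ℝ) := by exact_mod_cast h7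
              have : 1 / (nm v : ℝ) ≤ 1 := by
                rw [div_le_one (by linarith)]
                exact h8
              linarith
        _ = 2 ^ (A ∩ E0).card := by rw [Finset.prod_const]
        _ ≤ 2 ^ E0.card := by
            apply pow_le_pow_right₀ (by norm_num)
            exact Finset.card_le_card Finset.inter_subset_right
    have h11 : 0 ≤ ∏ v ∈ A', (1 + 1 / (nm v : ℝ)) := by positivity
    rw [h9]
    calc (1 / 2 : ℝ) ^ E0.card * ((∏ v ∈ A', (1 + 1 / (nm v : ℝ))) *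
            ∏ v ∈ A ∩ E0, (1 + 1 / (nm v : ℝ)))
        ≤ (1 / 2 : ℝ) ^ E0.card * ((∏ v ∈ A', (1 + 1 / (nm v : ℝ))) * 2 ^ E0.card) := by
          gcongr
      _ = (∏ v ∈ A', (1 + 1 / (nm v : ℝ))) * ((1 / 2 : ℝ) * 2) ^ E0.card := by
          rw [mul_pow]
          ring
      _ = ∏ v ∈ A', (1 + 1 / (nm v : ℝ)) := by
          norm_num

end Pool.Agent.Lib.MP_50bb2e_nt.ND
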