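import Pool.Agent.Lib.MP_50bb2e_nt.ND.Iface
import Pool.Agent.Lib.MP_50bb2e_nt.PP.Asm

/-!
MP_50bb2e_nt, board ND, row LDB: the large characters in the family, logarithmic density in cubes.
-/

set_option autoImplicit false

open IsDedekindDomain NumberField

namespace Pool.Agent.Lib.MP_50bb2e_nt.ND

open Pool.Agent.Lib.MP_50bb2e_nt.PP

theorem inv_cond {F : Type} [Field F] [NumberField F] (χ : QChar F) :
    ∏ v ∈ χ.T, (1 / (nm v : ℝ)) = 1 / (χ.cond : ℝ) := by
  unfold QChar.cond
  rw [Nat.cast_prod, Finset.prod_div_distrib, Finset.prod_const_one]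

open Classical in
theorem ldb (hmix : MixStatement) (hprim : PrimStatement) (hfin : FinStatement) :
    LdbStatement := by
  intro F _ _ P S j Lg hG A Φ hΦ
  obtain ⟨C, hC⟩ := hfin F
  have hYfin : {χ : QChar F | χ ∈ Fam P S ∧ χ.T ⊆ A}.Finite := by
    apply Set.Finite.subset
      (Set.Finite.biUnion A.powerset.finite_toSet (fun T _ => (hC T).1))
    rintro χ ⟨_, hχ⟩
    simp only [Set.mem_iUnion]
    exact ⟨χ.T, Finset.mem_coe.2 (Finset.mem_powerset.2 hχ), rfl⟩
  set Y : Finset (QChar F) := hYfin.toFinset with hY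
  have hmemY : ∀ χ, χ ∈ Y ↔ χ ∈ Fam P S ∧ χ.T ⊆ A := by
    intro χ
    rw [hY, Set.Finite.mem_toFinset]; rfl
  have key := hmix (QChar F) (Pr F) Y (fun χ => χ.T) Lg (2 ^ j) A
    (fun v => 1 / (nm v : ℝ)) (by
      intro v _
      have h1 : (1 : ℝ) ≤ nm v := by exact_mod_cast nm_pos v
      refine ⟨by positivity, ?_⟩
      rw [div_le_one (by linarith)]
      exact h1) (by
      intro R hR
      have h1 := hG.grp (Y.filter (fun χ => χ.T ⊆ R))
        ⟨trivQ F, by
          rw [Finset.mem_filter, hmemY]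
          exact ⟨⟨triv_mem P S, by simp [trivQ]⟩, by simp [trivQ]⟩⟩ (by
          intro χ hχ
          rw [Finset.mem_filter, hmemY] at hχ
          exact hχ.1.1.1) (by
          intro χ hχ ψ hψ
          rw [Finset.mem_coe, Finset.mem_filter, hmemY] at hχ hψ
          obtain ⟨ρ, hρT, hρ⟩ := hprim F χ ψ
          have hρR : ρ.T ⊆ R := by
            intro v hv
            rcases hρT v hv with h | h
            · exact hχ.2 h
            · exact hψ.2 h
          refine ⟨ρ, ?_, hρ⟩
          rw [Finset.mem_coe, Finset.mem_filter, hmemY]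
          refine ⟨⟨⟨?_, ?_⟩, hρR.trans hR⟩, hρR⟩
          · intro v hv
            rcases hρT v hv with h | h
            · exact hχ.1.1.1 h
            · exact hψ.1.1.1 h
          · intro v hv
            have e1 := hχ.1.1.2 v hv
            have e2 := hψ.1.1.2 v hv
            rw [hρ v.asIdeal (by rw [e1]; norm_num) (by rw [e2]; norm_num), e1, e2, mul_one])
      rw [Finset.filter_filter] at h1
      convert h1)
  simp only [inv_cond] at key
  refine ⟨Y.filter (fun χ => χ.T ⊆ A ∧ Lg χ), ?_, ?_⟩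
  · intro χ hχ
    rw [Finset.mem_filter, hmemY] at hχ
    exact ⟨hχ.1.1, hχ.2.2, hχ.2.1⟩
  · have e1 : ∑ χ ∈ Φ, 1 / (χ.cond : ℝ) ≤
        ∑ χ ∈ Y.filter (fun χ => χ.T ⊆ A), 1 / (χ.cond : ℝ) := by
      apply Finset.sum_le_sum_of_subset_of_nonneg
      · intro χ hχ
        rw [Finset.mem_filter, hmemY]
        exact ⟨hΦ χ hχ, (hΦ χ hχ).2⟩
      · intro χ _ _
        positivity
    refine e1.trans (key.trans (le_of_eq ?_))
    push_cast
    rfl

end Pool.Agent.Lib.MP_50bb2e_nt.ND
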