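import Pool.Agent.Lib.MP_50bb2e_nt.ND.Iface

/-!
MP_50bb2e_nt, board ND, row LDC: the tail (Rankin).
-/

open IsDedekindDomain NumberField Filter Topology

namespace Pool.Agent.Lib.MP_50bb2e_nt.ND

open Pool.Agent.Lib.MP_50bb2e_nt.PP

namespace Ldc

lemma nm_pos {F : Type} [Field F] [NumberField F] (v : Pr F) : 1 ≤ nm v := by
  rw [Nat.one_le_iff_ne_zero]
  unfold nm
  rw [Ne, Ideal.absNorm_eq_zero_iff]
  exact v.ne_bot

lemma exp_sub_one_le {t : ℝ} (h0 : 0 ≤ t) (h1 : t ≤ 1) : Real.exp t - 1 ≤ 2 * t := by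
  have h := convexOn_exp.2 (Set.mem_univ 0) (Set.mem_univ 1) (sub_nonneg.2 h1) h0
    (by ring : (1 - t) + t = 1)
  simp only [smul_eq_mul, mul_zero, mul_one, zero_add, Real.exp_zero] at h
  have h2 := Real.exp_one_lt_d9
  nlinarith

lemma factor {N z : ℝ} (hN : 1 ≤ N) (hNz : N ≤ z) (hz : 2 ≤ z) :
    1 + N ^ ((Real.log z)⁻¹ - 1) ≤
      (1 + 1 / N) * Real.exp (2 / Real.log z * (Real.log N / N)) := by
  have hN0 : 0 < N := by linarith
  have hlz : 0 < Real.log z := Real.log_pos (by linarith)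
  have hlN : 0 ≤ Real.log N := Real.log_nonneg hN
  have e1 : N ^ ((Real.log z)⁻¹ - 1) = Real.exp (Real.log N / Real.log z) / N := by
    rw [Real.rpow_sub hN0, Real.rpow_one, Real.rpow_def_of_pos hN0]
    rfl
  have h2 : Real.exp (Real.log N / Real.log z) - 1 ≤ 2 * (Real.log N / Real.log z) :=
    exp_sub_one_le (by positivity)
      ((div_le_one hlz).2 (Real.log_le_log hN0 hNz))
  have h3 : 1 + 2 / Real.log z * (Real.log N / N) ≤
      Real.exp (2 / Real.log z * (Real.log N / N)) := by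
    have := Real.add_one_le_exp (2 / Real.log z * (Real.log N / N))
    linarith
  have h4 : (1 : ℝ) + N ^ ((Real.log z)⁻¹ - 1) ≤ (1 + 1 / N) + 2 / Real.log z * (Real.log N / N) := by
    rw [e1]
    have : Real.exp (Real.log N / Real.log z) / N ≤ (1 + 2 * (Real.log N / Real.log z)) / N := by
      apply div_le_div_of_nonneg_right _ hN0.le
      linarith
    refine (add_le_add_right this 1).trans (le_of_eq ?_)
    field_simp
    ring
  have h5 : 0 ≤ 2 / Real.log z * (Real.log N / N) := by positivity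
  have h6 : 0 < 1 / N := by positivity
  nlinarith [mul_nonneg h6.le h5, mul_le_mul_of_nonneg_left h3 (show 0 ≤ 1 + 1 / N by positivity)]

lemma group {F : Type} [Field F] [NumberField F] {C : ℕ}
    (hC : ∀ T : Finset (Pr F), {χ : QChar F | χ.T = T}.Finite ∧
      {χ : QChar F | χ.T = T}.ncard ≤ C) (A : Finset (Pr F)) (Φ : Finset (QChar F))
    (hΦ : ∀ χ ∈ Φ, χ.T ⊆ A) (f : Finset (Pr F) → ℝ) (hf : ∀ T, 0 ≤ f T) :
    ∑ χ ∈ Φ, f χ.T ≤ C * ∑ T ∈ A.powerset, f T := by
  classical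
  rw [← Finset.sum_fiberwise_of_maps_to (s := Φ) (t := A.powerset) (g := fun χ => χ.T)
    (fun χ hχ => Finset.mem_powerset.2 (hΦ χ hχ)), Finset.mul_sum]
  apply Finset.sum_le_sum
  intro T _
  have e : ∑ χ ∈ Φ with χ.T = T, f χ.T = ((Φ.filter fun χ => χ.T = T).card : ℝ) * f T := by
    rw [Finset.sum_congr rfl (g := fun _ => f T), Finset.sum_const, nsmul_eq_mul]
    intro χ hχ
    rw [(Finset.mem_filter.1 hχ).2]
  rw [e]
  apply mul_le_mul_of_nonneg_right _ (hf T)
  have h := hC T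
  have h2 : (Φ.filter fun χ => χ.T = T).card ≤ {χ : QChar F | χ.T = T}.ncard := by
    rw [← Set.ncard_coe_finset]
    apply Set.ncard_le_ncard _ h.1
    intro χ hχ
    exact (Finset.mem_filter.1 (Finset.mem_coe.1 hχ)).2
  exact_mod_cast h2.trans h.2

end Ldc

open Ldc in
theorem ldc (h1 : NtStatement) (h2 : FinStatement) : LdcStatement := by
  classical
  intro F _ _ δ hδ
  obtain ⟨-, A0, hA0, hnt⟩ := h1 F
  obtain ⟨C, hC⟩ := h2 F
  have hl2 : 0 < Real.log 2 := Real.log_pos (by norm_num)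
  obtain ⟨C', hC'⟩ : ∃ C' : ℝ, C' = 2 * A0 * (1 / Real.log 2 + 1) := ⟨_, rfl⟩
  refine ⟨max 1 (C' + Real.log ((C + 1) / δ)), le_max_left _ _, ?_⟩
  intro z hz A hA Φ hΦ
  obtain ⟨K, hK⟩ : ∃ K : ℝ, K = max 1 (C' + Real.log ((C + 1) / δ)) := ⟨_, rfl⟩
  rw [← hK] at hΦ
  have hK1 : C' + Real.log ((C + 1) / δ) ≤ K := by rw [hK]; exact le_max_right _ _
  have hz0 : 0 < z := by linarith
  have hlz : 0 < Real.log z := Real.log_pos (by linarith)
  have hl2z : Real.log 2 ≤ Real.log z := Real.log_le_log (by norm_num) hz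
  obtain ⟨f, hf⟩ : ∃ f : Finset (Pr F) → ℝ,
    f = fun T => ∏ v ∈ T, (nm v : ℝ) ^ ((Real.log z)⁻¹ - 1) := ⟨_, rfl⟩
  have hf0 : ∀ T, 0 ≤ f T := by
    intro T
    rw [hf]
    exact Finset.prod_nonneg fun v _ => Real.rpow_nonneg (Nat.cast_nonneg _) _
  -- each term
  have ht : ∀ χ ∈ Φ, 1 / (χ.cond : ℝ) ≤ Real.exp (-K) * f χ.T := by
    intro χ hχ
    have hc := (hΦ χ hχ).2
    have hcK : 0 < z ^ K := Real.rpow_pos_of_pos hz0 K
    have hc0 : (0 : ℝ) < χ.cond := hcK.trans hc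
    have e1 : f χ.T = (χ.cond : ℝ) ^ ((Real.log z)⁻¹ - 1) := by
      rw [hf]
      simp only [QChar.cond, Nat.cast_prod]
      exact Real.finsetProd_rpow _ _ (fun v _ => Nat.cast_nonneg _) _
    rw [e1, Real.rpow_sub hc0, Real.rpow_one, ← mul_div_assoc]
    apply div_le_div_of_nonneg_right _ hc0.le
    rw [Real.rpow_def_of_pos hc0, ← Real.exp_add]
    apply Real.one_le_exp
    have h3 : K * Real.log z ≤ Real.log χ.cond := by
      rw [← Real.log_rpow hz0]
      exact Real.log_le_log hcK hc.le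
    have h4 : K ≤ Real.log χ.cond * (Real.log z)⁻¹ := by
      rw [← div_eq_mul_inv, le_div_iff₀ hlz]
      exact h3
    linarith
  have hs1 : ∑ χ ∈ Φ, 1 / (χ.cond : ℝ) ≤ Real.exp (-K) * (C * ∑ T ∈ A.powerset, f T) := by
    refine (Finset.sum_le_sum ht).trans ?_
    rw [← Finset.mul_sum]
    exact mul_le_mul_of_nonneg_left (group hC A Φ (fun χ hχ => (hΦ χ hχ).1) f hf0)
      (Real.exp_pos _).le
  have hs2 : ∑ T ∈ A.powerset, f T ≤ (∏ v ∈ A, (1 + 1 / (nm v : ℝ))) * Real.exp C' := by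
    have e : ∑ T ∈ A.powerset, f T = ∏ v ∈ A, (1 + (nm v : ℝ) ^ ((Real.log z)⁻¹ - 1)) := by
      rw [hf, Finset.prod_one_add]
    rw [e]
    have h3 : ∏ v ∈ A, (1 + (nm v : ℝ) ^ ((Real.log z)⁻¹ - 1)) ≤
        ∏ v ∈ A, ((1 + 1 / (nm v : ℝ)) *
          Real.exp (2 / Real.log z * (Real.log (nm v) / nm v))) := by
      apply Finset.prod_le_prod
      · intro v _
        have := Real.rpow_nonneg (Nat.cast_nonneg (nm v)) ((Real.log z)⁻¹ - 1)
        linarith
      · intro v hv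
        exact factor (by exact_mod_cast nm_pos v) (hA v hv) hz
    refine h3.trans ?_
    rw [Finset.prod_mul_distrib, ← Real.exp_sum, ← Finset.mul_sum]
    apply mul_le_mul_of_nonneg_left
    · apply Real.exp_le_exp.2
      have h4 := (hnt z (by linarith) A hA).2
      have h5 : 2 / Real.log z * ∑ v ∈ A, Real.log (nm v) / nm v ≤
          2 / Real.log z * (A0 * (1 + Real.log z)) :=
        mul_le_mul_of_nonneg_left h4 (by positivity)
      refine h5.trans ?_
      have e2 : 2 / Real.log z * (A0 * (1 + Real.log z)) = 2 * A0 * (1 / Real.log z + 1) := by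
        field_simp
      rw [e2, hC']
      apply mul_le_mul_of_nonneg_left _ (by positivity)
      have := one_div_le_one_div_of_le hl2 hl2z
      linarith
    · apply Finset.prod_nonneg
      intro v _
      positivity
  have hprod : 0 ≤ ∏ v ∈ A, (1 + 1 / (nm v : ℝ)) := by
    apply Finset.prod_nonneg
    intro v _
    positivity
  have hfin : Real.exp (-K) * (C * Real.exp C') ≤ δ := by
    have hC1 : (0 : ℝ) < C + 1 := by positivity
    have h6 : Real.exp (-K) ≤ Real.exp (-C') * (δ / (C + 1)) := by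
      have : Real.exp (-C') * (δ / (C + 1)) = Real.exp (-(C' + Real.log ((C + 1) / δ))) := by
        rw [neg_add, Real.exp_add, Real.exp_neg (Real.log _), Real.exp_log (by positivity),
          inv_div]
      rw [this]
      exact Real.exp_le_exp.2 (by linarith)
    calc Real.exp (-K) * (C * Real.exp C')
        ≤ Real.exp (-C') * (δ / (C + 1)) * (C * Real.exp C') :=
          mul_le_mul_of_nonneg_right h6 (by positivity)
      _ = (Real.exp (-C') * Real.exp C') * (δ * (C / (C + 1))) := by ring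
      _ = δ * (C / (C + 1)) := by rw [← Real.exp_add]; simp
      _ ≤ δ * 1 := by
          apply mul_le_mul_of_nonneg_left _ hδ.le
          rw [div_le_one hC1]
          linarith
      _ = δ := mul_one δ
  calc ∑ χ ∈ Φ, 1 / (χ.cond : ℝ)
      ≤ Real.exp (-K) * (C * ∑ T ∈ A.powerset, f T) := hs1
    _ ≤ Real.exp (-K) * (C * ((∏ v ∈ A, (1 + 1 / (nm v : ℝ))) * Real.exp C')) := by
        apply mul_le_mul_of_nonneg_left _ (Real.exp_pos _).le
        exact mul_le_mul_of_nonneg_left hs2 (Nat.cast_nonneg _)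
    _ = (Real.exp (-K) * (C * Real.exp C')) * ∏ v ∈ A, (1 + 1 / (nm v : ℝ)) := by ring
    _ ≤ δ * ∏ v ∈ A, (1 + 1 / (nm v : ℝ)) := mul_le_mul_of_nonneg_right hfin hprod

end Pool.Agent.Lib.MP_50bb2e_nt.ND
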