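import Pool.Agent.Lib.MP_50bb2e_nt.ND.Iface

/-!
MP_50bb2e_nt, board ND, row MER (helper68).
-/

open IsDedekindDomain NumberField Filter Topology

namespace Pool.Agent.Lib.MP_50bb2e_nt.ND

open Pool.Agent.Lib.MP_50bb2e_nt.PP

theorem mer (h : NtStatement) : MerStatement := by
  intro F _ _ e he
  obtain ⟨_, A, hA, hAx⟩ := h F
  -- `1 + log x ≤ 3 log x` for `x ≥ 2`
  refine ⟨Real.exp (3 * A / e), Real.exp_pos _, ?_⟩
  intro x hx Φ hΦ
  have hx0 : (0 : ℝ) < x := by linarith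
  have hl2 : 1 / 2 < Real.log 2 := by
    have := Real.log_two_gt_d9
    linarith
  have hlx : Real.log 2 ≤ Real.log x := Real.log_le_log (by norm_num) hx
  have hlx0 : 0 < Real.log x := by linarith
  have h2 := (hAx x (by linarith) Φ (fun v hv => (hΦ v hv).2)).2
  have hpos : ∀ v ∈ Φ, (0 : ℝ) < nm v := fun v hv =>
    lt_trans (Real.rpow_pos_of_pos hx0 e) (hΦ v hv).1
  have h3 : ∑ v ∈ Φ, 1 / (nm v : ℝ) ≤ 3 * A / e := by
    have h4 : ∑ v ∈ Φ, (e * Real.log x) * (1 / (nm v : ℝ)) ≤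
        ∑ v ∈ Φ, Real.log (nm v) / nm v := by
      apply Finset.sum_le_sum
      intro v hv
      rw [mul_one_div]
      apply div_le_div_of_nonneg_right _ (hpos v hv).le
      rw [← Real.log_rpow hx0]
      exact Real.log_le_log (Real.rpow_pos_of_pos hx0 e) (hΦ v hv).1.le
    rw [← Finset.mul_sum] at h4
    have h5 : (e * Real.log x) * ∑ v ∈ Φ, 1 / (nm v : ℝ) ≤ A * (3 * Real.log x) := by
      refine h4.trans (h2.trans ?_)
      apply mul_le_mul_of_nonneg_left _ hA.le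
      linarith
    rw [le_div_iff₀ he]
    have h6 : (∑ v ∈ Φ, 1 / (nm v : ℝ)) * e * Real.log x ≤ (3 * A) * Real.log x := by
      calc (∑ v ∈ Φ, 1 / (nm v : ℝ)) * e * Real.log x =
          (e * Real.log x) * ∑ v ∈ Φ, 1 / (nm v : ℝ) := by ring
        _ ≤ A * (3 * Real.log x) := h5
        _ = (3 * A) * Real.log x := by ring
    exact le_of_mul_le_mul_right h6 hlx0
  calc ∏ v ∈ Φ, (1 + 1 / (nm v : ℝ)) ≤ ∏ v ∈ Φ, Real.exp (1 / (nm v : ℝ)) := by
        apply Finset.prod_le_prod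
        · intro v hv
          have := hpos v hv
          positivity
        · intro v _
          have := Real.add_one_le_exp (1 / (nm v : ℝ))
          linarith
    _ = Real.exp (∑ v ∈ Φ, 1 / (nm v : ℝ)) := (Real.exp_sum _ _).symm
    _ ≤ Real.exp (3 * A / e) := Real.exp_le_exp.2 h3

end Pool.Agent.Lib.MP_50bb2e_nt.ND
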