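import Pool.Agent.Lib.MP_50bb2e_nt.ND.Iface

/-!
MP_50bb2e_nt, board ND, row MSUM (helper11): from large characters of small conductor to all.
-/

open IsDedekindDomain NumberField Filter Topology

namespace Pool.Agent.Lib.MP_50bb2e_nt.ND

open Pool.Agent.Lib.MP_50bb2e_nt.PP

/-- the choice of the window -/
private lemma msum_arith (k u2 X D : ℕ) (hk : 1 ≤ k) (hD : 1 ≤ D)
    (hX : 2 ^ (4 * (k * u2) + 40 * k) ≤ X) (hDX : D ^ (4 * k) ≤ X) :
    ∃ u0 : ℕ, u2 ≤ u0 ∧ 1 ≤ u0 ∧ D ^ 2 ≤ 2 ^ u0 ∧ X < (2 ^ u0) ^ (2 * k) ∧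
      D * 2 ^ (k * u0 + k) ≤ X ∧ X < D * 2 ^ (k * u0 + 2 * k) ∧ 2 ^ u0 ≤ X := by
  have hX0 : X ≠ 0 := by
    have : 0 < 2 ^ (4 * (k * u2) + 40 * k) := by positivity
    omega
  obtain ⟨M, hM⟩ : ∃ M, M = Nat.log 2 X := ⟨_, rfl⟩
  obtain ⟨B, hB⟩ : ∃ B, B = Nat.log 2 D := ⟨_, rfl⟩
  have m1 : 2 ^ M ≤ X := by rw [hM]; exact Nat.pow_log_le_self 2 hX0
  have m2 : X < 2 ^ (M + 1) := by rw [hM]; exact Nat.lt_pow_succ_log_self (by norm_num) X
  have b1 : 2 ^ B ≤ D := by rw [hB]; exact Nat.pow_log_le_self 2 (by omega)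
  have b2 : D < 2 ^ (B + 1) := by rw [hB]; exact Nat.lt_pow_succ_log_self (by norm_num) D
  have hDle : D ≤ X := le_trans (Nat.le_self_pow (by omega) D) hDX
  have hXD : X / D ≠ 0 := by
    have := Nat.div_pos hDle (by omega)
    omega
  obtain ⟨L, hL⟩ : ∃ L, L = Nat.log 2 (X / D) := ⟨_, rfl⟩
  have l1 : D * 2 ^ L ≤ X := by
    have : 2 ^ L ≤ X / D := by rw [hL]; exact Nat.pow_log_le_self 2 hXD
    calc D * 2 ^ L ≤ D * (X / D) := Nat.mul_le_mul_left _ this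
      _ ≤ X := Nat.mul_div_le X D
  have l2 : X < D * 2 ^ (L + 1) := by
    have : X / D < 2 ^ (L + 1) := by
      rw [hL]; exact Nat.lt_pow_succ_log_self (by norm_num) _
    rw [Nat.div_lt_iff_lt_mul (by omega)] at this
    linarith [Nat.mul_comm D (2 ^ (L + 1))]
  have two : (1 : ℕ) < 2 := by norm_num
  have c1 : 4 * (k * B) ≤ M := by
    have : 2 ^ (B * (4 * k)) < 2 ^ (M + 1) := by
      calc 2 ^ (B * (4 * k)) = (2 ^ B) ^ (4 * k) := pow_mul _ _ _
        _ ≤ D ^ (4 * k) := Nat.pow_le_pow_left b1 _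
        _ ≤ X := hDX
        _ < _ := m2
    have h := (Nat.pow_lt_pow_iff_right two).1 this
    have e : B * (4 * k) = 4 * (k * B) := by ring
    omega
  have c2 : M ≤ B + L + 1 := by
    have : 2 ^ M < 2 ^ (B + L + 2) := by
      calc 2 ^ M ≤ X := m1
        _ < D * 2 ^ (L + 1) := l2
        _ ≤ 2 ^ (B + 1) * 2 ^ (L + 1) := Nat.mul_le_mul_right _ b2.le
        _ = 2 ^ (B + L + 2) := by rw [← pow_add]; congr 1; ring
    have h := (Nat.pow_lt_pow_iff_right two).1 this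
    omega
  have c3 : 4 * (k * u2) + 40 * k ≤ M := by
    have : 2 ^ (4 * (k * u2) + 40 * k) < 2 ^ (M + 1) := lt_of_le_of_lt hX m2
    have h := (Nat.pow_lt_pow_iff_right two).1 this
    omega
  obtain ⟨q, hq⟩ : ∃ q, q = L / k := ⟨_, rfl⟩
  have q1 : k * q ≤ L := by rw [hq]; exact Nat.mul_div_le L k
  have q2 : L < k * q + k := by
    have := Nat.lt_mul_div_succ L (show 0 < k by omega)
    rw [← hq] at this
    rw [Nat.mul_add, Nat.mul_one] at this
    exact this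
  have bk : B ≤ k * B := Nat.le_mul_of_pos_left B (by omega)
  have qk : q ≤ k * q := Nat.le_mul_of_pos_left q (by omega)
  have d1 : u2 + 2 < q := by
    have : k * (u2 + 2) < k * q := by
      have : k * (u2 + 2) = k * u2 + 2 * k := by ring
      omega
    exact Nat.lt_of_mul_lt_mul_left this
  have d2 : 2 * B + 3 ≤ q := by
    have : k * (2 * B + 3) ≤ k * q := by
      have : k * (2 * B + 3) = 2 * (k * B) + 3 * k := by ring
      omega
    exact Nat.le_of_mul_le_mul_left this (by omega)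
  have e1 : k * (q - 1) + k = k * q := by
    have : q = (q - 1) + 1 := by omega
    conv_rhs => rw [this, Nat.mul_add, Nat.mul_one]
  refine ⟨q - 1, by omega, by omega, ?_, ?_, ?_, ?_, ?_⟩
  · calc D ^ 2 ≤ (2 ^ (B + 1)) ^ 2 := Nat.pow_le_pow_left b2.le _
      _ = 2 ^ ((B + 1) * 2) := (pow_mul _ _ _).symm
      _ ≤ 2 ^ (q - 1) := Nat.pow_le_pow_right (by norm_num) (by omega)
  · calc X < 2 ^ (M + 1) := m2
      _ ≤ 2 ^ ((q - 1) * (2 * k)) := by
          apply Nat.pow_le_pow_right (by norm_num)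
          have : (q - 1) * (2 * k) = 2 * (k * (q - 1)) := by ring
          omega
      _ = (2 ^ (q - 1)) ^ (2 * k) := pow_mul _ _ _
  · rw [e1]
    exact le_trans (Nat.mul_le_mul_left _ (Nat.pow_le_pow_right (by norm_num) q1)) l1
  · have e2 : k * (q - 1) + 2 * k = k * q + k := by omega
    rw [e2]
    refine lt_of_lt_of_le l2 (Nat.mul_le_mul_left _ (Nat.pow_le_pow_right (by norm_num) ?_))
    omega
  · calc 2 ^ (q - 1) ≤ 1 * 2 ^ L := by
          rw [one_mul]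
          exact Nat.pow_le_pow_right (by norm_num) (by omega)
      _ ≤ D * 2 ^ L := Nat.mul_le_mul_right _ hD
      _ ≤ X := l1

private lemma msum_nm_pos {F : Type} [Field F] [NumberField F] (v : Pr F) : 0 < nm v := by
  have : nm v ≠ 0 := by
    unfold nm
    rw [Ne, Ideal.absNorm_eq_zero_iff]
    exact v.ne_bot
  omega

private lemma msum_cond_pos {F : Type} [Field F] [NumberField F] (χ : QChar F) :
    1 ≤ χ.cond := by
  unfold QChar.cond
  exact Nat.one_le_iff_ne_zero.2 (Finset.prod_ne_zero_iff.2 fun v _ => (msum_nm_pos v).ne')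

private lemma msum_le_cond {F : Type} [Field F] [NumberField F] (χ : QChar F) (v : Pr F)
    (hv : v ∈ χ.T) : nm v ≤ χ.cond :=
  Nat.le_of_dvd (msum_cond_pos χ) (Finset.dvd_prod_of_mem nm hv)

theorem msum (h1 : LoccStatement) (h2 : SummStatement) (h3 : InjStatement) :
    MsumStatement := by
  classical
  intro F _ _ P S j Lg hG hC
  rcases isEmpty_or_nonempty (QChar F) with hE | hN
  · refine ⟨1, 1, 0, one_pos, one_pos, le_rfl, fun X _ Φ _ => ?_⟩
    have : Φ = ∅ := Finset.eq_empty_of_isEmpty Φ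
    subst this
    simp
  obtain ⟨ch, hch⟩ : ∃ ch : Pr F → QChar F, ∀ v ∈ PC P S, ch v ∈ Fam P S ∧ (ch v).T = {v} := by
    have : ∀ v : Pr F, ∃ χ : QChar F, v ∈ PC P S → χ ∈ Fam P S ∧ χ.T = {v} := by
      intro v
      by_cases hv : v ∈ PC P S
      · obtain ⟨χ, h, h'⟩ := hv
        exact ⟨χ, fun _ => ⟨h, h'⟩⟩
      · exact ⟨hN.some, fun h => absurd h hv⟩
    choose ch hch using this
    exact ⟨ch, hch⟩
  obtain ⟨k, c, u2, hk, hc, hW⟩ := h1 F P S j Lg hG hC ch hch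
  have hkR : (0 : ℝ) < 4 * k := by
    have : (1 : ℝ) ≤ k := by exact_mod_cast hk
    linarith
  refine ⟨c * Real.log 2 / 2 ^ (2 * k), 1 / (4 * k), 2 ^ (4 * (k * u2) + 40 * k), ?_, ?_, ?_, ?_⟩
  · have := Real.log_pos (show (1 : ℝ) < 2 by norm_num)
    positivity
  · positivity
  · rw [div_le_one hkR]
    have : (1 : ℝ) ≤ k := by exact_mod_cast hk
    linarith
  intro X hX Φ hΦ
  have hX1 : 1 < X := by
    have : 2 ^ 1 ≤ 2 ^ (4 * (k * u2) + 40 * k) :=
      Nat.pow_le_pow_right (by norm_num) (by omega)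
    omega
  have hX1R : (1 : ℝ) < X := by exact_mod_cast hX1
  have hlog : 0 < Real.log X := Real.log_pos hX1R
  have hlog2 : 0 < Real.log 2 := Real.log_pos (by norm_num)
  -- the conductors
  have hcond : ∀ χ ∈ Φ, χ.cond ^ (4 * k) ≤ X := by
    intro χ hχ
    have h := (hΦ χ hχ).2.2
    have h' : ((χ.cond : ℝ)) ^ (4 * k) ≤ ((X : ℝ) ^ (1 / (4 * k : ℝ))) ^ (4 * k) :=
      pow_le_pow_left₀ (Nat.cast_nonneg _) h _
    have e : ((X : ℝ) ^ (1 / (4 * k : ℝ))) ^ (4 * k) = X := by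
      rw [← Real.rpow_natCast, ← Real.rpow_mul (Nat.cast_nonneg _)]
      have : 1 / (4 * k : ℝ) * ((4 * k : ℕ) : ℝ) = 1 := by
        push_cast
        field_simp
      rw [this, Real.rpow_one]
    rw [e] at h'
    exact_mod_cast h'
  -- the sets of primes
  have hR : ∀ χ : QChar F, ∃ W : Finset (Finset (Pr F)), χ ∈ Φ →
      c * Real.log 2 / 2 ^ (2 * k) * (X / Real.log X) * (1 / (χ.cond : ℝ)) ≤ W.card ∧
      ∀ R ∈ W, (∀ v ∈ R, v ∈ PC P S ∧ X < (nm v) ^ (4 * k)) ∧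
        ∃ ρ ∈ Fam P S, Lg ρ ∧ (∀ v, v ∈ ρ.T ↔ v ∈ χ.T ∨ v ∈ R) ∧ ρ.cond ≤ X ∧
          ∀ a, ρ.chi a = χ.chi a * ∏ v ∈ R, (ch v).chi a := by
    intro χ
    by_cases hχ : χ ∈ Φ
    · obtain ⟨u0, hu2, hu1, hD2, hX2, hX3, hX4, hX5⟩ :=
        msum_arith k u2 X χ.cond hk (msum_cond_pos χ) hX (hcond χ hχ)
      obtain ⟨W, hW1, hW2⟩ := hW u0 hu2 χ (hΦ χ hχ).1 (hΦ χ hχ).2.1 (fun v hv =>
        le_trans (Nat.pow_le_pow_left (msum_le_cond χ v hv) 2) hD2)
      refine ⟨W, fun _ => ⟨?_, ?_⟩⟩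
      · refine le_trans ?_ hW1
        have hcR : (1 : ℝ) ≤ χ.cond := by exact_mod_cast msum_cond_pos χ
        have hu1R : (1 : ℝ) ≤ u0 := by exact_mod_cast hu1
        have a1 : (X : ℝ) / χ.cond ≤ 2 ^ (k * u0) * 2 ^ (2 * k) := by
          rw [div_le_iff₀ (by linarith)]
          have : (X : ℝ) ≤ χ.cond * 2 ^ (k * u0 + 2 * k) := by exact_mod_cast hX4.le
          rw [← pow_add]
          linarith
        have a2 : Real.log 2 / Real.log X ≤ 1 / u0 := by
          rw [div_le_div_iff₀ hlog (by linarith)]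
          have : (2 : ℝ) ^ u0 ≤ X := by exact_mod_cast hX5
          have := Real.log_le_log (by positivity) this
          rw [Real.log_pow] at this
          linarith
        calc c * Real.log 2 / 2 ^ (2 * k) * (X / Real.log X) * (1 / (χ.cond : ℝ))
            = c * (((X : ℝ) / χ.cond) / 2 ^ (2 * k)) * (Real.log 2 / Real.log X) := by
              field_simp
          _ ≤ c * 2 ^ (k * u0) * (1 / u0) := by
              apply mul_le_mul _ a2 (by positivity) (by positivity)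
              apply mul_le_mul_of_nonneg_left _ hc.le
              rw [div_le_iff₀ (by positivity)]
              exact a1
          _ = c * 2 ^ (k * u0) / u0 := by ring
      · intro R hR
        obtain ⟨r1, r2, ρ, r3, r4, r5, r6, r7⟩ := hW2 R hR
        refine ⟨fun v hv => ⟨(r1 v hv).1, ?_⟩, ρ, r3, r4, r5, ?_, r7⟩
        · have := (r1 v hv).2
          calc X < (2 ^ u0) ^ (2 * k) := hX2
            _ ≤ ((nm v) ^ 2) ^ (2 * k) := Nat.pow_le_pow_left this.le _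
            _ = (nm v) ^ (4 * k) := by rw [← pow_mul]; congr 1; ring
        · rw [r6]
          exact le_trans (Nat.mul_le_mul_left _ r2) hX3
    · exact ⟨∅, fun h => absurd h hχ⟩
  choose W hW' using hR
  -- the target
  have hfin : {χ : QChar F | χ ∈ Fam P S ∧ Lg χ ∧ χ.cond ≤ X}.Finite :=
    ((h2 F).1 X).subset fun χ h => h.2.2
  obtain ⟨f, hf⟩ : ∃ f : (Σ _ : QChar F, Finset (Pr F)) → QChar F,
      ∀ p : (Σ _ : QChar F, Finset (Pr F)), p ∈ Φ.sigma W →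
        f p ∈ Fam P S ∧ Lg (f p) ∧ (∀ v, v ∈ (f p).T ↔ v ∈ p.1.T ∨ v ∈ p.2) ∧ (f p).cond ≤ X ∧
          ∀ a, (f p).chi a = p.1.chi a * ∏ v ∈ p.2, (ch v).chi a := by
    have : ∀ p : (Σ _ : QChar F, Finset (Pr F)), ∃ ρ : QChar F, p ∈ Φ.sigma W →
        ρ ∈ Fam P S ∧ Lg ρ ∧ (∀ v, v ∈ ρ.T ↔ v ∈ p.1.T ∨ v ∈ p.2) ∧ ρ.cond ≤ X ∧
          ∀ a, ρ.chi a = p.1.chi a * ∏ v ∈ p.2, (ch v).chi a := by
      intro p
      by_cases hp : p ∈ Φ.sigma W
      · rw [Finset.mem_sigma] at hp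
        obtain ⟨_, ρ, s1, s2, s3, s4, s5⟩ := (hW' p.1 hp.1).2 p.2 hp.2
        exact ⟨ρ, fun _ => ⟨s1, s2, s3, s4, s5⟩⟩
      · exact ⟨hN.some, fun h => absurd h hp⟩
    choose f hf using this
    exact ⟨f, hf⟩
  have hinj : Set.InjOn f (Φ.sigma W : Finset _) := by
    rintro ⟨χ, R⟩ hp ⟨χ', R'⟩ hp' hff
    have hp1 := hp
    have hp1' := hp'
    rw [Finset.mem_coe, Finset.mem_sigma] at hp1 hp1'
    obtain ⟨s1, s2, s3, s4, s5⟩ := hf ⟨χ, R⟩ hp
    obtain ⟨t1, t2, t3, t4, t5⟩ := hf ⟨χ', R'⟩ hp'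
    rw [← hff] at t3 t5
    have key : ∀ (ψ : QChar F) (Q : Finset (Pr F)), ψ ∈ Φ → Q ∈ W ψ →
        (∀ v, v ∈ (f ⟨χ, R⟩).T ↔ v ∈ ψ.T ∨ v ∈ Q) →
        ∀ v, v ∈ Q ↔ v ∈ (f ⟨χ, R⟩).T ∧ X < (nm v) ^ (4 * k) := by
      intro ψ Q hψ hQ h v
      constructor
      · intro hv
        exact ⟨(h v).2 (Or.inr hv), (((hW' ψ hψ).2 Q hQ).1 v hv).2⟩
      · rintro ⟨hv, hlt⟩
        rcases (h v).1 hv with h' | h'
        · exfalso
          have := Nat.pow_le_pow_left (msum_le_cond ψ v h') (4 * k)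
          have := hcond ψ hψ
          omega
        · exact h'
    have hRR : R = R' := by
      ext v
      rw [key χ R hp1.1 hp1.2 s3 v, key χ' R' hp1'.1 hp1'.2 t3 v]
    subst hRR
    have hχ : χ = χ' := by
      apply h3 F χ χ' (f ⟨χ, R⟩).T
      intro a ha hcop _ _
      have hne : (f ⟨χ, R⟩).chi a ≠ 0 := by
        rcases (f ⟨χ, R⟩).val a ha hcop with h | h <;> rw [h] <;> decide
      have e1 := s5 a
      have e2 := t5 a
      simp only at e1 e2
      rw [e1] at hne e2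
      exact mul_right_cancel₀ (right_ne_zero_of_mul hne) e2
    subst hχ
    rfl
  have hcard : ((Φ.sigma W).card : ℝ) ≤
      Set.ncard {χ : QChar F | χ ∈ Fam P S ∧ Lg χ ∧ χ.cond ≤ X} := by
    rw [← Finset.card_image_of_injOn hinj]
    have : (((Φ.sigma W).image f : Finset (QChar F)) : Set (QChar F)) ⊆
        {χ : QChar F | χ ∈ Fam P S ∧ Lg χ ∧ χ.cond ≤ X} := by
      intro ρ hρ
      rw [Finset.mem_coe, Finset.mem_image] at hρ
      obtain ⟨p, hp, rfl⟩ := hρ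
      obtain ⟨s1, s2, s3, s4, s5⟩ := hf p hp
      exact ⟨s1, s2, s4⟩
    have := Set.ncard_le_ncard this hfin
    rw [Set.ncard_coe_finset] at this
    exact_mod_cast this
  refine le_trans ?_ hcard
  rw [Finset.card_sigma, Finset.mul_sum]
  push_cast
  apply Finset.sum_le_sum
  intro χ hχ
  exact (hW' χ hχ).1

end Pool.Agent.Lib.MP_50bb2e_nt.ND
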