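import Pool.Agent.Lib.MP_50bb2e_nt.ND.Iface

/-!
MP_50bb2e_nt, board ND, row NT (helper68): Chebyshev and Mertens upper bounds for the primes of
a number field.
-/

open IsDedekindDomain NumberField Filter Topology

namespace Pool.Agent.Lib.MP_50bb2e_nt.ND

open Pool.Agent.Lib.MP_50bb2e_nt.PP

namespace Nt

/-- Mertens for the rational primes, by halving. -/
theorem mertens (N : ℕ) :
    ∑ p ∈ Nat.primesLE N, Real.log p / p ≤ 2 * Real.log 4 * (Nat.log 2 N : ℕ) := by
  induction N using Nat.strong_induction_on with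
  | _ N ih =>
    by_cases hN : N < 2
    · have h0 : Nat.primesLE N = ∅ := by
        apply Finset.eq_empty_of_forall_notMem
        intro p hp
        rw [Nat.mem_primesLE] at hp
        have := hp.2.two_le
        omega
      rw [h0, Finset.sum_empty]
      have : 0 ≤ Real.log 4 := Real.log_nonneg (by norm_num)
      positivity
    push Not at hN
    have hlt : N / 2 < N := Nat.div_lt_self (by omega) (by norm_num)
    have h1 := ih (N / 2) hlt
    have hlog : Nat.log 2 N = Nat.log 2 (N / 2) + 1 := by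
      rw [Nat.log_div_base]
      have : 1 ≤ Nat.log 2 N := Nat.log_pos (by norm_num) hN
      omega
    have hN0 : (0 : ℝ) < N := by
      have : 0 < N := by omega
      exact_mod_cast this
    -- split the primes
    have hsplit : ∑ p ∈ Nat.primesLE N, Real.log p / p =
        ∑ p ∈ Nat.primesLE (N / 2), Real.log p / p +
        ∑ p ∈ (Nat.primesLE N).filter (fun p => ¬ p ≤ N / 2), Real.log p / p := by
      rw [← Finset.sum_filter_add_sum_filter_not (Nat.primesLE N) (fun p => p ≤ N / 2)]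
      congr 1
      apply Finset.sum_congr _ (fun _ _ => rfl)
      ext p
      simp only [Finset.mem_filter, Nat.mem_primesLE]
      constructor
      · rintro ⟨⟨_, h2⟩, h3⟩
        exact ⟨h3, h2⟩
      · rintro ⟨h3, h2⟩
        exact ⟨⟨h3.trans hlt.le, h2⟩, h3⟩
    have h2 : ∑ p ∈ (Nat.primesLE N).filter (fun p => ¬ p ≤ N / 2), Real.log p / p ≤
        ∑ p ∈ (Nat.primesLE N).filter (fun p => ¬ p ≤ N / 2), Real.log p * (2 / N) := by
      apply Finset.sum_le_sum
      intro p hp
      rw [Finset.mem_filter, Nat.mem_primesLE] at hp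
      have hp1 : N < 2 * p := by omega
      have hp2 : (N : ℝ) ≤ 2 * p := by exact_mod_cast hp1.le
      have hp3 : (0 : ℝ) < p := by
        exact_mod_cast hp.1.2.pos
      have hl : 0 ≤ Real.log p := Real.log_natCast_nonneg p
      rw [div_eq_mul_inv]
      apply mul_le_mul_of_nonneg_left _ hl
      rw [inv_eq_one_div, div_le_div_iff₀ hp3 hN0]
      linarith
    have h3 : ∑ p ∈ (Nat.primesLE N).filter (fun p => ¬ p ≤ N / 2), Real.log p * (2 / N) ≤
        ∑ p ∈ Nat.primesLE N, Real.log p * (2 / N) := by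
      apply Finset.sum_le_sum_of_subset_of_nonneg (Finset.filter_subset _ _)
      intro p _ _
      have hl : 0 ≤ Real.log p := Real.log_natCast_nonneg p
      positivity
    have h4 : ∑ p ∈ Nat.primesLE N, Real.log p * (2 / N) ≤ 2 * Real.log 4 := by
      rw [← Finset.sum_mul, ← Chebyshev.theta_eq_sum_primesLE_log]
      have := Chebyshev.theta_le_log4_mul_x (x := (N : ℝ)) hN0.le
      calc Chebyshev.theta N * (2 / N) ≤ (Real.log 4 * N) * (2 / N) := by
            apply mul_le_mul_of_nonneg_right this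
            positivity
        _ = 2 * Real.log 4 := by field_simp
    rw [hsplit, hlog]
    push_cast
    nlinarith [h1, h2, h3, h4]

variable {F : Type} [Field F] [NumberField F]

theorem nm_pos (v : Pr F) : 0 < nm v := by
  unfold nm
  rw [Nat.pos_iff_ne_zero, Ne, Ideal.absNorm_eq_zero_iff]
  exact v.ne_bot

theorem nm_ne_one (v : Pr F) : nm v ≠ 1 := by
  unfold nm
  rw [Ne, Ideal.absNorm_eq_one_iff]
  exact v.isPrime.ne_top

/-- every prime contains a rational prime which divides its norm -/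
theorem exists_prime (v : Pr F) : ∃ p : ℕ, p.Prime ∧ p ≤ nm v ∧ ((p : ℕ) : 𝓞 F) ∈ v.asIdeal := by
  have hmem : ((nm v : ℕ) : 𝓞 F) ∈ v.asIdeal := Ideal.absNorm_mem v.asIdeal
  have key : ∀ n : ℕ, n ≠ 0 → ((n : ℕ) : 𝓞 F) ∈ v.asIdeal →
      ∃ p : ℕ, p.Prime ∧ p ∣ n ∧ ((p : ℕ) : 𝓞 F) ∈ v.asIdeal := by
    intro n
    induction n using Nat.recOnMul with
    | zero => intro h; exact absurd rfl h
    | one =>
      intro _ h
      exact absurd ((Ideal.eq_top_iff_one _).2 (by simpa using h)) v.isPrime.ne_top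
    | prime p hp => intro _ h; exact ⟨p, hp, dvd_rfl, h⟩
    | mul a b ha hb =>
      intro h0 h
      have ha0 : a ≠ 0 := left_ne_zero_of_mul h0
      have hb0 : b ≠ 0 := right_ne_zero_of_mul h0
      rw [Nat.cast_mul] at h
      rcases v.isPrime.mem_or_mem h with h | h
      · obtain ⟨p, h1, h2, h3⟩ := ha ha0 h
        exact ⟨p, h1, h2.mul_right b, h3⟩
      · obtain ⟨p, h1, h2, h3⟩ := hb hb0 h
        exact ⟨p, h1, h2.mul_left a, h3⟩
  obtain ⟨p, h1, h2, h3⟩ := key (nm v) (nm_pos v).ne' hmem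
  exact ⟨p, h1, Nat.le_of_dvd (nm_pos v) h2, h3⟩

/-- the primes above `p` -/
theorem above (p : ℕ) (hp : p.Prime) (Φ : Finset (Pr F))
    (h : ∀ v ∈ Φ, ((p : ℕ) : 𝓞 F) ∈ v.asIdeal) :
    ∑ v ∈ Φ, Real.log (nm v) ≤ Module.finrank ℤ (𝓞 F) * Real.log p := by
  classical
  set J : Ideal (𝓞 F) := Ideal.span {((p : ℕ) : 𝓞 F)} with hJ
  have hdvd : ∏ I ∈ Φ.image (fun v : Pr F => v.asIdeal), I ∣ J := by
    apply Finset.prod_primes_dvd
    · intro I hI
      rw [Finset.mem_image] at hI
      obtain ⟨v, _, rfl⟩ := hI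
      exact v.prime
    · intro I hI
      rw [Finset.mem_image] at hI
      obtain ⟨v, hv, rfl⟩ := hI
      rw [Ideal.dvd_iff_le, hJ, Ideal.span_singleton_le_iff_mem]
      exact h v hv
  rw [Finset.prod_image (fun a _ b _ hab => HeightOneSpectrum.ext hab)] at hdvd
  have hnorm : ∏ v ∈ Φ, nm v ∣ p ^ Module.finrank ℤ (𝓞 F) := by
    have h1 := map_dvd Ideal.absNorm hdvd
    rw [map_prod] at h1
    have h2 : Ideal.absNorm J = p ^ Module.finrank ℤ (𝓞 F) := by
      rw [hJ, Ideal.absNorm_span_singleton]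
      have h3 : ((p : ℕ) : 𝓞 F) = algebraMap ℤ (𝓞 F) (p : ℤ) := by simp
      rw [h3, Algebra.norm_algebraMap]
      rw [Int.natAbs_pow, Int.natAbs_natCast]
    rw [h2] at h1
    exact h1
  have hle : ∏ v ∈ Φ, nm v ≤ p ^ Module.finrank ℤ (𝓞 F) :=
    Nat.le_of_dvd (pow_pos hp.pos _) hnorm
  have hle' : ((∏ v ∈ Φ, nm v : ℕ) : ℝ) ≤ (p : ℝ) ^ Module.finrank ℤ (𝓞 F) := by
    exact_mod_cast hle
  rw [← Real.log_pow, ← Real.log_prod (fun v _ => by
    have := nm_pos v
    positivity)]
  apply Real.log_le_log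
  · apply Finset.prod_pos
    intro v _
    have := nm_pos v
    positivity
  · rw [← Nat.cast_prod]
    exact hle'

/-- grouping by rational primes, with a weight -/
theorem group (w : ℕ → ℝ) (hw : ∀ p, 0 ≤ w p) (q : Pr F → ℕ) (hq : ∀ v, (q v).Prime)
    (hq' : ∀ v, ((q v : ℕ) : 𝓞 F) ∈ v.asIdeal) (X : ℕ) (Φ : Finset (Pr F))
    (hΦ : ∀ v ∈ Φ, q v ≤ X) :
    ∑ v ∈ Φ, Real.log (nm v) * w (q v) ≤
      Module.finrank ℤ (𝓞 F) * ∑ p ∈ Nat.primesLE X, Real.log p * w p := by
  classical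
  have h1 : ∑ v ∈ Φ, Real.log (nm v) * w (q v) =
      ∑ p ∈ Nat.primesLE X, ∑ v ∈ Φ.filter (fun v => q v = p), Real.log (nm v) * w (q v) := by
    symm
    apply Finset.sum_fiberwise_of_maps_to
    intro v hv
    rw [Nat.mem_primesLE]
    exact ⟨hΦ v hv, hq v⟩
  rw [h1, Finset.mul_sum]
  apply Finset.sum_le_sum
  intro p hp
  rw [Nat.mem_primesLE] at hp
  have h2 : ∑ v ∈ Φ.filter (fun v => q v = p), Real.log (nm v) * w (q v) =
      (∑ v ∈ Φ.filter (fun v => q v = p), Real.log (nm v)) * w p := by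
    rw [Finset.sum_mul]
    apply Finset.sum_congr rfl
    intro v hv
    rw [(Finset.mem_filter.1 hv).2]
  rw [h2, ← mul_assoc]
  apply mul_le_mul_of_nonneg_right _ (hw p)
  apply above p hp.2
  intro v hv
  rw [← (Finset.mem_filter.1 hv).2]
  exact hq' v

end Nt

open Nt

theorem nt : NtStatement := by
  intro F _ _
  constructor
  · intro X
    have h1 := Ideal.finite_setOfPred_absNorm_le (S := 𝓞 F) ⌊X⌋₊
    have h2 : Function.Injective (fun v : Pr F => v.asIdeal) := fun a b hab =>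
      HeightOneSpectrum.ext hab
    refine (Set.Finite.preimage (f := fun v : Pr F => v.asIdeal) h2.injOn h1).subset ?_
    intro v hv
    exact Nat.le_floor hv
  choose q hq hq1 hq2 using fun v : Pr F => exists_prime v
  set d : ℝ := ((Module.finrank ℤ (𝓞 F) : ℕ) : ℝ) with hd
  have hd0 : 0 ≤ d := by positivity
  have hl4 : 0 < Real.log 4 := Real.log_pos (by norm_num)
  refine ⟨(d + 1) * (4 * Real.log 4 + 4), by positivity, ?_⟩
  intro x hx Φ hΦ
  have hx0 : 0 ≤ x := by linarith
  have hlx : 0 ≤ Real.log x := Real.log_nonneg hx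
  have hqX : ∀ v ∈ Φ, q v ≤ ⌊x⌋₊ := by
    intro v hv
    apply Nat.le_floor
    exact le_trans (by exact_mod_cast hq1 v) (hΦ v hv)
  constructor
  · have h1 := group (fun _ => 1) (fun _ => zero_le_one) q hq hq2 ⌊x⌋₊ Φ hqX
    simp only [mul_one] at h1
    have h2 : ∑ p ∈ Nat.primesLE ⌊x⌋₊, Real.log p ≤ Real.log 4 * x := by
      rw [← Chebyshev.theta_eq_sum_primesLE]
      exact Chebyshev.theta_le_log4_mul_x hx0
    calc ∑ v ∈ Φ, Real.log (nm v) ≤ d * (Real.log 4 * x) :=
          h1.trans (mul_le_mul_of_nonneg_left h2 hd0)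
      _ ≤ (d + 1) * (4 * Real.log 4 + 4) * x := by
          have : d * Real.log 4 ≤ (d + 1) * (4 * Real.log 4 + 4) := by nlinarith
          calc d * (Real.log 4 * x) = d * Real.log 4 * x := by ring
            _ ≤ _ := mul_le_mul_of_nonneg_right this hx0
  · have h1 := group (fun p => 1 / (p : ℝ)) (fun p => by positivity) q hq hq2 ⌊x⌋₊ Φ hqX
    have h0 : ∑ v ∈ Φ, Real.log (nm v) / nm v ≤
        ∑ v ∈ Φ, Real.log (nm v) * (1 / (q v : ℝ)) := by
      apply Finset.sum_le_sum
      intro v _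
      rw [div_eq_mul_one_div]
      apply mul_le_mul_of_nonneg_left _ (Real.log_natCast_nonneg _)
      apply one_div_le_one_div_of_le
      · exact_mod_cast (hq v).pos
      · exact_mod_cast hq1 v
    have h2 : ∑ p ∈ Nat.primesLE ⌊x⌋₊, Real.log p * (1 / (p : ℝ)) ≤
        2 * Real.log 4 * (Nat.log 2 ⌊x⌋₊ : ℕ) := by
      refine le_trans (le_of_eq ?_) (mertens ⌊x⌋₊)
      apply Finset.sum_congr rfl
      intro p _
      rw [mul_one_div]
    have h3 : ((Nat.log 2 ⌊x⌋₊ : ℕ) : ℝ) ≤ 2 * Real.log x := by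
      have hN : ⌊x⌋₊ ≠ 0 := by
        rw [Ne, Nat.floor_eq_zero, not_lt]
        exact hx
      have h4 : (2 : ℝ) ^ (Nat.log 2 ⌊x⌋₊) ≤ x := by
        have h5 : 2 ^ (Nat.log 2 ⌊x⌋₊) ≤ ⌊x⌋₊ := Nat.pow_log_le_self 2 hN
        calc (2 : ℝ) ^ (Nat.log 2 ⌊x⌋₊) = ((2 ^ (Nat.log 2 ⌊x⌋₊) : ℕ) : ℝ) := by push_cast; rfl
          _ ≤ (⌊x⌋₊ : ℝ) := by exact_mod_cast h5
          _ ≤ x := Nat.floor_le hx0
      have h6 : (Nat.log 2 ⌊x⌋₊ : ℕ) * Real.log 2 ≤ Real.log x := by
        rw [← Real.log_pow]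
        exact Real.log_le_log (by positivity) h4
      have h7 : 1 / 2 ≤ Real.log 2 := by
        have := Real.log_two_gt_d9
        linarith
      have h8 : (0 : ℝ) ≤ (Nat.log 2 ⌊x⌋₊ : ℕ) := by positivity
      nlinarith
    calc ∑ v ∈ Φ, Real.log (nm v) / nm v ≤ d * (2 * Real.log 4 * (2 * Real.log x)) := by
          refine h0.trans (h1.trans ?_)
          apply mul_le_mul_of_nonneg_left _ hd0
          refine h2.trans ?_
          apply mul_le_mul_of_nonneg_left h3
          positivity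
      _ ≤ (d + 1) * (4 * Real.log 4 + 4) * (1 + Real.log x) := by
          have e1 : d * (2 * Real.log 4 * (2 * Real.log x)) =
            (d * (4 * Real.log 4)) * Real.log x := by ring
          rw [e1]
          have e2 : d * (4 * Real.log 4) ≤ (d + 1) * (4 * Real.log 4 + 4) := by nlinarith
          have e3 : 0 ≤ (d + 1) * (4 * Real.log 4 + 4) := by positivity
          calc (d * (4 * Real.log 4)) * Real.log x ≤
              (d + 1) * (4 * Real.log 4 + 4) * Real.log x :=
                mul_le_mul_of_nonneg_right e2 hlx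
            _ ≤ _ := by
                apply mul_le_mul_of_nonneg_left _ e3
                linarith

end Pool.Agent.Lib.MP_50bb2e_nt.ND
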