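import Pool.Agent.Lib.MP_50bb2e_nt.ND.Iface

/-!
MP_50bb2e_nt, board ND, row QE: the exponential sum of a quadratic form over `F_2` in `2 j + 2`
variables is divisible by `2 ^ (j + 1)`.
-/

set_option autoImplicit false

namespace Pool.Agent.Lib.MP_50bb2e_nt.ND

/-- the sign -/
def sg (a : ZMod 2) : ℤ := if a = 1 then (-1 : ℤ) else 1

theorem sg_add : ∀ a b : ZMod 2, sg (a + b) = sg a * sg b := by decide

theorem sg_sq : ∀ a : ZMod 2, sg a * sg a = 1 := by decide

theorem sg_zero : sg 0 = 1 := by decide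

/-- the polar form -/
def bl {t : ℕ} (M : Fin t → Fin t → ZMod 2) (x h : Fin t → ZMod 2) : ZMod 2 :=
  ∑ i, ∑ l, (M i l * x i * h l + M i l * h i * x l)

theorem qf_add {t : ℕ} (M : Fin t → Fin t → ZMod 2) (x h : Fin t → ZMod 2) :
    qf M (x + h) = qf M x + qf M h + bl M x h := by
  unfold qf bl
  rw [← Finset.sum_add_distrib, ← Finset.sum_add_distrib]
  refine Finset.sum_congr rfl fun i _ => ?_
  rw [← Finset.sum_add_distrib, ← Finset.sum_add_distrib]
  refine Finset.sum_congr rfl fun l _ => ?_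
  simp only [Pi.add_apply]
  ring

theorem bl_add {t : ℕ} (M : Fin t → Fin t → ZMod 2) (x y h : Fin t → ZMod 2) :
    bl M (x + y) h = bl M x h + bl M y h := by
  unfold bl
  rw [← Finset.sum_add_distrib]
  refine Finset.sum_congr rfl fun i _ => ?_
  rw [← Finset.sum_add_distrib]
  refine Finset.sum_congr rfl fun l _ => ?_
  simp only [Pi.add_apply]
  ring

theorem bl_zero {t : ℕ} (M : Fin t → Fin t → ZMod 2) (h : Fin t → ZMod 2) :
    bl M 0 h = 0 := by
  unfold bl
  simp

theorem bl_sum {t : ℕ} (M : Fin t → Fin t → ZMod 2) (h : Fin t → ZMod 2) :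
    (2 : ℤ) ^ t ∣ ∑ x : Fin t → ZMod 2, sg (bl M x h) := by
  classical
  let ψ : AddChar (Fin t → ZMod 2) ℤ :=
    { toFun := fun x => sg (bl M x h)
      map_zero_eq_one' := by
        change sg (bl M 0 h) = 1
        rw [bl_zero, sg_zero]
      map_add_eq_mul' := by
        intro x y
        change sg (bl M (x + y) h) = sg (bl M x h) * sg (bl M y h)
        rw [bl_add, sg_add] }
  have h1 : ∑ x : Fin t → ZMod 2, sg (bl M x h) = ∑ x : Fin t → ZMod 2, ψ x := rfl
  rw [h1, AddChar.sum_eq_ite]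
  split_ifs
  · have : Fintype.card (Fin t → ZMod 2) = 2 ^ t := by
      rw [Fintype.card_fun, ZMod.card, Fintype.card_fin]
    rw [this]
    push_cast
    exact dvd_rfl
  · exact dvd_zero _

theorem qe : QeStatement := by
  intro j M
  change (2 : ℤ) ^ (j + 1) ∣ ∑ x : Fin (2 * j + 2) → ZMod 2, sg (qf M x)
  have key : (∑ x : Fin (2 * j + 2) → ZMod 2, sg (qf M x)) ^ 2 =
      ∑ h : Fin (2 * j + 2) → ZMod 2, sg (qf M h) *
        ∑ x : Fin (2 * j + 2) → ZMod 2, sg (bl M x h) := by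
    rw [pow_two, Finset.sum_mul_sum]
    have h1 : ∀ x : Fin (2 * j + 2) → ZMod 2,
        ∑ y : Fin (2 * j + 2) → ZMod 2, sg (qf M x) * sg (qf M y) =
        ∑ h : Fin (2 * j + 2) → ZMod 2, sg (qf M h) * sg (bl M x h) := by
      intro x
      rw [← Equiv.sum_comp (Equiv.addLeft x)]
      refine Finset.sum_congr rfl fun h _ => ?_
      rw [Equiv.coe_addLeft, qf_add, sg_add, sg_add]
      have := sg_sq (qf M x)
      linear_combination (sg (qf M h) * sg (bl M x h)) * this
    simp only [h1]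
    rw [Finset.sum_comm]
    refine Finset.sum_congr rfl fun h _ => ?_
    rw [Finset.mul_sum]
  have h2 : ((2 : ℤ) ^ (j + 1)) ^ 2 ∣ (∑ x : Fin (2 * j + 2) → ZMod 2, sg (qf M x)) ^ 2 := by
    rw [key]
    refine Finset.dvd_sum fun h _ => ?_
    refine Dvd.dvd.mul_left ?_ _
    have := bl_sum M h
    rw [← pow_mul]
    rwa [show (j + 1) * 2 = 2 * j + 2 by ring]
  exact (Int.pow_dvd_pow_iff two_ne_zero).1 h2

end Pool.Agent.Lib.MP_50bb2e_nt.ND
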