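import Pool.Agent.Lib.MP_50bb2e_nt.ND.Iface

/-!
MP_50bb2e_nt, board ND, row QR: quadratic forms over `F_2` are an incidence system.
-/

namespace Pool.Agent.Lib.MP_50bb2e_nt.ND.QrH

open Classical

variable {t : ℕ}

theorem zmod_cases (a : ZMod 2) : a = 0 ∨ a = 1 := by
  revert a; decide

theorem qf_add (M N : Fin t → Fin t → ZMod 2) (x : Fin t → ZMod 2) :
    qf (M + N) x = qf M x + qf N x := by
  unfold qf
  rw [← Finset.sum_add_distrib]
  refine Finset.sum_congr rfl fun i _ => ?_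
  rw [← Finset.sum_add_distrib]
  refine Finset.sum_congr rfl fun l _ => ?_
  simp only [Pi.add_apply]
  ring

theorem qf_rank (a b x : Fin t → ZMod 2) :
    qf (fun i l => a i * b l) x = (∑ i, a i * x i) * (∑ l, b l * x l) := by
  unfold qf
  rw [Finset.sum_mul_sum]
  refine Finset.sum_congr rfl fun i _ => Finset.sum_congr rfl fun l _ => ?_
  ring

theorem exists_one {z : Fin t → ZMod 2} (hz : z ≠ 0) : ∃ i, z i = 1 := by
  by_contra h
  push Not at h
  apply hz
  funext i
  rcases zmod_cases (z i) with h1 | h1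
  · exact h1
  · exact (h i h1).elim

theorem sepfun {z x : Fin t → ZMod 2} (hz : z ≠ 0) (hzx : z ≠ x) :
    ∃ l : Fin t → ZMod 2, ∑ i, l i * z i = 1 ∧ ∑ i, l i * x i = 0 := by
  by_cases h : ∃ i, z i = 1 ∧ x i = 0
  · obtain ⟨i, h1, h2⟩ := h
    refine ⟨Pi.single i 1, ?_, ?_⟩
    · rw [Finset.sum_eq_single i (fun b _ hb => by rw [Pi.single_eq_of_ne hb, zero_mul])
        (fun h => (h (Finset.mem_univ _)).elim), Pi.single_eq_same, h1, one_mul]
    · rw [Finset.sum_eq_single i (fun b _ hb => by rw [Pi.single_eq_of_ne hb, zero_mul])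
        (fun h => (h (Finset.mem_univ _)).elim), h2, mul_zero]
  · push Not at h
    obtain ⟨i0, hi0⟩ := exists_one hz
    have hx0 : x i0 = 1 := (zmod_cases (x i0)).resolve_left (h i0 hi0)
    have : ∃ i1, z i1 = 0 ∧ x i1 = 1 := by
      by_contra h'
      push Not at h'
      apply hzx
      funext i
      rcases zmod_cases (z i) with h1 | h1
      · rcases zmod_cases (x i) with h2 | h2
        · rw [h1, h2]
        · exact (h' i h1 h2).elim
      · rw [h1]
        exact ((zmod_cases (x i)).resolve_left (h i h1)).symm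
    obtain ⟨i1, hz1, hx1⟩ := this
    have key : ∀ y : Fin t → ZMod 2, ∑ i, ((Pi.single i0 1 : Fin t → ZMod 2) +
        (Pi.single i1 1 : Fin t → ZMod 2)) i * y i = y i0 + y i1 := by
      intro y
      simp only [Pi.add_apply, add_mul, Finset.sum_add_distrib]
      congr 1
      · rw [Finset.sum_eq_single i0 (fun b _ hb => by rw [Pi.single_eq_of_ne hb, zero_mul])
          (fun h => (h (Finset.mem_univ _)).elim), Pi.single_eq_same, one_mul]
      · rw [Finset.sum_eq_single i1 (fun b _ hb => by rw [Pi.single_eq_of_ne hb, zero_mul])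
          (fun h => (h (Finset.mem_univ _)).elim), Pi.single_eq_same, one_mul]
    refine ⟨_, key z |>.trans ?_, key x |>.trans ?_⟩
    · rw [hi0, hz1, add_zero]
    · rw [hx0, hx1]; decide

/-- the indicator functions -/
noncomputable def ff (M : Fin t → Fin t → ZMod 2) : {x : Fin t → ZMod 2 // x ≠ 0} → ℚ :=
  fun y => if qf M y.1 = 1 then 1 else 0

theorem ff_mul (M N : Fin t → Fin t → ZMod 2) :
    ff M * ff N = (1 / 2 : ℚ) • (ff M + ff N - ff (M + N)) := by
  funext y
  simp only [ff, Pi.mul_apply, Pi.smul_apply, Pi.sub_apply, Pi.add_apply, smul_eq_mul, qf_add]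
  rcases zmod_cases (qf M y.1) with h1 | h1 <;> rcases zmod_cases (qf N y.1) with h2 | h2 <;>
    rw [h1, h2]
  · simp
  · simp
  · simp
  · have : (1 : ZMod 2) + 1 ≠ 1 := by decide
    rw [if_neg this]
    simp
    norm_num

theorem qr_card {y : Fin t → ZMod 2} (hy : y ≠ 0) :
    Nat.card {M : Fin t → Fin t → ZMod 2 // qf M y = 1} = 2 ^ (t ^ 2 - 1) := by
  obtain ⟨i0, hi0⟩ := exists_one hy
  have ht : 1 ≤ t := by
    have := i0.pos
    omega
  set E : Fin t → Fin t → ZMod 2 :=
    fun i l => (Pi.single i0 1 : Fin t → ZMod 2) i * (Pi.single i0 1 : Fin t → ZMod 2) l with hE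
  have hEy : qf E y = 1 := by
    rw [hE, qf_rank]
    rw [Finset.sum_eq_single i0 (fun b _ hb => by rw [Pi.single_eq_of_ne hb, zero_mul])
          (fun h => (h (Finset.mem_univ _)).elim), Pi.single_eq_same, one_mul, hi0, one_mul]
  have hEE : E + E = 0 := by
    funext i l
    simp only [Pi.add_apply, Pi.zero_apply]
    have : ∀ a : ZMod 2, a + a = 0 := by decide
    exact this _
  have hbij : Nat.card {M : Fin t → Fin t → ZMod 2 // qf M y = 1} =
      Nat.card {M : Fin t → Fin t → ZMod 2 // ¬ qf M y = 1} := by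
    apply Nat.card_congr
    refine ⟨fun M => ⟨M.1 + E, ?_⟩, fun M => ⟨M.1 + E, ?_⟩, ?_, ?_⟩
    · rw [qf_add, M.2, hEy]; decide
    · have h := (zmod_cases (qf M.1 y)).resolve_right M.2
      rw [qf_add, h, hEy]; decide
    · intro M
      apply Subtype.ext
      show M.1 + E + E = M.1
      rw [add_assoc, hEE, add_zero]
    · intro M
      apply Subtype.ext
      show M.1 + E + E = M.1
      rw [add_assoc, hEE, add_zero]
  have htot : Nat.card {M : Fin t → Fin t → ZMod 2 // qf M y = 1} +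
      Nat.card {M : Fin t → Fin t → ZMod 2 // ¬ qf M y = 1} = 2 ^ (t ^ 2) := by
    rw [Nat.card_eq_fintype_card, Nat.card_eq_fintype_card,
      Fintype.card_subtype_compl, ← Nat.add_sub_assoc (Fintype.card_subtype_le _),
      Nat.add_sub_cancel_left]
    simp only [Fintype.card_pi, ZMod.card, Finset.prod_const, Finset.card_univ, Fintype.card_fin]
    rw [← pow_mul, pow_two]
  have h2 : 2 ^ (t ^ 2) = 2 * 2 ^ (t ^ 2 - 1) := by
    rw [← pow_succ']
    congr 1
    have : 1 ≤ t ^ 2 := Nat.one_le_pow _ _ ht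
    omega
  omega

theorem qr_sep (x z : {x : Fin t → ZMod 2 // x ≠ 0}) (hzx : z ≠ x) :
    ∃ l : (Fin t → Fin t → ZMod 2) → ℚ, (∀ M, qf M x.1 = 1 → l M = 0) ∧
      ∀ y : {x : Fin t → ZMod 2 // x ≠ 0},
        ∑ M, (if qf M y.1 = 1 then l M else 0) = if z = y then 1 else 0 := by
  set S : Set ({x : Fin t → ZMod 2 // x ≠ 0} → ℚ) :=
    Set.range (fun M : {M : Fin t → Fin t → ZMod 2 // qf M x.1 = 0} => ff M.1) with hS
  have hmul : ∀ a b, a ∈ Submodule.span ℚ S → b ∈ Submodule.span ℚ S →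
      a * b ∈ Submodule.span ℚ S := by
    intro a b ha hb
    have h1 : a * b ∈ Submodule.span ℚ S * Submodule.span ℚ S := Submodule.mul_mem_mul ha hb
    rw [Submodule.span_mul_span] at h1
    refine (Submodule.span_le.2 ?_) h1
    rintro _ ⟨_, ⟨M, rfl⟩, _, ⟨N, rfl⟩, rfl⟩
    show ff M.1 * ff N.1 ∈ _
    rw [ff_mul]
    apply Submodule.smul_mem
    apply Submodule.sub_mem
    · exact Submodule.add_mem _ (Submodule.subset_span ⟨M, rfl⟩) (Submodule.subset_span ⟨N, rfl⟩)
    · apply Submodule.subset_span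
      refine ⟨⟨M.1 + N.1, ?_⟩, rfl⟩
      rw [qf_add, M.2, N.2, add_zero]
  have hsep : ∀ z' : {x : Fin t → ZMod 2 // x ≠ 0}, z' ≠ z → ∃ M : Fin t → Fin t → ZMod 2,
      qf M x.1 = 0 ∧ qf M z.1 = 1 ∧ qf M z'.1 = 0 := by
    intro z' hz'
    obtain ⟨a, ha1, ha2⟩ := sepfun z.2 (fun h => hzx (Subtype.ext h))
    obtain ⟨b, hb1, hb2⟩ := sepfun z.2 (fun h => hz' (Subtype.ext h).symm)
    refine ⟨fun i l => a i * b l, ?_, ?_, ?_⟩
    · rw [qf_rank, ha2, zero_mul]
    · rw [qf_rank, ha1, hb1, one_mul]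
    · rw [qf_rank, hb2, mul_zero]
  choose! Mz hM1 hM2 hM3 using hsep
  have hind : (fun y => if z = y then (1 : ℚ) else 0) ∈ Submodule.span ℚ S := by
    have h1 : ∏ z' ∈ Finset.univ.erase z, ff (Mz z') ∈ Submodule.span ℚ S := by
      apply Finset.prod_induction_nonempty (fun z' => ff (Mz z'))
        (fun a => a ∈ Submodule.span ℚ S) (fun a b ha hb => hmul a b ha hb)
      · exact ⟨x, Finset.mem_erase.2 ⟨hzx.symm, Finset.mem_univ _⟩⟩
      · intro z' hz'
        apply Submodule.subset_span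
        exact ⟨⟨Mz z', hM1 z' (Finset.ne_of_mem_erase hz')⟩, rfl⟩
    have h2 : (fun y => if z = y then (1 : ℚ) else 0) = ∏ z' ∈ Finset.univ.erase z, ff (Mz z') := by
      funext y
      rw [Finset.prod_apply]
      by_cases hy : z = y
      · rw [if_pos hy, ← hy]
        symm
        apply Finset.prod_eq_one
        intro z' hz'
        simp only [ff]
        rw [if_pos (hM2 z' (Finset.ne_of_mem_erase hz'))]
      · rw [if_neg hy]
        symm
        apply Finset.prod_eq_zero (Finset.mem_erase.2 ⟨fun h => hy h.symm, Finset.mem_univ y⟩)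
        simp only [ff]
        rw [hM3 y (fun h => hy h.symm), if_neg (by decide)]
    rw [h2]
    exact h1
  rw [hS, Submodule.mem_span_range_iff_exists_fun] at hind
  obtain ⟨c, hc⟩ := hind
  refine ⟨fun M => if h : qf M x.1 = 0 then c ⟨M, h⟩ else 0, ?_, ?_⟩
  · intro M hM
    have h0 : ¬ qf M x.1 = 0 := by rw [hM]; decide
    exact dif_neg h0
  · intro y
    have h1 := congrFun hc y
    rw [← h1, Finset.sum_apply]
    simp only [Pi.smul_apply, smul_eq_mul, ff]
    have h3 : ∀ M : {M : Fin t → Fin t → ZMod 2 // qf M x.1 = 0},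
        c M * (if qf M.1 y.1 = 1 then (1 : ℚ) else 0) =
          (fun M : Fin t → Fin t → ZMod 2 =>
            if qf M y.1 = 1 then (if h : qf M x.1 = 0 then c ⟨M, h⟩ else 0) else 0) M.1 := by
      intro M
      show _ = if qf M.1 y.1 = 1 then (if h : qf M.1 x.1 = 0 then c ⟨M.1, h⟩ else 0) else 0
      rw [dif_pos M.2]
      split_ifs <;> simp
    rw [Finset.sum_congr rfl (fun M _ => h3 M)]
    rw [← Finset.sum_subtype (Finset.univ.filter (fun M => qf M x.1 = 0))
      (fun M => by simp) (fun M : Fin t → Fin t → ZMod 2 =>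
            if qf M y.1 = 1 then (if h : qf M x.1 = 0 then c ⟨M, h⟩ else 0) else (0 : ℚ))]
    rw [Finset.sum_filter]
    refine Finset.sum_congr rfl fun M _ => ?_
    by_cases h : qf M x.1 = 0
    · rw [if_pos h]
    · rw [if_neg h, dif_neg h]
      split_ifs <;> rfl

theorem finsum_ite {Q Ω : Type} [Fintype Q] {A : Ω → Q → Prop} (y : Ω) (l : Q → ℚ) :
    (∑ᶠ M ∈ {M | A y M}, l M) = ∑ M, (if A y M then l M else 0) := by
  rw [finsum_eq_sum_of_fintype]
  refine Finset.sum_congr rfl fun M _ => ?_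
  by_cases h : A y M
  · rw [if_pos h]
    have : M ∈ {M | A y M} := h
    exact finsum_eq_single (fun _ : M ∈ {M | A y M} => l M) this (fun b hb => (hb rfl).elim)
  · rw [if_neg h]
    have : IsEmpty (M ∈ {M | A y M}) := ⟨fun hM => h hM⟩
    exact finsum_of_isEmpty _

theorem qr : QrStatement := by
  intro t ht
  refine ⟨fun y => qr_card y.2, ?_⟩
  intro x z hzx
  obtain ⟨l, h1, h2⟩ := qr_sep x z hzx
  refine ⟨l, h1, ?_⟩
  intro y
  rw [finsum_ite (A := fun (y : {x : Fin t → ZMod 2 // x ≠ 0}) M => qf M y.1 = 1)]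
  refine Eq.trans (Finset.sum_congr rfl fun M _ => ?_) ((h2 y).trans ?_)
  · split_ifs <;> rfl
  · split_ifs <;> rfl

end Pool.Agent.Lib.MP_50bb2e_nt.ND.QrH
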