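import Pool.Agent.Lib.MP_50bb2e_nt.ND.Iface

/-!
MP_50bb2e_nt, board ND, row UB: upper bound for the whole family.
-/

set_option autoImplicit false

open IsDedekindDomain NumberField Filter Topology

namespace Pool.Agent.Lib.MP_50bb2e_nt.ND

open Pool.Agent.Lib.MP_50bb2e_nt.PP

namespace Ub

variable {F : Type} [Field F] [NumberField F]

theorem one_le_nm (v : Pr F) : 1 ≤ nm v := by
  unfold nm
  rw [Nat.one_le_iff_ne_zero]
  intro h
  exact v.ne_bot (Ideal.absNorm_eq_zero_iff.mp h)

/-- the norm of the product of the primes of `T` -/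
noncomputable def N (T : Finset (Pr F)) : ℝ := ∏ v ∈ T, (nm v : ℝ)

theorem one_le_nmR (v : Pr F) : (1 : ℝ) ≤ nm v := by exact_mod_cast one_le_nm v

theorem one_le_N (T : Finset (Pr F)) : 1 ≤ N T := by
  unfold N
  classical
  induction T using Finset.induction_on with
  | empty => simp
  | insert v T hv ih =>
    rw [Finset.prod_insert hv]
    exact one_le_mul_of_one_le_of_one_le (one_le_nmR v) ih

theorem cond_N (χ : QChar F) : (χ.cond : ℝ) = N χ.T := by
  unfold QChar.cond N
  push_cast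
  rfl

open Classical in
theorem N_erase {T : Finset (Pr F)} {v : Pr F} (hv : v ∈ T) : N (T.erase v) * nm v = N T := by
  unfold N
  exact Finset.prod_erase_mul T (fun v : Pr F => (nm v : ℝ)) hv

open Classical in
/-- the number of sets of primes of small norm -/
theorem card_bound (A : Finset (Pr F)) (A0 : ℝ) (hA0 : 0 < A0)
    (hA : ∀ x : ℝ, 1 ≤ x → ∀ Φ : Finset (Pr F), (∀ v ∈ Φ, (nm v : ℝ) ≤ x) →
      ∑ v ∈ Φ, Real.log (nm v) ≤ A0 * x) (X : ℕ) (hX : 2 ≤ X) :
    Real.log X * (A.powerset.filter (fun T => N T ≤ (X : ℝ))).card ≤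
      (A0 + 1) * X * ∏ v ∈ A, (1 + 1 / (nm v : ℝ)) := by
  set TT := A.powerset.filter (fun T => N T ≤ (X : ℝ)) with hTT
  have hX0 : (0 : ℝ) < X := by positivity
  have hmem : ∀ T ∈ TT, T ⊆ A ∧ N T ≤ X := by
    intro T hT
    rw [hTT, Finset.mem_filter, Finset.mem_powerset] at hT
    exact hT
  have hsum1 : ∑ T ∈ TT, 1 / N T ≤ ∏ v ∈ A, (1 + 1 / (nm v : ℝ)) := by
    have h1 : ∏ v ∈ A, (1 + 1 / (nm v : ℝ)) = ∑ T ∈ A.powerset, 1 / N T := by
      have h2 : ∏ v ∈ A, (1 + 1 / (nm v : ℝ)) = ∏ v ∈ A, (1 / (nm v : ℝ) + 1) :=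
        Finset.prod_congr rfl fun v _ => add_comm _ _
      rw [h2, Finset.prod_add_one]
      refine Finset.sum_congr rfl fun T _ => ?_
      unfold N
      rw [one_div, ← Finset.prod_inv_distrib]
      exact Finset.prod_congr rfl fun v _ => one_div _
    rw [h1]
    refine Finset.sum_le_sum_of_subset_of_nonneg (Finset.filter_subset _ _) fun T _ _ => ?_
    have := one_le_N T
    positivity
  -- (a)
  have ha : ∑ T ∈ TT, Real.log (X / N T) ≤ X * ∑ T ∈ TT, 1 / N T := by
    rw [Finset.mul_sum]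
    refine Finset.sum_le_sum fun T hT => ?_
    have h1 := one_le_N T
    have h2 : (0 : ℝ) < X / N T := by positivity
    have h3 := Real.log_le_sub_one_of_pos h2
    calc Real.log (X / N T) ≤ X / N T - 1 := h3
      _ ≤ X / N T := by linarith
      _ = X * (1 / N T) := by ring
  -- (b)
  have hb : ∑ T ∈ TT, Real.log (N T) ≤ A0 * X * ∑ T ∈ TT, 1 / N T := by
    have e1 : ∑ T ∈ TT, Real.log (N T) = ∑ T ∈ TT, ∑ v ∈ A, (if v ∈ T then Real.log (nm v) else 0) := by
      refine Finset.sum_congr rfl fun T hT => ?_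
      rw [← Finset.sum_filter]
      have h1 : A.filter (fun v => v ∈ T) = T := by
        ext v
        rw [Finset.mem_filter]
        exact ⟨fun h => h.2, fun h => ⟨(hmem T hT).1 h, h⟩⟩
      rw [h1]
      unfold N
      rw [Real.log_prod]
      intro v _
      have := one_le_nmR v
      positivity
    have e2 : ∀ v ∈ A, ∑ T ∈ TT, (if v ∈ T then Real.log (nm v) else 0) ≤
        ∑ T ∈ TT, (if (nm v : ℝ) ≤ X / N T then Real.log (nm v) else 0) := by
      intro v hv
      rw [← Finset.sum_filter, ← Finset.sum_filter, Finset.sum_const, Finset.sum_const,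
        nsmul_eq_mul, nsmul_eq_mul]
      refine mul_le_mul_of_nonneg_right ?_ (Real.log_nonneg (one_le_nmR v))
      norm_cast
      refine Finset.card_le_card_of_injOn (fun T => T.erase v) ?_ ?_
      · intro T hT
        rw [Finset.mem_coe, Finset.mem_filter] at hT
        obtain ⟨h1, h2⟩ := hT
        have h3 := hmem T h1
        have h4 := N_erase h2
        have h5 := one_le_N (T.erase v)
        have h6 := one_le_nmR v
        show T.erase v ∈ (↑(TT.filter fun T => (nm v : ℝ) ≤ X / N T) : Set (Finset (Pr F)))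
        rw [Finset.mem_coe, Finset.mem_filter]
        constructor
        · rw [hTT, Finset.mem_filter, Finset.mem_powerset]
          refine ⟨(Finset.erase_subset _ _).trans h3.1, ?_⟩
          calc N (T.erase v) = N (T.erase v) * 1 := (mul_one _).symm
            _ ≤ N (T.erase v) * nm v := mul_le_mul_of_nonneg_left h6 (by linarith)
            _ = N T := h4
            _ ≤ X := h3.2
        · rw [le_div_iff₀ (by linarith), mul_comm, h4]
          exact h3.2
      · intro T hT T' hT' h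
        rw [Finset.mem_coe, Finset.mem_filter] at hT hT'
        have h' : T.erase v = T'.erase v := h
        rw [← Finset.insert_erase hT.2, h', Finset.insert_erase hT'.2]
    have e3 : ∀ T ∈ TT, ∑ v ∈ A, (if (nm v : ℝ) ≤ X / N T then Real.log (nm v) else 0) ≤
        A0 * X * (1 / N T) := by
      intro T hT
      have h1 := one_le_N T
      have h2 : 1 ≤ (X : ℝ) / N T := by
        rw [le_div_iff₀ (by linarith), one_mul]
        exact (hmem T hT).2
      rw [← Finset.sum_filter]
      refine (hA (X / N T) h2 _ fun v hv => (Finset.mem_filter.1 hv).2).trans (le_of_eq ?_)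
      ring
    rw [e1, Finset.sum_comm]
    refine (Finset.sum_le_sum e2).trans ?_
    rw [Finset.sum_comm, Finset.mul_sum]
    exact Finset.sum_le_sum e3
  have hsplit : Real.log X * TT.card = ∑ T ∈ TT, Real.log (N T) + ∑ T ∈ TT, Real.log (X / N T) := by
    rw [← Finset.sum_add_distrib]
    have h1 : ∀ T ∈ TT, Real.log (N T) + Real.log (X / N T) = Real.log X := by
      intro T _
      have h2 := one_le_N T
      rw [Real.log_div (by positivity) (by positivity)]
      ring
    rw [Finset.sum_congr rfl h1, Finset.sum_const, nsmul_eq_mul, mul_comm]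
  rw [hsplit]
  have h5 : (A0 + 1) * X * ∑ T ∈ TT, 1 / N T ≤ (A0 + 1) * X * ∏ v ∈ A, (1 + 1 / (nm v : ℝ)) :=
    mul_le_mul_of_nonneg_left hsum1 (by positivity)
  linarith

end Ub

open Ub in
theorem ub (h1 : NtStatement) (h2 : FinStatement) : UbStatement := by
  classical
  intro F _ _
  obtain ⟨C0, hC0⟩ := h2 F
  obtain ⟨_, A0, hA0, hA⟩ := h1 F
  refine ⟨(C0 + 1) * (A0 + 1), by positivity, ?_⟩
  intro P X hX A hPA
  have hcb := card_bound A A0 hA0 (fun x hx Φ hΦ => (hA x hx Φ hΦ).1) X hX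
  set TT := A.powerset.filter (fun T => N T ≤ (X : ℝ)) with hTT
  have hX0 : (0 : ℝ) < X := by positivity
  have hlog : 0 < Real.log X := Real.log_pos (by exact_mod_cast hX)
  have hsub : {χ : QChar F | (χ.T : Set (Pr F)) ⊆ P ∧ χ.cond ≤ X} ⊆
      ⋃ T ∈ TT, {χ : QChar F | χ.T = T} := by
    rintro χ ⟨h3, h4⟩
    have h5 : N χ.T ≤ (X : ℝ) := by
      rw [← cond_N]
      exact_mod_cast h4
    have h6 : χ.T ∈ TT := by
      rw [hTT, Finset.mem_filter, Finset.mem_powerset]
      refine ⟨fun v hv => hPA v (h3 hv) ?_, h5⟩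
      have h7 : (nm v : ℝ) ≤ N χ.T := by
        rw [← N_erase hv]
        exact le_mul_of_one_le_left (by positivity) (one_le_N _)
      exact_mod_cast h7.trans h5
    exact Set.mem_biUnion (x := χ.T) h6 rfl
  have hfin : (⋃ T ∈ TT, {χ : QChar F | χ.T = T}).Finite :=
    Set.Finite.biUnion (Finset.finite_toSet TT) fun T _ => (hC0 T).1
  have h8 : Set.ncard {χ : QChar F | (χ.T : Set (Pr F)) ⊆ P ∧ χ.cond ≤ X} ≤ TT.card * C0 := by
    refine (Set.ncard_le_ncard hsub hfin).trans ((Finset.set_ncard_biUnion_le _ _).trans ?_)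
    refine (Finset.sum_le_sum fun T _ => (hC0 T).2).trans (le_of_eq ?_)
    rw [Finset.sum_const, smul_eq_mul]
  have h9 : (Set.ncard {χ : QChar F | (χ.T : Set (Pr F)) ⊆ P ∧ χ.cond ≤ X} : ℝ) ≤ TT.card * C0 := by
    exact_mod_cast h8
  have hPi : (0 : ℝ) ≤ ∏ v ∈ A, (1 + 1 / (nm v : ℝ)) := Finset.prod_nonneg fun v _ => by positivity
  have h10 : (TT.card : ℝ) ≤ (A0 + 1) * (X / Real.log X) * ∏ v ∈ A, (1 + 1 / (nm v : ℝ)) := by
    have h11 : (A0 + 1) * (X / Real.log X) * ∏ v ∈ A, (1 + 1 / (nm v : ℝ)) =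
        ((A0 + 1) * X * ∏ v ∈ A, (1 + 1 / (nm v : ℝ))) / Real.log X := by ring
    rw [h11, le_div_iff₀ hlog, mul_comm]
    exact hcb
  calc (Set.ncard {χ : QChar F | (χ.T : Set (Pr F)) ⊆ P ∧ χ.cond ≤ X} : ℝ) ≤ TT.card * C0 := h9
    _ ≤ TT.card * (C0 + 1) := mul_le_mul_of_nonneg_left (by linarith) (by positivity)
    _ ≤ ((A0 + 1) * (X / Real.log X) * ∏ v ∈ A, (1 + 1 / (nm v : ℝ))) * (C0 + 1) :=
      mul_le_mul_of_nonneg_right h10 (by positivity)
    _ = (C0 + 1) * (A0 + 1) * (X / Real.log X) * ∏ v ∈ A, (1 + 1 / (nm v : ℝ)) := by ring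

end Pool.Agent.Lib.MP_50bb2e_nt.ND
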