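import Pool.Agent.Lib.MP_50bb2e_nt.PP.All
import Pool.Agent.Lib.MP_50bb2e_nt.ND.Chr
import Pool.Agent.Lib.MP_50bb2e_nt.ND.Cnt
import Pool.Agent.Lib.MP_50bb2e_nt.ND.Dsg
import Pool.Agent.Lib.MP_50bb2e_nt.ND.GoodPP
import Pool.Agent.Lib.MP_50bb2e_nt.ND.Lat
import Pool.Agent.Lib.MP_50bb2e_nt.ND.Ld
import Pool.Agent.Lib.MP_50bb2e_nt.ND.Lda
import Pool.Agent.Lib.MP_50bb2e_nt.ND.Ldb
import Pool.Agent.Lib.MP_50bb2e_nt.ND.Ldc
import Pool.Agent.Lib.MP_50bb2e_nt.ND.Locc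
import Pool.Agent.Lib.MP_50bb2e_nt.ND.Mer
import Pool.Agent.Lib.MP_50bb2e_nt.ND.Msum
import Pool.Agent.Lib.MP_50bb2e_nt.ND.Nd
import Pool.Agent.Lib.MP_50bb2e_nt.ND.Nt
import Pool.Agent.Lib.MP_50bb2e_nt.ND.Qe
import Pool.Agent.Lib.MP_50bb2e_nt.ND.QrH
import Pool.Agent.Lib.MP_50bb2e_nt.ND.Ub

/-!
MP_50bb2e_nt, board ND: positive lower natural density, main theorem.
-/

open IsDedekindDomain NumberField Filter Topology

namespace Pool.Agent.Lib.MP_50bb2e_nt.ND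

open Pool.Agent.Lib.MP_50bb2e_nt.PP

theorem locc' : LoccStatement := locc QrH.qr (Cnt.cnt lat) (dsg qe (chr crt ray'))

theorem msum' : MsumStatement := msum locc' (summ fin') inj'

theorem ld' : LdStatement :=
  ld (lda sel qs_proof (ext_proof crt qs_proof)) (ldb mixH prim' fin') (ldc nt fin') (mer nt) nt

theorem ndMain : NdStatement := nd msum' ld' (mer nt) (ub nt fin') nt (summ fin')

/-- positive lower natural density of the simultaneous non-vanishing -/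
theorem lowerDensity (F : Type) [Field F] [NumberField F] (ι : Type) [Fintype ι] [Nonempty ι]
    (c : ι → Ideal (𝓞 F) → ℂ) (w : AbsoluteValue ℂ ℝ) (B : ι → ℝ)
    (P : Set (Pr F)) (η : ι → Pr F → ℂ) (j : ℕ) (L : ι → ℂ → ℂ)
    (hS : ∀ i, Setting (c i) w (B i) P (η i)) (hL : ∀ i, Cont (c i) (L i))
    (hbig : (w 2) ^ (j + 1) * ∏ i, B i < ∏ i, w (L i 1)) (S : Set (Pr F)) (hSf : S.Finite)
    (hC : ∃ a : ℝ, 0 < a ∧ ∀ᶠ Y : ℕ in atTop, a * Y / Real.log Y ≤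
      Set.ncard {v : Pr F | Y < nm v ∧ nm v ≤ 2 * Y ∧ ∃ χ ∈ Fam P S, χ.T = {v}}) :
    ∃ κ : ℝ, 0 < κ ∧ ∀ᶠ X : ℕ in atTop,
      κ * Set.ncard {χ : QChar F | χ ∈ Fam P S ∧ χ.cond ≤ X} ≤
        Set.ncard {χ : QChar F | χ ∈ Fam P S ∧ (∀ i, NonVan (c i) χ) ∧ χ.cond ≤ X} := by
  obtain ⟨hG, hLg⟩ := good_pp ray' inj' lmain' F ι c w B P η j L hS hL hbig
  obtain ⟨i0⟩ : Nonempty ι := inferInstance
  obtain ⟨κ, hκ, hev⟩ := ndMain F P S j _ hG (hS i0).odd hSf hC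
  refine ⟨κ, hκ, ?_⟩
  filter_upwards [hev] with X hX
  refine hX.trans ?_
  have hfin : {χ : QChar F | χ.cond ≤ X}.Finite := (summ fin' F).1 X
  have := Set.ncard_le_ncard (s := {χ : QChar F | χ ∈ Fam P S ∧
      LgCV CVP c w ((w 2) ^ (j + 1) * ∏ i, B i) χ ∧ χ.cond ≤ X})
    (t := {χ : QChar F | χ ∈ Fam P S ∧ (∀ i, NonVan (c i) χ) ∧ χ.cond ≤ X})
    (fun χ hχ => ⟨hχ.1, hLg χ hχ.2.1, hχ.2.2⟩) (hfin.subset (fun χ hχ => hχ.2.2))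
  exact_mod_cast this

end Pool.Agent.Lib.MP_50bb2e_nt.ND
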