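import Pool.Agent.Lib.MP_50bb2e_nt.PP.Iface

/-!
MP_50bb2e_nt, board ND: positive lower natural density. Statements of the modules.
-/

open IsDedekindDomain NumberField Filter Topology

namespace Pool.Agent.Lib.MP_50bb2e_nt.ND

open Pool.Agent.Lib.MP_50bb2e_nt.PP

open Classical in
/-- `Lg` (large value) is a predicate with the group property and the design property. -/
structure Good {F : Type} [Field F] [NumberField F] (P : Set (Pr F)) (j : ℕ)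
    (Lg : QChar F → Prop) : Prop where
  grp : ∀ V : Finset (QChar F), V.Nonempty → (∀ χ ∈ V, (χ.T : Set (Pr F)) ⊆ P) →
    Closed (V : Set (QChar F)) → V.card ≤ 2 ^ j * (V.filter Lg).card
  des : ∀ (X : Type) [Fintype X] (x0 : X) (ρ : X → QChar F),
    (∀ x, ((ρ x).T : Set (Pr F)) ⊆ P) →
    (∀ a : Ideal (𝓞 F), (∀ x, (ρ x).chi a ≠ 0) → (2 : ℤ) ^ (j + 1) ∣ ∑ x, (ρ x).chi a) →
    Lg (ρ x0) → ∃ x, x ≠ x0 ∧ Lg (ρ x)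

/-- The primes which are the conductor of a member of the family. -/
def PC {F : Type} [Field F] [NumberField F] (P S : Set (Pr F)) : Set (Pr F) :=
  {v | ∃ χ ∈ Fam P S, χ.T = {v}}

/-- `U` contains at least `a Y / log Y` primes of norm in `(Y, 2Y]` for large `Y`. -/
def Cheb {F : Type} [Field F] [NumberField F] (U : Set (Pr F)) : Prop :=
  ∃ a : ℝ, 0 < a ∧ ∀ᶠ Y : ℕ in atTop,
    a * Y / Real.log Y ≤ Set.ncard {v : Pr F | Y < nm v ∧ nm v ≤ 2 * Y ∧ v ∈ U}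

/-- THE THEOREM OF THE BOARD: positive lower natural density -/
def NdStatement : Prop :=
  ∀ (F : Type) [Field F] [NumberField F] (P S : Set (Pr F)) (j : ℕ) (Lg : QChar F → Prop),
    Good P j Lg → (∀ v ∈ P, Odd (nm v)) → S.Finite → Cheb (PC P S) →
    ∃ κ : ℝ, 0 < κ ∧ ∀ᶠ X : ℕ in atTop,
      κ * Set.ncard {χ : QChar F | χ ∈ Fam P S ∧ χ.cond ≤ X} ≤
        Set.ncard {χ : QChar F | χ ∈ Fam P S ∧ Lg χ ∧ χ.cond ≤ X}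

/-! ### the design -/

/-- quadratic form of a matrix over `F_2` -/
def qf {t : ℕ} (M : Fin t → Fin t → ZMod 2) (x : Fin t → ZMod 2) : ZMod 2 :=
  ∑ i, ∑ l, M i l * x i * x l

/-- row QE: divisibility of the exponential sum of a quadratic form -/
def QeStatement : Prop :=
  ∀ (j : ℕ) (M : Fin (2 * j + 2) → Fin (2 * j + 2) → ZMod 2),
    (2 : ℤ) ^ (j + 1) ∣ ∑ x : Fin (2 * j + 2) → ZMod 2, (if qf M x = 1 then (-1 : ℤ) else 1)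

open Classical in
/-- An incidence system: `A x M` says that the prime with index `M` is used in the member `x` of
the design. -/
structure Inc (Q Ω : Type) [Fintype Q] [Fintype Ω] (A : Ω → Q → Prop) (k : ℕ) : Prop where
  card : ∀ y, Nat.card {M : Q // A y M} = k
  sep : ∀ x z : Ω, z ≠ x → ∃ l : Q → ℚ, (∀ M, A x M → l M = 0) ∧
    ∀ y, (∑ᶠ M ∈ {M | A y M}, l M) = if z = y then 1 else 0

/-- row QR: the quadratic forms are an incidence system -/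
def QrStatement : Prop :=
  ∀ t : ℕ, 1 ≤ t → Inc (Fin t → Fin t → ZMod 2) {x : Fin t → ZMod 2 // x ≠ 0}
    (fun x M => qf M x.1 = 1) (2 ^ (t ^ 2 - 1))

open Classical in
/-- row LAT: many integral points `u` with `sum over M in H_y of u(M) = k u0` for all `y`, with
small fibres over the restrictions to `H_x` -/
def LatStatement : Prop :=
  ∀ (Q Ω : Type) [Fintype Q] [Fintype Ω] (A : Ω → Q → Prop) (k : ℕ), 1 ≤ k → Nonempty Ω →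
    Inc Q Ω A k → ∃ C : ℕ, ∀ u0 : ℕ, 1 ≤ u0 → ∃ U : Finset (Q → ℕ), U.Nonempty ∧
      (∀ u ∈ U, ∀ y, ∑ M : Q, (if A y M then u M else 0) = k * u0) ∧
      (∀ u ∈ U, ∀ M, u0 ≤ 2 * u M ∧ u M ≤ 2 * u0) ∧
      ∀ (x : Ω) (h : Q → ℕ),
        (U.filter (fun u => ∀ M, A x M → u M = h M)).card * u0 ^ (k - 1) ≤ C * U.card

/-- row CNT: counting -/
def CntStatement : Prop :=
  ∀ (Q Ω : Type) [Fintype Q] [Fintype Ω] (A : Ω → Q → Prop) (k : ℕ), 1 ≤ k → Nonempty Ω →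
    Inc Q Ω A k → ∀ (a : ℝ) (u1 : ℕ), 0 < a → ∃ (c : ℝ) (u2 : ℕ), 0 < c ∧
    ∀ m : ℕ → ℕ, (∀ u, u1 ≤ u → a * 2 ^ u / u ≤ m u) →
    ∀ Gd : (x : Ω) → ({M : Q // A x M} → ℕ) → ({M : Q // A x M} → ℕ) → Prop,
    ∀ u0 : ℕ, u2 ≤ u0 →
    (∀ u f : Q → ℕ, (∀ M, u0 ≤ 2 * u M ∧ u M ≤ 2 * u0) → (∀ M, f M < m (u M)) →
      ∃ x, Gd x (fun M => u M.1) (fun M => f M.1)) →
    ∃ x, c * 2 ^ (k * u0) / u0 ≤
      Set.ncard {p : ({M : Q // A x M} → ℕ) × ({M : Q // A x M} → ℕ) |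
        (∀ M, u0 ≤ 2 * p.1 M) ∧ (∑ᶠ M, p.1 M) = k * u0 ∧ (∀ M, p.2 M < m (p.1 M)) ∧
        Gd x p.1 p.2}

/-! ### characters -/

/-- row CHR: multiplication by characters of prime conductor -/
def ChrStatement : Prop :=
  ∀ (F : Type) [Field F] [NumberField F] (P S : Set (Pr F)) (χ : QChar F) (ch : Pr F → QChar F)
    (R : Finset (Pr F)), χ ∈ Fam P S → (∀ v ∈ R, ch v ∈ Fam P S ∧ (ch v).T = {v}) →
    (∀ v ∈ R, v ∉ χ.T) →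
    ∃ ρ ∈ Fam P S, (∀ v, v ∈ ρ.T ↔ v ∈ χ.T ∨ v ∈ R) ∧
      ρ.cond = χ.cond * ∏ v ∈ R, nm v ∧
      ∀ a, ρ.chi a = χ.chi a * ∏ v ∈ R, (ch v).chi a

/-- row DSG: one step of the design -/
def DsgStatement : Prop :=
  ∀ (F : Type) [Field F] [NumberField F] (P S : Set (Pr F)) (j : ℕ) (Lg : QChar F → Prop),
    Good P j Lg → ∀ (χ : QChar F) (ch : Pr F → QChar F), χ ∈ Fam P S → Lg χ →
    ∀ p : (Fin (2 * j + 2) → Fin (2 * j + 2) → ZMod 2) → Pr F, Function.Injective p →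
    (∀ M, ch (p M) ∈ Fam P S ∧ (ch (p M)).T = {p M} ∧ p M ∉ χ.T) →
    ∃ x : {x : Fin (2 * j + 2) → ZMod 2 // x ≠ 0}, ∃ ρ ∈ Fam P S, Lg ρ ∧
      (∀ v, v ∈ ρ.T ↔ v ∈ χ.T ∨ ∃ M, qf M x.1 = 1 ∧ v = p M) ∧
      ρ.cond = χ.cond * ∏ᶠ M ∈ {M | qf M x.1 = 1}, nm (p M) ∧
      ∀ a, ρ.chi a = χ.chi a * ∏ᶠ M ∈ {M | qf M x.1 = 1}, (ch (p M)).chi a

/-- row LOCC: number of large `χ * Pi_R`, `R` a set of `k` primes with product at most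
`2 ^ (k u0 + k)` -/
def LoccStatement : Prop :=
  ∀ (F : Type) [Field F] [NumberField F] (P S : Set (Pr F)) (j : ℕ) (Lg : QChar F → Prop),
    Good P j Lg → Cheb (PC P S) → ∀ ch : Pr F → QChar F,
    (∀ v ∈ PC P S, ch v ∈ Fam P S ∧ (ch v).T = {v}) →
    ∃ (k : ℕ) (c : ℝ) (u2 : ℕ), 1 ≤ k ∧ 0 < c ∧ ∀ u0 : ℕ, u2 ≤ u0 →
      ∀ χ : QChar F, χ ∈ Fam P S → Lg χ → (∀ v ∈ χ.T, (nm v) ^ 2 ≤ 2 ^ u0) →
      ∃ W : Finset (Finset (Pr F)), c * 2 ^ (k * u0) / u0 ≤ W.card ∧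
        ∀ R ∈ W, (∀ v ∈ R, v ∈ PC P S ∧ 2 ^ u0 < (nm v) ^ 2) ∧
          ∏ v ∈ R, nm v ≤ 2 ^ (k * u0 + k) ∧
          ∃ ρ ∈ Fam P S, Lg ρ ∧ (∀ v, v ∈ ρ.T ↔ v ∈ χ.T ∨ v ∈ R) ∧
            ρ.cond = χ.cond * ∏ v ∈ R, nm v ∧
            ∀ a, ρ.chi a = χ.chi a * ∏ v ∈ R, (ch v).chi a

/-- row MSUM: from large characters of small conductor to all -/
def MsumStatement : Prop :=
  ∀ (F : Type) [Field F] [NumberField F] (P S : Set (Pr F)) (j : ℕ) (Lg : QChar F → Prop),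
    Good P j Lg → Cheb (PC P S) →
    ∃ (c e : ℝ) (X0 : ℕ), 0 < c ∧ 0 < e ∧ e ≤ 1 ∧ ∀ X : ℕ, X0 ≤ X →
      ∀ Φ : Finset (QChar F),
        (∀ χ ∈ Φ, χ ∈ Fam P S ∧ Lg χ ∧ (χ.cond : ℝ) ≤ (X : ℝ) ^ e) →
        c * (X / Real.log X) * ∑ χ ∈ Φ, 1 / (χ.cond : ℝ) ≤
          Set.ncard {χ : QChar F | χ ∈ Fam P S ∧ Lg χ ∧ χ.cond ≤ X}

/-! ### analytic part -/

/-- row NT: Chebyshev and Mertens upper bounds -/
def NtStatement : Prop :=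
  ∀ (F : Type) [Field F] [NumberField F],
    (∀ X : ℝ, {v : Pr F | (nm v : ℝ) ≤ X}.Finite) ∧
    ∃ A : ℝ, 0 < A ∧ ∀ x : ℝ, 1 ≤ x → ∀ Φ : Finset (Pr F), (∀ v ∈ Φ, (nm v : ℝ) ≤ x) →
      ∑ v ∈ Φ, Real.log (nm v) ≤ A * x ∧
      ∑ v ∈ Φ, Real.log (nm v) / nm v ≤ A * (1 + Real.log x)

/-- row MER -/
def MerStatement : Prop :=
  ∀ (F : Type) [Field F] [NumberField F] (e : ℝ), 0 < e → ∃ C : ℝ, 0 < C ∧
    ∀ x : ℝ, 2 ≤ x → ∀ Φ : Finset (Pr F), (∀ v ∈ Φ, x ^ e < (nm v : ℝ) ∧ (nm v : ℝ) ≤ x) →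
      ∏ v ∈ Φ, (1 + 1 / (nm v : ℝ)) ≤ C

/-- row LDA: lower bound for the whole family (Selmer group) -/
def LdaStatement : Prop :=
  ∀ (F : Type) [Field F] [NumberField F] (P S : Set (Pr F)), (∀ v ∈ P, Odd (nm v)) → S.Finite →
    ∃ c : ℝ, 0 < c ∧ ∀ A : Finset (Pr F), (A : Set (Pr F)) ⊆ P →
      ∃ Φ : Finset (QChar F), (∀ χ ∈ Φ, χ ∈ Fam P S ∧ χ.T ⊆ A) ∧
        c * ∏ v ∈ A, (1 + 1 / (nm v : ℝ)) ≤ ∑ χ ∈ Φ, 1 / (χ.cond : ℝ)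

/-- row LDB: the large characters in the family, log density in cubes -/
def LdbStatement : Prop :=
  ∀ (F : Type) [Field F] [NumberField F] (P S : Set (Pr F)) (j : ℕ) (Lg : QChar F → Prop),
    Good P j Lg → ∀ (A : Finset (Pr F)) (Φ : Finset (QChar F)),
      (∀ χ ∈ Φ, χ ∈ Fam P S ∧ χ.T ⊆ A) →
      ∃ Φ' : Finset (QChar F), (∀ χ ∈ Φ', χ ∈ Fam P S ∧ Lg χ ∧ χ.T ⊆ A) ∧
        ∑ χ ∈ Φ, 1 / (χ.cond : ℝ) ≤ 2 ^ j * ∑ χ ∈ Φ', 1 / (χ.cond : ℝ)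

/-- row LDC: the tail (Rankin) -/
def LdcStatement : Prop :=
  ∀ (F : Type) [Field F] [NumberField F] (δ : ℝ), 0 < δ → ∃ K : ℝ, 1 ≤ K ∧
    ∀ z : ℝ, 2 ≤ z → ∀ A : Finset (Pr F), (∀ v ∈ A, (nm v : ℝ) ≤ z) →
      ∀ Φ : Finset (QChar F), (∀ χ ∈ Φ, χ.T ⊆ A ∧ z ^ K < (χ.cond : ℝ)) →
        ∑ χ ∈ Φ, 1 / (χ.cond : ℝ) ≤ δ * ∏ v ∈ A, (1 + 1 / (nm v : ℝ))

/-- row LD: lower bound for the large characters with small conductor -/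
def LdStatement : Prop :=
  ∀ (F : Type) [Field F] [NumberField F] (P S : Set (Pr F)) (j : ℕ) (Lg : QChar F → Prop),
    Good P j Lg → (∀ v ∈ P, Odd (nm v)) → S.Finite →
    ∃ c : ℝ, 0 < c ∧ ∀ Y : ℝ, 1 ≤ Y → ∀ A : Finset (Pr F),
      (∀ v ∈ A, v ∈ P ∧ (nm v : ℝ) ≤ Y) →
      ∃ Φ : Finset (QChar F), (∀ χ ∈ Φ, χ ∈ Fam P S ∧ Lg χ ∧ (χ.cond : ℝ) ≤ Y) ∧
        c * ∏ v ∈ A, (1 + 1 / (nm v : ℝ)) ≤ ∑ χ ∈ Φ, 1 / (χ.cond : ℝ)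

/-- row UB: upper bound for the whole family -/
def UbStatement : Prop :=
  ∀ (F : Type) [Field F] [NumberField F], ∃ C : ℝ, 0 < C ∧ ∀ (P : Set (Pr F)) (X : ℕ), 2 ≤ X →
    ∀ A : Finset (Pr F), (∀ v, v ∈ P → nm v ≤ X → v ∈ A) →
      (Set.ncard {χ : QChar F | (χ.T : Set (Pr F)) ⊆ P ∧ χ.cond ≤ X} : ℝ) ≤
        C * (X / Real.log X) * ∏ v ∈ A, (1 + 1 / (nm v : ℝ))

end Pool.Agent.Lib.MP_50bb2e_nt.ND
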