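import Pool.Agent.Lib.MP_50bb2e_nt.ND.Iface

/-!
MP_50bb2e_nt, board ND, row LOCC: the number of large characters `χ * Π_R`, `R` a set of `k` primes.
-/

open IsDedekindDomain NumberField Filter Topology

namespace Pool.Agent.Lib.MP_50bb2e_nt.ND

open Pool.Agent.Lib.MP_50bb2e_nt.PP

namespace Locc

/-- `2 ^ u / u` tends to infinity. -/
theorem big (C : ℝ) : ∃ u1 : ℕ, 1 ≤ u1 ∧ ∀ u : ℕ, u1 ≤ u → C ≤ (2 : ℝ) ^ u / u := by
  have h := tendsto_pow_const_div_const_pow_of_one_lt 1 (r := (2 : ℝ)) one_lt_two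
  have h' : Tendsto (fun u : ℕ => ((u : ℝ) / 2 ^ u)) atTop (𝓝 0) := by simpa using h
  have hC : (0 : ℝ) < 1 / (|C| + 1) := by positivity
  obtain ⟨u1, hu1⟩ := eventually_atTop.1 ((h'.eventually (gt_mem_nhds hC)))
  refine ⟨max u1 1, le_max_right _ _, fun u hu => ?_⟩
  have h1 := hu1 u (le_trans (le_max_left _ _) hu)
  have h2 : (0 : ℝ) < u := by
    have : 1 ≤ u := le_trans (le_max_right _ _) hu
    exact_mod_cast this
  have h3 : (0 : ℝ) < 2 ^ u := by positivity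
  rw [div_lt_div_iff₀ h3 (by positivity)] at h1
  rw [le_div_iff₀ h2]
  have := le_abs_self C
  nlinarith

variable {F : Type} [Field F] [NumberField F]

/-- the window -/
def Wn (U : Set (Pr F)) (u : ℕ) : Set (Pr F) := {v | 2 ^ u < nm v ∧ nm v ≤ 2 ^ (u + 1) ∧ v ∈ U}

theorem wn_disj {U : Set (Pr F)} {u u' : ℕ} {v : Pr F} (h : v ∈ Wn U u) (h' : v ∈ Wn U u') : u = u' := by
  obtain ⟨h1, h2, -⟩ := h
  obtain ⟨h3, h4, -⟩ := h'
  have h5 : 2 ^ u < 2 ^ (u' + 1) := lt_of_lt_of_le h1 h4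
  have h6 : 2 ^ u' < 2 ^ (u + 1) := lt_of_lt_of_le h3 h2
  rw [Nat.pow_lt_pow_iff_right (by norm_num)] at h5 h6
  omega

/-- the size of the windows -/
theorem wn_card {U : Set (Pr F)} (hU : Cheb U) (K : ℕ) (hK : 0 < K) : ∃ (a : ℝ) (u1 : ℕ), 0 < a ∧
    ∀ u : ℕ, u1 ≤ u → a * 2 ^ u / u ≤ ((Wn U u).ncard / K : ℕ) := by
  obtain ⟨a, ha, h⟩ := hU
  obtain ⟨Y0, hY0⟩ := eventually_atTop.1 h
  have hK' : (0 : ℝ) < K := by exact_mod_cast hK
  obtain ⟨u1, hu1, hb⟩ := big (2 * K / a)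
  refine ⟨a / (2 * K), max u1 Y0, by positivity, fun u hu => ?_⟩
  have hu0 : 1 ≤ u := le_trans hu1 (le_trans (le_max_left _ _) hu)
  have hu' : (0 : ℝ) < u := by exact_mod_cast hu0
  have h1 := hY0 (2 ^ u) (le_trans (le_trans (le_max_right _ _) hu) Nat.lt_two_pow_self.le)
  have h2 : {v : Pr F | 2 ^ u < nm v ∧ nm v ≤ 2 * 2 ^ u ∧ v ∈ U} = Wn U u := by
    ext v
    simp only [Wn, Set.mem_ofPred_eq, pow_succ, mul_comm]
  rw [h2] at h1
  have hlog : Real.log ((2 ^ u : ℕ) : ℝ) = u * Real.log 2 := by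
    push_cast
    rw [Real.log_pow]
  rw [hlog] at h1
  push_cast at h1
  have hl2 : (0 : ℝ) < Real.log 2 := Real.log_pos one_lt_two
  have hl2' : Real.log 2 ≤ 1 := by
    have := Real.log_two_lt_d9
    linarith
  have h3 : a * 2 ^ u / u ≤ a * 2 ^ u / (u * Real.log 2) := by
    apply div_le_div_of_nonneg_left (by positivity) (by positivity)
    nlinarith
  have h4 := hb u (le_trans (le_max_left _ _) hu)
  have h5 : a * 2 ^ u / u ≤ ((Wn U u).ncard : ℝ) := le_trans h3 h1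
  have h6 : ((Wn U u).ncard : ℝ) < K * (((Wn U u).ncard / K : ℕ) + 1) := by
    have := Nat.lt_mul_div_succ (Wn U u).ncard hK
    exact_mod_cast this
  have h7 : 2 * (K : ℝ) ≤ a * 2 ^ u / u := by
    rw [div_le_iff₀ ha] at h4
    calc 2 * (K : ℝ) ≤ 2 ^ u / u * a := h4
      _ = a * 2 ^ u / u := by ring
  have h8 : a / (2 * K) * 2 ^ u / u = (a * 2 ^ u / u) / (2 * K) := by
    field_simp
  rw [h8, div_le_iff₀ (by positivity)]
  nlinarith

open Classical in
/-- the primes -/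
theorem exists_e {U : Set (Pr F)} (v0 : Pr F) (Q : Type) [Fintype Q] :
    ∃ e : ℕ → Q → ℕ → Pr F,
      (∀ u M n, n < (Wn U u).ncard / Fintype.card Q → e u M n ∈ Wn U u) ∧
      ∀ u M n u' M' n', n < (Wn U u).ncard / Fintype.card Q → n' < (Wn U u').ncard / Fintype.card Q →
        e u M n = e u' M' n' → u = u' ∧ M = M' ∧ n = n' := by
  have h1 : ∀ u, ∃ f : Q × Fin ((Wn U u).ncard / Fintype.card Q) → Pr F,
      Function.Injective f ∧ ∀ p, f p ∈ Wn U u := by
    intro u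
    by_cases hfin : (Wn U u).Finite
    · let _ : Fintype (Wn U u) := hfin.fintype
      have hc : Fintype.card (Q × Fin ((Wn U u).ncard / Fintype.card Q)) ≤ Fintype.card (Wn U u) := by
        rw [Fintype.card_prod, Fintype.card_fin, ← Nat.card_coe_set_eq, Nat.card_eq_fintype_card]
        exact Nat.mul_div_le _ _
      obtain ⟨g⟩ := Function.Embedding.nonempty_of_card_le hc
      exact ⟨fun p => (g p : Pr F), fun p q h => g.injective (Subtype.ext h), fun p => (g p).2⟩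
    · have h0 : (Wn U u).ncard / Fintype.card Q = 0 := by
        rw [Set.Infinite.ncard hfin, Nat.zero_div]
      refine ⟨fun _ => v0, fun p => ?_, fun p => ?_⟩ <;>
      · exfalso
        have := p.2.2
        omega
  choose f hf hfW using h1
  refine ⟨fun u M n => if h : n < (Wn U u).ncard / Fintype.card Q then f u (M, ⟨n, h⟩) else v0, ?_, ?_⟩
  · intro u M n h
    beta_reduce
    rw [dif_pos h]
    exact hfW _ _
  · intro u M n u' M' n' h h' he
    beta_reduce at he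
    rw [dif_pos h, dif_pos h'] at he
    have huu : u = u' := wn_disj (hfW u (M, ⟨n, h⟩)) (he ▸ hfW u' (M', ⟨n', h'⟩))
    subst huu
    have := hf u he
    simp only [Prod.mk.injEq, Fin.mk.injEq] at this
    exact ⟨rfl, this.1, this.2⟩

/-- products over the image -/
theorem prod_img {Q X β : Type*} [CommMonoid β] (A : Q → Prop) [Fintype {M : Q // A M}]
    [DecidableEq X] (p : Q → X) (hp : Function.Injective p) (f : X → β) :
    ∏ᶠ M ∈ {M | A M}, f (p M) = ∏ v ∈ Finset.univ.image (fun M : {M // A M} => p M.1), f v := by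
  rw [← finprod_set_coe_eq_finprod_mem, Finset.prod_image]
  · exact finprod_eq_prod_of_fintype (fun M : {M : Q // A M} => f (p M.1))
  · intro M _ M' _ h
    exact Subtype.ext (hp h)

end Locc

open Locc Classical in
theorem locc (hqr : QrStatement) (hcnt : CntStatement) (hdsg : DsgStatement) : LoccStatement := by
  intro F _ _ P S j Lg hG hC ch hch
  set t := 2 * j + 2 with ht
  set U := PC P S with hU
  let Q := Fin t → Fin t → ZMod 2
  let Ω := {x : Fin t → ZMod 2 // x ≠ 0}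
  let A : Ω → Q → Prop := fun x M => qf M x.1 = 1
  have hinc : Inc Q Ω A (2 ^ (t ^ 2 - 1)) := hqr t (by omega)
  have hne : Nonempty Ω := ⟨⟨fun _ => 1, fun h => by
    have := congrFun h ⟨0, by omega⟩
    simp at this⟩⟩
  set k := 2 ^ (t ^ 2 - 1) with hk
  have hk1 : 1 ≤ k := Nat.one_le_two_pow
  have hKpos : 0 < Fintype.card Q := Fintype.card_pos
  obtain ⟨a, u1, ha, hm⟩ := wn_card hC (Fintype.card Q) hKpos
  -- a prime
  obtain ⟨v0⟩ : Nonempty (Pr F) := by
    obtain ⟨u1', h1', hb⟩ := big 1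
    have h1 := hm (max u1 u1') (le_max_left _ _)
    have h2 := hb (max u1 u1') (le_max_right _ _)
    have h3 : (0 : ℝ) < ((Wn U (max u1 u1')).ncard / Fintype.card Q : ℕ) := by
      refine lt_of_lt_of_le ?_ h1
      rw [mul_div_assoc]
      exact mul_pos ha (lt_of_lt_of_le one_pos h2)
    have h4 : 0 < (Wn U (max u1 u1')).ncard / Fintype.card Q := by exact_mod_cast h3
    have h5 : (Wn U (max u1 u1')).ncard ≠ 0 := by
      intro h
      rw [h, Nat.zero_div] at h4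
      omega
    obtain ⟨v, -⟩ := Set.nonempty_of_ncard_ne_zero h5
    exact ⟨v⟩
  obtain ⟨e, heW, heI⟩ := exists_e (U := U) v0 Q
  obtain ⟨c, u2, hc, hcnt'⟩ := hcnt Q Ω A k hk1 hne hinc a u1 ha
  refine ⟨k, c, max u2 1, hk1, hc, ?_⟩
  intro u0 hu0 χ hχ hLg hχT
  have hu2 : u2 ≤ u0 := le_trans (le_max_left _ _) hu0
  have hu01 : 1 ≤ u0 := le_trans (le_max_right _ _) hu0
  let Rs : (x : Ω) → ({M : Q // A x M} → ℕ) → ({M : Q // A x M} → ℕ) → Finset (Pr F) :=
    fun x h g => Finset.univ.image (fun M : {M : Q // A x M} => e (h M) M.1 (g M))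
  let Gd : (x : Ω) → ({M : Q // A x M} → ℕ) → ({M : Q // A x M} → ℕ) → Prop :=
    fun x h g => ∃ ρ ∈ Fam P S, Lg ρ ∧ (∀ v, v ∈ ρ.T ↔ v ∈ χ.T ∨ v ∈ Rs x h g) ∧
      ρ.cond = χ.cond * ∏ v ∈ Rs x h g, nm v ∧
      ∀ a, ρ.chi a = χ.chi a * ∏ v ∈ Rs x h g, (ch v).chi a
  obtain ⟨x, hx⟩ := hcnt' (fun u => (Wn U u).ncard / Fintype.card Q) hm Gd u0 hu2 (by
    intro u f hu hf
    have hinj : Function.Injective (fun M => e (u M) M (f M)) := by
      intro M M' h
      exact (heI _ _ _ _ _ _ (hf M) (hf M') h).2.1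
    have hp : ∀ M, ch (e (u M) M (f M)) ∈ Fam P S ∧ (ch (e (u M) M (f M))).T = {e (u M) M (f M)} ∧
        e (u M) M (f M) ∉ χ.T := by
      intro M
      obtain ⟨h1, h2, h3⟩ := heW (u M) M (f M) (hf M)
      refine ⟨(hch _ h3).1, (hch _ h3).2, fun hmem => ?_⟩
      have h4 := hχT _ hmem
      have h5 : 2 ^ u0 ≤ 2 ^ (2 * u M) := Nat.pow_le_pow_right (by norm_num) (hu M).1
      have h6 : 2 ^ (2 * u M) = (2 ^ u M) ^ 2 := by rw [← pow_mul, mul_comm]
      have h7 : (2 ^ u M) ^ 2 < (nm (e (u M) M (f M))) ^ 2 := Nat.pow_lt_pow_left h1 (by norm_num)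
      omega
    obtain ⟨x, ρ, hρ, hρL, hρT, hρc, hρchi⟩ := hdsg F P S j Lg hG χ ch hχ hLg
      (fun M => e (u M) M (f M)) hinj hp
    refine ⟨x, ρ, hρ, hρL, ?_, ?_, ?_⟩
    · intro v
      rw [hρT v]
      simp only [Rs, Finset.mem_image, Finset.mem_univ, true_and, Subtype.exists, A]
      constructor
      · rintro (h | ⟨M, h1, h2⟩)
        · exact Or.inl h
        · exact Or.inr ⟨M, h1, h2.symm⟩
      · rintro (h | ⟨M, h1, h2⟩)
        · exact Or.inl h
        · exact Or.inr ⟨M, h1, h2.symm⟩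
    · rw [hρc]
      congr 1
      exact prod_img (fun M => qf M x.1 = 1) (fun M => e (u M) M (f M)) hinj nm
    · intro a
      rw [hρchi a]
      congr 1
      exact prod_img (fun M => qf M x.1 = 1) (fun M => e (u M) M (f M)) hinj (fun v => (ch v).chi a))
  -- the good pairs
  set Gs : Set (({M : Q // A x M} → ℕ) × ({M : Q // A x M} → ℕ)) :=
    {p | (∀ M, u0 ≤ 2 * p.1 M) ∧ (∑ᶠ M, p.1 M) = k * u0 ∧
      (∀ M, p.2 M < (Wn U (p.1 M)).ncard / Fintype.card Q) ∧ Gd x p.1 p.2} with hGs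
  have hGfin : Gs.Finite := by
    apply Set.finite_of_ncard_pos
    have h1 : (0 : ℝ) < c * 2 ^ (k * u0) / u0 := by
      have : (0 : ℝ) < u0 := by exact_mod_cast hu01
      positivity
    exact_mod_cast lt_of_lt_of_le h1 hx
  have hRinj : Set.InjOn (fun p : ({M : Q // A x M} → ℕ) × ({M : Q // A x M} → ℕ) => Rs x p.1 p.2)
      Gs := by
    rintro ⟨h, g⟩ hp ⟨h', g'⟩ hp' he
    obtain ⟨-, -, hm1, -⟩ := hp
    obtain ⟨-, -, hm2, -⟩ := hp'
    have key : ∀ M, h M = h' M ∧ g M = g' M := by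
      intro M
      have h1 : e (h M) M.1 (g M) ∈ Rs x h' g' := by
        have : e (h M) M.1 (g M) ∈ Rs x h g := Finset.mem_image.2 ⟨M, Finset.mem_univ _, rfl⟩
        rwa [show Rs x h g = Rs x h' g' from he] at this
      obtain ⟨M', -, h2⟩ := Finset.mem_image.1 h1
      obtain ⟨h3, h4, h5⟩ := heI _ _ _ _ _ _ (hm2 M') (hm1 M) h2
      have h6 : M' = M := Subtype.ext h4
      subst h6
      exact ⟨h3.symm, h5.symm⟩
    exact Prod.ext (funext fun M => (key M).1) (funext fun M => (key M).2)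
  refine ⟨hGfin.toFinset.image (fun p => Rs x p.1 p.2), ?_, ?_⟩
  · rw [Finset.card_image_of_injOn (by
      intro p hp q hq h
      exact hRinj (by simpa using hp) (by simpa using hq) h), ← Set.ncard_eq_toFinset_card Gs hGfin]
    exact hx
  · intro R hR
    obtain ⟨⟨h, g⟩, hp, rfl⟩ := Finset.mem_image.1 hR
    obtain ⟨h1, h2, h3, h4⟩ := (Set.Finite.mem_toFinset hGfin).1 hp
    dsimp only at h1 h2 h3 h4 ⊢
    refine ⟨?_, ?_, h4⟩
    · intro v hv
      obtain ⟨M, -, rfl⟩ := Finset.mem_image.1 hv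
      obtain ⟨h5, h6, h7⟩ := heW (h M) M.1 (g M) (h3 M)
      refine ⟨h7, ?_⟩
      have h8 : 2 ^ u0 ≤ 2 ^ (2 * h M) := Nat.pow_le_pow_right (by norm_num) (h1 M)
      have h9 : 2 ^ (2 * h M) = (2 ^ h M) ^ 2 := by rw [← pow_mul, mul_comm]
      have h10 : (2 ^ h M) ^ 2 < (nm (e (h M) M.1 (g M))) ^ 2 := Nat.pow_lt_pow_left h5 (by norm_num)
      omega
    · have h5 : ∏ v ∈ Rs x h g, nm v = ∏ M : {M : Q // A x M}, nm (e (h M) M.1 (g M)) := by
        apply Finset.prod_image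
        intro M _ M' _ h
        exact Subtype.ext (heI _ _ _ _ _ _ (h3 M) (h3 M') h).2.1
      rw [h5]
      calc ∏ M : {M : Q // A x M}, nm (e (h M) M.1 (g M))
          ≤ ∏ M : {M : Q // A x M}, 2 ^ (h M + 1) :=
            Finset.prod_le_prod' (fun M _ => (heW (h M) M.1 (g M) (h3 M)).2.1)
        _ = 2 ^ (∑ M : {M : Q // A x M}, (h M + 1)) := Finset.prod_pow_eq_pow_sum _ _ _
        _ = 2 ^ (k * u0 + k) := by
          congr 1
          rw [Finset.sum_add_distrib, Finset.sum_const, smul_eq_mul, mul_one, ← h2,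
            finsum_eq_sum_of_fintype, Finset.card_univ, ← Nat.card_eq_fintype_card, hinc.card x]

end Pool.Agent.Lib.MP_50bb2e_nt.ND
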